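import Pool.Agent.H620.Inf.Chain

/-! The exceptional low parts. -/

set_option autoImplicit false

namespace Pool.Agent.H620.Inf

open Finset
open Pool.Agent.TH930.EBQ (ones wd words cw T sum_wd sum_words_succ)
open Pool.Agent.H499R2.CO (sum_affine odd3)

/-- the exceptional low parts -/
def bad (J μ o₀ o₁ G L : ℕ) : Prop :=
  ¬ (o₀ ≤ aw J L ∧ aw J L ≤ o₁) ∨ G * 2 ^ J < cwL J L ∨ 2 ^ J * 3 ^ μ ≤ 3 ^ μ * ((3 ^ (o₀ - μ) * L) % 2 ^ J) + G * 2 ^ J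

theorem good_div {J μ o₀ o₁ G L : ℕ} (hμ : μ ≤ o₀) (h : ¬ bad J μ o₀ o₁ G L) :
    cv J L / 3 ^ μ / 3 ^ (aw J L - o₀) = 3 ^ (o₀ - μ) * L / 2 ^ J := by
  unfold bad at h
  push Not at h
  obtain ⟨⟨h1, h2⟩, h3, h4⟩ := h
  set W := 3 ^ (aw J L - o₀) with hW
  have hW1 : 1 ≤ W := Nat.one_le_pow _ _ (by norm_num)
  set A := 3 ^ (o₀ - μ) * L with hA
  have e1 : 3 ^ aw J L * L = 3 ^ μ * W * A := by
    rw [hA, hW, ← pow_add, ← mul_assoc, ← pow_add]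
    congr 2
    omega
  have hcv := cv_mul J L
  rw [e1] at hcv
  rw [Nat.div_div_eq_div_mul]
  have h5 := Nat.div_add_mod A (2 ^ J)
  set R := A % 2 ^ J with hR
  set QL := A / 2 ^ J with hQL
  have h2J : 0 < 2 ^ J := by positivity
  have h3μ : 0 < 3 ^ μ := by positivity
  have hup : 3 ^ μ * W * R + cwL J L < 2 ^ J * (3 ^ μ * W) := by
    have h6 : 3 ^ μ * R * W + G * 2 ^ J * W < 2 ^ J * 3 ^ μ * W := by
      rw [← add_mul]
      exact Nat.mul_lt_mul_of_pos_right h4 (by omega)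
    have h7 : cwL J L ≤ G * 2 ^ J * W := h3.trans (Nat.le_mul_of_pos_right _ (by omega))
    calc 3 ^ μ * W * R + cwL J L ≤ 3 ^ μ * R * W + G * 2 ^ J * W := by
          have : 3 ^ μ * W * R = 3 ^ μ * R * W := by ring
          omega
      _ < 2 ^ J * 3 ^ μ * W := h6
      _ = 2 ^ J * (3 ^ μ * W) := by ring
  have e2 : 2 ^ J * cv J L = 2 ^ J * (3 ^ μ * W * QL) + (3 ^ μ * W * R + cwL J L) := by
    rw [hcv, ← h5]; ring
  apply Nat.div_eq_of_lt_le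
  · have : 2 ^ J * (QL * (3 ^ μ * W)) ≤ 2 ^ J * cv J L := by
      rw [e2]
      have : 2 ^ J * (QL * (3 ^ μ * W)) = 2 ^ J * (3 ^ μ * W * QL) := by ring
      omega
    exact Nat.le_of_mul_le_mul_left this h2J
  · have : 2 ^ J * cv J L < 2 ^ J * ((QL + 1) * (3 ^ μ * W)) := by
      rw [e2]
      have : 2 ^ J * ((QL + 1) * (3 ^ μ * W)) = 2 ^ J * (3 ^ μ * W * QL) + 2 ^ J * (3 ^ μ * W) := by ring
      omega
    exact Nat.lt_of_mul_lt_mul_left this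

theorem sum_cw (n : ℕ) : 4 * ∑ v ∈ words n, cw v = n * 4 ^ n := by
  induction n with
  | zero => simp [words]
  | succ n ih =>
    have h1 : ∑ v ∈ words n, 3 ^ ones v = 4 ^ n := by
      have := Pool.Agent.Q208.BH.sum_pow_ones 3 n
      norm_num at this
      exact_mod_cast this
    rw [sum_words_succ]
    simp only [Pool.Agent.TH930.EBQ.cw_cons_true, Pool.Agent.TH930.EBQ.cw_cons_false]
    have e : ∑ v ∈ words n, (3 ^ ones v + 2 * cw v + 2 * cw v) = 4 ^ n + 4 * ∑ v ∈ words n, cw v := by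
      rw [← h1, mul_sum, ← sum_add_distrib]
      apply sum_congr rfl
      intro v _
      ring
    rw [e, ih]
    ring

theorem count_cw (J : ℕ) {G : ℕ} (hG : 1 ≤ G) :
    ∑ L ∈ range (2 ^ J), ind (G * 2 ^ J < cwL J L) ≤ 2 ^ J * (J / (4 * G)) := by
  have hGr : (0 : ℝ) < G := by exact_mod_cast hG
  have h2J : (0 : ℝ) < 2 ^ J := by positivity
  have h1 : ∑ L ∈ range (2 ^ J), ind (G * 2 ^ J < cwL J L) ≤ ∑ L ∈ range (2 ^ J), (cwL J L : ℝ) / (G * 2 ^ J) := by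
    apply sum_le_sum
    intro L _
    by_cases h : G * 2 ^ J < cwL J L
    · rw [ind_true h, one_le_div (by positivity)]
      exact_mod_cast h.le
    · rw [ind_false h]; positivity
  refine h1.trans ?_
  rw [← sum_div]
  have h2 : ∑ L ∈ range (2 ^ J), (cwL J L : ℝ) = ∑ v ∈ words J, (cw v : ℝ) :=
    sum_wd odd_one J (fun v => (cw v : ℝ))
  have h3 : 4 * ∑ v ∈ words J, (cw v : ℝ) = J * 4 ^ J := by exact_mod_cast sum_cw J
  rw [h2, div_le_iff₀ (by positivity)]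
  have e : (4 : ℝ) ^ J = 2 ^ J * 2 ^ J := by rw [← mul_pow]; norm_num
  have e2 : (2 : ℝ) ^ J * (J / (4 * G)) * (G * 2 ^ J) = J * (2 ^ J * 2 ^ J) / 4 := by field_simp
  rw [e2, ← e]
  linarith

theorem count_edge (J μ j : ℕ) (G : ℕ) :
    ∑ L ∈ range (2 ^ J), ind (2 ^ J * 3 ^ μ ≤ 3 ^ μ * ((3 ^ j * L) % 2 ^ J) + G * 2 ^ J) ≤
      2 ^ J * (G / 3 ^ μ) + 1 := by
  set P : ℤ → ℝ := fun x => ind ((2 : ℤ) ^ J * 3 ^ μ ≤ 3 ^ μ * (x % 2 ^ J) + G * 2 ^ J) with hP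
  have h1 := sum_affine J P (fun x m => by
    simp only [hP]
    rw [Int.add_mul_emod_self_right]) (a := 3 ^ j) (odd3 j) 0
  have h2 : ∑ L ∈ range (2 ^ J), ind (2 ^ J * 3 ^ μ ≤ 3 ^ μ * ((3 ^ j * L) % 2 ^ J) + G * 2 ^ J) =
      ∑ L ∈ range (2 ^ J), P ((3 : ℤ) ^ j * L + 0) := by
    apply sum_congr rfl
    intro L _
    simp only [hP]
    congr 1
    rw [add_zero]
    have : ((2 ^ J * 3 ^ μ ≤ 3 ^ μ * ((3 ^ j * L) % 2 ^ J) + G * 2 ^ J : Prop) ↔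
      (((2 ^ J * 3 ^ μ : ℕ) : ℤ) ≤ ((3 ^ μ * ((3 ^ j * L) % 2 ^ J) + G * 2 ^ J : ℕ) : ℤ))) := by
      exact_mod_cast Iff.rfl
    rw [propext this]
    push_cast
    rfl
  rw [h2, h1]
  have h3 : ∀ L ∈ range (2 ^ J), P (L : ℤ) ≤ ind (L ∈ (range (2 ^ J)).filter
      (fun L => 2 ^ J * 3 ^ μ ≤ 3 ^ μ * L + G * 2 ^ J)) := by
    intro L hL
    simp only [hP]
    apply ind_mono
    intro h
    rw [mem_filter]
    refine ⟨hL, ?_⟩
    rw [mem_range] at hL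
    have e : (L : ℤ) % 2 ^ J = L := Int.emod_eq_of_lt (by positivity) (by exact_mod_cast hL)
    rw [e] at h
    exact_mod_cast h
  refine (sum_le_sum h3).trans ?_
  set F := (range (2 ^ J)).filter (fun L => 2 ^ J * 3 ^ μ ≤ 3 ^ μ * L + G * 2 ^ J) with hF
  have h4 : ∑ L ∈ range (2 ^ J), ind (L ∈ F) = F.card := by
    classical
    rw [← card_eq_ind, filter_mem_eq_inter, inter_eq_right.2 (filter_subset _ _)]
  rw [h4]
  -- the elements are in an interval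
  have hsub : F ⊆ Ico (2 ^ J - G * 2 ^ J / 3 ^ μ) (2 ^ J) := by
    intro L hL
    rw [hF, mem_filter, mem_range] at hL
    rw [mem_Ico]
    refine ⟨?_, hL.1⟩
    obtain ⟨hL1, hL2⟩ := hL
    have h5 : 3 ^ μ * (2 ^ J - L) ≤ G * 2 ^ J := by
      rw [Nat.mul_sub]
      have : 3 ^ μ * 2 ^ J = 2 ^ J * 3 ^ μ := by ring
      omega
    have h6 : 2 ^ J - L ≤ G * 2 ^ J / 3 ^ μ := by
      rw [Nat.le_div_iff_mul_le (by positivity), mul_comm]
      exact h5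
    omega
  have h5 := card_le_card hsub
  rw [Nat.card_Ico] at h5
  have h6 : F.card ≤ G * 2 ^ J / 3 ^ μ := h5.trans tsub_tsub_le
  have h7 : (F.card : ℝ) ≤ ((G * 2 ^ J / 3 ^ μ : ℕ) : ℝ) := by exact_mod_cast h6
  have h8 : ((G * 2 ^ J / 3 ^ μ : ℕ) : ℝ) ≤ ((G * 2 ^ J : ℕ) : ℝ) / ((3 ^ μ : ℕ) : ℝ) := Nat.cast_div_le
  push_cast at h8
  have e : (2 : ℝ) ^ J * (G / 3 ^ μ) = G * 2 ^ J / 3 ^ μ := by ring
  rw [e]
  linarith

/-- the number of the exceptional low parts -/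
theorem count_bad (J μ o₀ o₁ : ℕ) {G : ℕ} (hG : 1 ≤ G) :
    ∑ L ∈ range (2 ^ J), ind (bad J μ o₀ o₁ G L) ≤
      ∑ L ∈ range (2 ^ J), ind (¬ (o₀ ≤ aw J L ∧ aw J L ≤ o₁)) + 2 ^ J * (J / (4 * G) + G / 3 ^ μ) + 1 := by
  have h1 : ∀ L ∈ range (2 ^ J), ind (bad J μ o₀ o₁ G L) ≤ ind (¬ (o₀ ≤ aw J L ∧ aw J L ≤ o₁)) +
      (ind (G * 2 ^ J < cwL J L) + ind (2 ^ J * 3 ^ μ ≤ 3 ^ μ * ((3 ^ (o₀ - μ) * L) % 2 ^ J) + G * 2 ^ J)) := by
    intro L _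
    unfold bad
    exact (ind_or _ _).trans (add_le_add_right (ind_or _ _) _)
  refine (sum_le_sum h1).trans ?_
  rw [sum_add_distrib, sum_add_distrib]
  have h2 := count_cw J hG
  have h3 := count_edge J μ (o₀ - μ) G
  rw [mul_add]
  linarith

/-- counting in a class -/
theorem count_class (J m w L : ℕ) (r₀ : ℤ) :
    ∑ U ∈ range (2 ^ w), ind ((3 : ℤ) ^ m ∣ ((2 ^ J * U + L : ℕ) : ℤ) - r₀) ≤ 2 ^ w / 3 ^ m + 1 := by
  classical
  rw [← card_eq_ind]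
  set F := (range (2 ^ w)).filter (fun U => (3 : ℤ) ^ m ∣ ((2 ^ J * U + L : ℕ) : ℤ) - r₀) with hF
  rcases F.eq_empty_or_nonempty with h | ⟨U₀, hU₀⟩
  · rw [h, card_empty]
    push_cast
    positivity
  have h1 := card_dvd2 0 m (2 ^ w) 0 U₀ (F.image (fun U : ℕ => (U : ℤ))) (fun x hx => by
    rw [mem_image] at hx
    obtain ⟨U, hU, rfl⟩ := hx
    rw [hF, mem_filter, mem_range] at hU hU₀
    refine ⟨by positivity, ?_, by simp, ?_⟩
    · have : (U : ℤ) < ((2 ^ w : ℕ) : ℤ) := by exact_mod_cast hU.1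
      linarith
    · have h2 := dvd_sub hU.2 hU₀.2
      have e : ((2 ^ J * U + L : ℕ) : ℤ) - r₀ - (((2 ^ J * U₀ + L : ℕ) : ℤ) - r₀) = 2 ^ J * ((U : ℤ) - U₀) := by
        push_cast; ring
      rw [e] at h2
      have hc : IsCoprime ((3 : ℤ) ^ m) (2 ^ J) := by
        apply IsCoprime.pow
        rw [Int.isCoprime_iff_gcd_eq_one]; norm_num
      exact hc.dvd_of_dvd_mul_left h2)
  rw [card_image_of_injective _ Nat.cast_injective] at h1
  push_cast at h1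
  rw [pow_zero, div_one] at h1
  exact h1

end Pool.Agent.H620.Inf
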