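import Pool.Agent.H620.Inf.Minor
import Pool.Graph.R_seed8.Y967.CM.Q
import Pool.Graph.R_pool_sql_team_seeded_3997aac3.Q208.BH.ClsFew

/-! The values after `J` steps: `T^J (2 ^ J U + L) = 3 ^ a U + c`. -/

set_option autoImplicit false

namespace Pool.Agent.H620.Inf

open Finset
open Pool.Agent.TH930.EBQ (ones wd words cw T iter_eq wd_congr wd_length sum_wd)
open Pool.Agent.H499R2.CO (Tz)
open Pool.Agent.Q74.BH (cl)

theorem T_eq_Tz : T 1 = Tz 1 := by
  funext x; rfl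

/-- number of odd steps -/
def aw (J L : ℕ) : ℕ := ones (wd 1 J (L : ℤ))

/-- the constant -/
def cwL (J L : ℕ) : ℕ := cw (wd 1 J (L : ℤ))

/-- the value -/
def cv (J L : ℕ) : ℕ := (3 ^ aw J L * L + cwL J L) / 2 ^ J

theorem T_nonneg {x : ℤ} (hx : 0 ≤ x) : 0 ≤ T 1 x := by
  unfold T; split_ifs <;> omega

theorem iter_nonneg (J : ℕ) : ∀ {x : ℤ}, 0 ≤ x → 0 ≤ (T 1)^[J] x := by
  induction J with
  | zero => intro x hx; exact hx
  | succ J ih => intro x hx; rw [Function.iterate_succ_apply]; exact ih (T_nonneg hx)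

theorem iter_lt (J : ℕ) : ∀ {x u : ℤ}, x < 2 ^ J * u → (T 1)^[J] x < 3 ^ ones (wd 1 J x) * u := by
  induction J with
  | zero => intro x u hx; simpa [wd] using hx
  | succ J ih =>
    intro x u hx
    rw [Function.iterate_succ_apply]
    rcases Int.emod_two_eq_zero_or_one x with h | h
    · have hd : decide (x % 2 = 1) = false := by simp [h]
      have hT : T 1 x = x / 2 := by unfold T; rw [if_pos h]
      simp only [wd]
      rw [hd, Pool.Agent.TH930.EBQ.ones_cons_false]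
      apply ih
      rw [hT]
      have e : (2 : ℤ) ^ (J + 1) * u = 2 * (2 ^ J * u) := by ring
      rw [e] at hx
      omega
    · have hd : decide (x % 2 = 1) = true := by simp [h]
      have hT : T 1 x = (3 * x + 1) / 2 := by unfold T; rw [if_neg (by omega)]
      simp only [wd]
      rw [hd, Pool.Agent.TH930.EBQ.ones_cons_true]
      have e2 : (3 : ℤ) ^ (ones (wd 1 J (T 1 x)) + 1) * u = 3 ^ ones (wd 1 J (T 1 x)) * (3 * u) := by ring
      rw [e2]
      apply ih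
      rw [hT]
      have e : (2 : ℤ) ^ (J + 1) * u = 2 * (2 ^ J * u) := by ring
      have e3 : (2 : ℤ) ^ J * (3 * u) = 3 * (2 ^ J * u) := by ring
      rw [e] at hx
      rw [e3]
      omega

theorem cv_mul (J L : ℕ) : 2 ^ J * cv J L = 3 ^ aw J L * L + cwL J L := by
  unfold cv
  apply Nat.mul_div_cancel'
  have h := iter_eq odd_one J (L : ℤ)
  have h0 := iter_nonneg J (x := (L : ℤ)) (by positivity)
  obtain ⟨z, hz⟩ : ∃ z : ℕ, (T 1)^[J] (L : ℤ) = z := ⟨((T 1)^[J] (L : ℤ)).toNat, (Int.toNat_of_nonneg h0).symm⟩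
  rw [hz] at h
  refine ⟨z, ?_⟩
  unfold aw cwL
  have : ((3 ^ ones (wd 1 J (L : ℤ)) * L + cw (wd 1 J (L : ℤ)) : ℕ) : ℤ) = ((2 ^ J * z : ℕ) : ℤ) := by
    push_cast
    linarith
  exact_mod_cast this

theorem wd_add (J : ℕ) (U : ℤ) (L : ℕ) : wd 1 J (2 ^ J * U + L) = wd 1 J (L : ℤ) :=
  wd_congr odd_one ⟨U, by ring⟩

theorem iter_add (J : ℕ) (U : ℤ) (L : ℕ) : (T 1)^[J] (2 ^ J * U + L) = 3 ^ aw J L * U + cv J L := by
  have h := iter_eq odd_one J (2 ^ J * U + (L : ℤ))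
  rw [wd_add] at h
  have h2 : ((2 ^ J * cv J L : ℕ) : ℤ) = ((3 ^ aw J L * L + cwL J L : ℕ) : ℤ) := by exact_mod_cast cv_mul J L
  push_cast at h2
  have h3 : (2 : ℤ) ^ J * (T 1)^[J] (2 ^ J * U + L) = 2 ^ J * (3 ^ aw J L * U + cv J L) := by
    rw [h]
    unfold aw cwL at h2
    unfold aw
    linear_combination -h2
  exact mul_left_cancel₀ (by positivity) h3

theorem cv_eq (J L : ℕ) : (T 1)^[J] (L : ℤ) = cv J L := by
  have h := iter_add J 0 L
  simpa using h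

theorem cv_lt {J L : ℕ} (hL : L < 2 ^ J) : cv J L < 3 ^ aw J L := by
  have h := iter_lt J (x := (L : ℤ)) (u := 1) (by rw [mul_one]; exact_mod_cast hL)
  rw [cv_eq, mul_one] at h
  unfold aw
  exact_mod_cast h

theorem aw_le (J L : ℕ) : aw J L ≤ J := by
  unfold aw
  have := Pool.Agent.TH930.EBQ.ones_le_length (wd 1 J (L : ℤ))
  rwa [wd_length] at this

/-- the class of the value -/
theorem cv_class {μ J L : ℕ} (h : μ ≤ aw J L) : cv J L % 3 ^ μ = (cl μ (wd 1 J (L : ℤ))).toNat := by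
  obtain ⟨h1, h2, _, _⟩ := Pool.Agent.Q208.BH.cls
  have h3 : ((cv J L : ℕ) : ℤ) % 3 ^ μ = cl μ (wd 1 J (L : ℤ)) := by
    rw [← h2 μ (wd 1 J (L : ℤ)) (cv J L), wd_length]
    have e : ((2 ^ J * cv J L : ℕ) : ℤ) = ((3 ^ aw J L * L + cwL J L : ℕ) : ℤ) := by exact_mod_cast cv_mul J L
    push_cast at e
    rw [e]
    unfold cwL
    rw [add_sub_cancel_right]
    exact Dvd.dvd.mul_right (pow_dvd_pow 3 h) _
  rw [← h3]
  have : ((cv J L : ℕ) : ℤ) % 3 ^ μ = ((cv J L % 3 ^ μ : ℕ) : ℤ) := by push_cast; rfl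
  rw [this, Int.toNat_natCast]

/-- invariance along the iterates -/
theorem inv_iter {Q : ℤ → Prop} (hQ : ∀ x, Q (Tz 1 x) ↔ Q x) (n : ℕ) (x : ℤ) : Q ((Tz 1)^[n] x) ↔ Q x := by
  induction n generalizing x with
  | zero => exact Iff.rfl
  | succ n ih => rw [Function.iterate_succ_apply, ih, hQ]

theorem inv_val {Q : ℤ → Prop} (hQ : ∀ x, Q (Tz 1 x) ↔ Q x) (J : ℕ) (U : ℤ) (L : ℕ) :
    Q (2 ^ J * U + L) ↔ Q (3 ^ aw J L * U + cv J L) := by
  rw [← iter_add, T_eq_Tz, inv_iter hQ]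

end Pool.Agent.H620.Inf
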