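import Pool.Agent.H620.Inf.Chain

/-! Typical numbers of odd steps. -/

set_option autoImplicit false

namespace Pool.Agent.H620.Inf

open Finset
open Pool.Agent.TH930.EBQ (ones wd words cw T sum_wd sum_words_succ ones_cons_true ones_cons_false mem_words
  ones_le_length)

theorem card_ones (n : ℕ) : ∀ o : ℕ, ∑ v ∈ words n, (if ones v = o then 1 else 0) = n.choose o := by
  induction n with
  | zero =>
    intro o
    rcases o with _ | o <;> simp [words, ones]
  | succ n ih =>
    intro o
    rw [sum_words_succ]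
    simp only [ones_cons_true, ones_cons_false]
    rcases o with _ | o
    · simp only [Nat.add_eq_zero_iff, one_ne_zero, and_false, if_false, zero_add, Nat.choose_zero_right]
      rw [ih 0, Nat.choose_zero_right]
    · simp only [Nat.add_right_cancel_iff]
      rw [sum_add_distrib, ih, ih, Nat.choose_succ_succ]

theorem card_ones' (n o : ℕ) : ((words n).filter (fun v => ones v = o)).card = n.choose o := by
  rw [card_filter, card_ones]

theorem var_ones (n : ℕ) : ∑ v ∈ words n, (2 * (ones v : ℝ) - (n : ℝ)) ^ 2 = (n : ℝ) * 2 ^ n := by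
  induction n with
  | zero => simp [words]
  | succ n ih =>
    rw [sum_words_succ]
    simp only [ones_cons_true, ones_cons_false]
    have e : ∀ v ∈ words n, (2 * ((ones v + 1 : ℕ) : ℝ) - ((n + 1 : ℕ) : ℝ)) ^ 2 + (2 * (ones v : ℝ) - ((n + 1 : ℕ) : ℝ)) ^ 2 =
        2 * (2 * (ones v : ℝ) - n) ^ 2 + 2 := by
      intro v _
      push_cast
      ring
    rw [sum_congr rfl e, sum_add_distrib, ← mul_sum, ih, sum_const, Pool.Agent.TH930.EBQ.card_words, nsmul_eq_mul]
    push_cast
    ring

theorem choose_mono {n j : ℕ} (hj : j ≤ n / 2) : ∀ {i : ℕ}, i ≤ j → n.choose i ≤ n.choose j := by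
  intro i hij
  induction j, hij using Nat.le_induction with
  | base => exact le_rfl
  | succ j hij ih => exact (ih (by omega)).trans (Nat.choose_le_succ_of_lt_half_left (by omega))

theorem choose_unimodal {n a b o : ℕ} (hb : b ≤ n) (h1 : a ≤ o) (h2 : o ≤ b) :
    n.choose a ≤ n.choose o ∨ n.choose b ≤ n.choose o := by
  rcases le_or_gt o (n / 2) with h | h
  · exact Or.inl (choose_mono h h1)
  · right
    rw [← Nat.choose_symm hb, ← Nat.choose_symm (h2.trans hb)]
    exact choose_mono (by omega) (by omega)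

/-- typical levels -/
theorem typ {J D : ℕ} (hD : 0 < D) {p : ℝ} (hp : 0 < p) (hlt : ((D : ℝ) + 1) * p + J / (D : ℝ) ^ 2 < 1) :
    ∃ o₀ o₁ : ℕ, o₀ ≤ o₁ ∧ J ≤ 2 * o₀ + D ∧ 2 * o₀ ≤ J + D ∧
      (∀ o ∈ Icc o₀ o₁, p * 2 ^ J ≤ (((words J).filter (fun v => ones v = o)).card : ℝ)) ∧
      ∑ L ∈ range (2 ^ J), ind (¬ (o₀ ≤ aw J L ∧ aw J L ≤ o₁)) ≤ 2 ^ J * (((D : ℝ) + 1) * p + J / (D : ℝ) ^ 2) := by
  classical
  have h2J : (0 : ℝ) < 2 ^ J := by positivity
  have hDr : (0 : ℝ) < D := by exact_mod_cast hD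
  set R := (range (J + 1)).filter (fun o => J ≤ 2 * o + D ∧ 2 * o ≤ J + D) with hR
  set Ty := R.filter (fun o => p * 2 ^ J ≤ (J.choose o : ℝ)) with hTy
  have hmem : ∀ o, o ∈ Ty ↔ (o < J + 1 ∧ J ≤ 2 * o + D ∧ 2 * o ≤ J + D) ∧ p * 2 ^ J ≤ (J.choose o : ℝ) := by
    intro o
    rw [hTy, mem_filter, hR, mem_filter, mem_range]
  have hRcard : (R.card : ℝ) ≤ (D : ℝ) + 1 := by
    have h1 : R ⊆ Icc ((J - D + 1) / 2) ((J + D) / 2) := by
      intro o ho
      rw [hR, mem_filter] at ho
      rw [mem_Icc]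
      omega
    have h2 := card_le_card h1
    rw [Nat.card_Icc] at h2
    have h3 : R.card ≤ D + 1 := by omega
    exact_mod_cast h3
  -- the general bound
  have hgen : ∑ v ∈ words J, ind (ones v ∉ Ty) ≤ 2 ^ J * (((D : ℝ) + 1) * p + J / (D : ℝ) ^ 2) := by
    have h1 : ∀ v ∈ words J, ind (ones v ∉ Ty) ≤
        ind (ones v ∈ R ∧ ¬ (p * 2 ^ J ≤ (J.choose (ones v) : ℝ))) + (2 * (ones v : ℝ) - J) ^ 2 / (D : ℝ) ^ 2 := by
      intro v hv
      by_cases hvR : ones v ∈ R
      · have h2 : ind (ones v ∉ Ty) ≤ ind (ones v ∈ R ∧ ¬ (p * 2 ^ J ≤ (J.choose (ones v) : ℝ))) := by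
          apply ind_mono
          intro h
          refine ⟨hvR, fun h' => h ?_⟩
          rw [hTy, mem_filter]
          exact ⟨hvR, h'⟩
        have h3 : 0 ≤ (2 * (ones v : ℝ) - J) ^ 2 / (D : ℝ) ^ 2 := by positivity
        linarith
      · have h2 : (1 : ℝ) ≤ (2 * (ones v : ℝ) - J) ^ 2 / (D : ℝ) ^ 2 := by
          rw [one_le_div (by positivity)]
          rw [hR, mem_filter, mem_range] at hvR
          have hlen : ones v ≤ J := by
            have := ones_le_length v
            rwa [mem_words.1 hv] at this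
          rcases (show J > 2 * ones v + D ∨ 2 * ones v > J + D by
            by_contra hcon
            push Not at hcon
            exact hvR ⟨by omega, by omega, by omega⟩) with h | h
          · have : (J : ℝ) > 2 * ones v + D := by exact_mod_cast h
            nlinarith
          · have : 2 * (ones v : ℝ) > J + D := by exact_mod_cast h
            nlinarith
        have h3 := ind_le_one (ones v ∉ Ty)
        have h4 := ind_nonneg (ones v ∈ R ∧ ¬ (p * 2 ^ J ≤ (J.choose (ones v) : ℝ)))
        linarith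
    refine (sum_le_sum h1).trans ?_
    rw [sum_add_distrib, ← sum_div, var_ones]
    have h2 : ∑ v ∈ words J, ind (ones v ∈ R ∧ ¬ (p * 2 ^ J ≤ (J.choose (ones v) : ℝ))) ≤
        ((D : ℝ) + 1) * (p * 2 ^ J) := by
      have h3 : ∀ v ∈ words J, ind (ones v ∈ R ∧ ¬ (p * 2 ^ J ≤ (J.choose (ones v) : ℝ))) ≤
          ∑ o ∈ R, (if ones v = o then ind (¬ (p * 2 ^ J ≤ (J.choose o : ℝ))) else 0) := by
        intro v _
        rw [sum_ite_eq]
        split_ifs with h
        · exact ind_mono fun h => h.2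
        · rw [ind_false fun h' => h h'.1]
      refine (sum_le_sum h3).trans ?_
      rw [sum_comm]
      have h4 : ∀ o ∈ R, ∑ v ∈ words J, (if ones v = o then ind (¬ (p * 2 ^ J ≤ (J.choose o : ℝ))) else 0) ≤
          p * 2 ^ J := by
        intro o _
        by_cases h : p * 2 ^ J ≤ (J.choose o : ℝ)
        · rw [ind_false (not_not.2 h)]
          simp only [ite_self, sum_const_zero]
          positivity
        · rw [ind_true h]
          have h5 := card_ones J o
          have h6 : ∑ v ∈ words J, (if ones v = o then (1 : ℝ) else 0) = J.choose o := by exact_mod_cast h5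
          rw [h6]
          exact (not_le.1 h).le
      refine (sum_le_sum h4).trans ?_
      rw [sum_const, nsmul_eq_mul]
      exact mul_le_mul_of_nonneg_right hRcard (by positivity)
    have h3 : (J : ℝ) * 2 ^ J / (D : ℝ) ^ 2 = 2 ^ J * (J / (D : ℝ) ^ 2) := by ring
    rw [h3]
    linarith
  have hne : Ty.Nonempty := by
    by_contra h
    rw [not_nonempty_iff_eq_empty] at h
    rw [h] at hgen
    have h1 : ∑ v ∈ words J, ind (ones v ∉ (∅ : Finset ℕ)) = 2 ^ J := by
      have : ∀ v ∈ words J, ind (ones v ∉ (∅ : Finset ℕ)) = 1 := fun v _ => ind_true (notMem_empty _)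
      rw [sum_congr rfl this, sum_const, Pool.Agent.TH930.EBQ.card_words, nsmul_eq_mul, mul_one]
      push_cast
      rfl
    rw [h1] at hgen
    nlinarith
  refine ⟨Ty.min' hne, Ty.max' hne, min'_le_max' _ _, ?_, ?_, ?_, ?_⟩
  · exact ((hmem _).1 (min'_mem Ty hne)).1.2.1
  · exact ((hmem _).1 (min'_mem Ty hne)).1.2.2
  · intro o ho
    rw [mem_Icc] at ho
    rw [card_ones']
    have h1 := (hmem _).1 (min'_mem Ty hne)
    have h2 := (hmem _).1 (max'_mem Ty hne)
    have h3 : Ty.max' hne ≤ J := by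
      have := h2.1.1
      omega
    rcases choose_unimodal h3 ho.1 ho.2 with h | h
    · exact h1.2.trans (by exact_mod_cast h)
    · exact h2.2.trans (by exact_mod_cast h)
  · refine le_trans ?_ hgen
    have h1 := sum_wd odd_one J (fun v => ind (ones v ∉ Ty))
    rw [← h1]
    apply sum_le_sum
    intro L _
    apply ind_mono
    intro h hmem
    exact h ⟨min'_le _ _ hmem, le_max' _ _ hmem⟩

end Pool.Agent.H620.Inf
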