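import Pool.Agent.H620.Inf.Model

/-! The chain of the partitions. -/

set_option autoImplicit false

namespace Pool.Agent.H620.Inf

open Finset
open Pool.Agent.Q74.BH (cl)
open Pool.Agent.TH930.EBQ (ones wd words cw T sum_wd)

/-- the value of the part -/
def X (χ : ℕ → ℕ → ℕ → Prop) (par o q : ℕ) : Prop := χ par ((o + par) / 2) (q / 3 ^ ((o + par) % 2))

/-- the share of the blocks at which the two partitions differ -/
noncomputable def dl (χ : ℕ → ℕ → ℕ → Prop) (μ o : ℕ) : ℝ :=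
  if μ ≤ o then (∑ q ∈ range (3 ^ (o - μ)), ind (¬ (X χ 0 o q ↔ X χ 1 o q))) / 3 ^ (o - μ) else 0

theorem dl_nonneg (χ : ℕ → ℕ → ℕ → Prop) (μ o : ℕ) : 0 ≤ dl χ μ o := by
  unfold dl
  split_ifs
  · exact div_nonneg (sum_nonneg fun _ _ => ind_nonneg _) (by positivity)
  · exact le_rfl

/-- the exceptional values -/
def ee (V : ℕ → ℕ → ℕ → Prop) (χ : ℕ → ℕ → ℕ → Prop) (par : ℕ) : ℕ → ℕ → ℕ → Prop :=
  fun o q r => ¬ (V o q r ↔ X χ par o q)

theorem ind_tri (p q r : Prop) : ind (¬ (p ↔ r)) ≤ ind (¬ (p ↔ q)) + ind (¬ (q ↔ r)) := by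
  rw [← ne'_eq_ind, ← ne'_eq_ind, ← ne'_eq_ind]; exact ne'_tri p q r

theorem ind_comm (p q : Prop) : ind (¬ (p ↔ q)) = ind (¬ (q ↔ p)) := by
  rw [← ne'_eq_ind, ← ne'_eq_ind]; exact ne'_comm p q

theorem dl_le (V χ : ℕ → ℕ → ℕ → Prop) (μ o r : ℕ) : dl χ μ o ≤ nq (ee V χ 0) μ o r + nq (ee V χ 1) μ o r := by
  unfold dl nq ee
  split_ifs
  · rw [← add_div, ← sum_add_distrib]
    apply div_le_div_of_nonneg_right _ (by positivity)
    apply sum_le_sum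
    intro q _
    have := ind_tri (X χ 0 o q) (V o q r) (X χ 1 o q)
    rwa [ind_comm (X χ 0 o q) (V o q r)] at this
  · simp

theorem sum_dl_le (V χ : ℕ → ℕ → ℕ → Prop) (μ J : ℕ) :
    ∑ v ∈ words J, dl χ μ (ones v) ≤ mm μ J (ee V χ 0) + mm μ J (ee V χ 1) := by
  unfold mm
  rw [← sum_add_distrib]
  exact sum_le_sum fun v _ => dl_le V χ μ (ones v) _

/-- the difference of the levels `o` and `o₀` -/
noncomputable def Dv (χ : ℕ → ℕ → ℕ → Prop) (μ o₀ o : ℕ) : ℝ :=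
  (∑ q ∈ range (3 ^ (o - μ)), ind (¬ (X χ 0 o q ↔ X χ 0 o₀ (q / 3 ^ (o - o₀))))) / 3 ^ (o - μ)

theorem sum_third (n : ℕ) (f : ℕ → ℝ) : ∑ q ∈ range (3 ^ (n + 1)), f (q / 3) = 3 * ∑ q ∈ range (3 ^ n), f q := by
  rw [pow_succ, mul_comm (3 ^ n) 3, sum_split, mul_sum]
  apply sum_congr rfl
  intro q _
  have : ∀ r ∈ range 3, f ((3 * q + r) / 3) = f q := by
    intro r hr
    rw [mem_range] at hr
    congr 1
    omega
  rw [sum_congr rfl this, sum_const, card_range, nsmul_eq_mul]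
  norm_num

theorem Dv_succ (χ : ℕ → ℕ → ℕ → Prop) {μ o₀ o : ℕ} (h0 : μ ≤ o₀) (ho : o₀ ≤ o) :
    Dv χ μ o₀ (o + 1) ≤ Dv χ μ o₀ o + dl χ μ o + dl χ μ (o + 1) := by
  have e1 : o + 1 - μ = (o - μ) + 1 := by omega
  have hpt : ∀ q, ind (¬ (X χ 0 (o + 1) q ↔ X χ 0 o₀ (q / 3 ^ (o + 1 - o₀)))) ≤
      (ind (¬ (X χ 0 o (q / 3) ↔ X χ 0 o₀ (q / 3 / 3 ^ (o - o₀)))) +
        ind (¬ (X χ 0 o (q / 3) ↔ X χ 1 o (q / 3)))) + ind (¬ (X χ 0 (o + 1) q ↔ X χ 1 (o + 1) q)) := by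
    intro q
    have e2 : q / 3 ^ (o + 1 - o₀) = q / 3 / 3 ^ (o - o₀) := by
      rw [Nat.div_div_eq_div_mul]
      congr 1
      have : o + 1 - o₀ = (o - o₀) + 1 := by omega
      rw [this, pow_succ, mul_comm]
    rw [e2]
    rcases Nat.mod_two_eq_zero_or_one o with h | h
    · have e3 : X χ 0 (o + 1) q ↔ X χ 0 o (q / 3) := by
        unfold X
        rw [show (o + 1 + 0) / 2 = (o + 0) / 2 by omega, show (o + 1 + 0) % 2 = 1 by omega,
          show (o + 0) % 2 = 0 by omega, pow_one, pow_zero, Nat.div_one]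
      have h1 := ind_nonneg (¬ (X χ 0 o (q / 3) ↔ X χ 1 o (q / 3)))
      have h2 := ind_nonneg (¬ (X χ 0 (o + 1) q ↔ X χ 1 (o + 1) q))
      have h3 : ind (¬ (X χ 0 (o + 1) q ↔ X χ 0 o₀ (q / 3 / 3 ^ (o - o₀)))) =
        ind (¬ (X χ 0 o (q / 3) ↔ X χ 0 o₀ (q / 3 / 3 ^ (o - o₀)))) := by rw [propext e3]
      linarith
    · have e3 : X χ 1 (o + 1) q ↔ X χ 1 o (q / 3) := by
        unfold X
        rw [show (o + 1 + 1) / 2 = (o + 1) / 2 by omega, show (o + 1 + 1) % 2 = 1 by omega,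
          show (o + 1) % 2 = 0 by omega, pow_one, pow_zero, Nat.div_one]
      have h1 := ind_tri (X χ 0 (o + 1) q) (X χ 1 (o + 1) q) (X χ 0 o₀ (q / 3 / 3 ^ (o - o₀)))
      have h2 := ind_tri (X χ 1 (o + 1) q) (X χ 0 o (q / 3)) (X χ 0 o₀ (q / 3 / 3 ^ (o - o₀)))
      have h3 : ind (¬ (X χ 1 (o + 1) q ↔ X χ 0 o (q / 3))) = ind (¬ (X χ 0 o (q / 3) ↔ X χ 1 o (q / 3))) := by
        rw [propext e3, ind_comm]
      linarith
  have e4 : Dv χ μ o₀ o = (∑ q ∈ range (3 ^ (o + 1 - μ)),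
      ind (¬ (X χ 0 o (q / 3) ↔ X χ 0 o₀ (q / 3 / 3 ^ (o - o₀))))) / 3 ^ (o + 1 - μ) := by
    unfold Dv
    rw [e1, sum_third (o - μ) (fun q => ind (¬ (X χ 0 o q ↔ X χ 0 o₀ (q / 3 ^ (o - o₀))))), pow_succ]
    field_simp
  have e5 : dl χ μ o = (∑ q ∈ range (3 ^ (o + 1 - μ)),
      ind (¬ (X χ 0 o (q / 3) ↔ X χ 1 o (q / 3)))) / 3 ^ (o + 1 - μ) := by
    unfold dl
    rw [if_pos (by omega), e1, sum_third (o - μ) (fun q => ind (¬ (X χ 0 o q ↔ X χ 1 o q))), pow_succ]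
    field_simp
  have e6 : dl χ μ (o + 1) = (∑ q ∈ range (3 ^ (o + 1 - μ)),
      ind (¬ (X χ 0 (o + 1) q ↔ X χ 1 (o + 1) q))) / 3 ^ (o + 1 - μ) := by
    unfold dl
    rw [if_pos (by omega)]
  rw [e4, e5, e6, ← add_div, ← add_div, ← sum_add_distrib, ← sum_add_distrib]
  unfold Dv
  exact div_le_div_of_nonneg_right (sum_le_sum fun q _ => hpt q) (by positivity)

theorem Dv_le (χ : ℕ → ℕ → ℕ → Prop) {μ o₀ : ℕ} (h0 : μ ≤ o₀) (n : ℕ) :
    Dv χ μ o₀ (o₀ + n) ≤ 2 * ∑ o ∈ Icc o₀ (o₀ + n), dl χ μ o - dl χ μ (o₀ + n) := by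
  induction n with
  | zero =>
    have : Dv χ μ o₀ o₀ = 0 := by
      unfold Dv
      simp [ind]
    rw [add_zero, this, Icc_self, sum_singleton]
    have := dl_nonneg χ μ o₀
    linarith
  | succ n ih =>
    have h1 := Dv_succ χ h0 (Nat.le_add_right o₀ n)
    have e : Icc o₀ (o₀ + (n + 1)) = insert (o₀ + n + 1) (Icc o₀ (o₀ + n)) := by
      ext x; simp only [mem_Icc, mem_insert]; omega
    rw [e, sum_insert (by simp), ← add_assoc]
    linarith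

/-- the final exceptional values -/
def ef (V χ : ℕ → ℕ → ℕ → Prop) (o₀ o₁ : ℕ) : ℕ → ℕ → ℕ → Prop :=
  fun o q r => o₀ ≤ o ∧ o ≤ o₁ ∧ ¬ (V o q r ↔ X χ 0 o₀ (q / 3 ^ (o - o₀)))

theorem mm_ef (V χ : ℕ → ℕ → ℕ → Prop) {μ J o₀ o₁ : ℕ} (h0 : μ ≤ o₀) {p : ℝ} (hp0 : 0 < p)
    (hp : ∀ o ∈ Icc o₀ o₁, p * 2 ^ J ≤ (((words J).filter (fun v => ones v = o)).card : ℝ)) :
    mm μ J (ef V χ o₀ o₁) ≤ mm μ J (ee V χ 0) + 2 / p * (mm μ J (ee V χ 0) + mm μ J (ee V χ 1)) := by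
  set Δ := ∑ o ∈ Icc o₀ o₁, dl χ μ o with hΔ
  have hΔ0 : 0 ≤ Δ := sum_nonneg fun _ _ => dl_nonneg _ _ _
  have h2J : (0 : ℝ) < 2 ^ J := by positivity
  have hpt : ∀ o r, nq (ef V χ o₀ o₁) μ o r ≤ nq (ee V χ 0) μ o r + 2 * Δ := by
    intro o r
    by_cases ho : o₀ ≤ o ∧ o ≤ o₁
    · obtain ⟨ho1, ho2⟩ := ho
      have h1 : Dv χ μ o₀ o ≤ 2 * Δ := by
        obtain ⟨n, rfl⟩ : ∃ n, o = o₀ + n := ⟨o - o₀, by omega⟩
        have h2 := Dv_le χ h0 n
        have h3 : ∑ o ∈ Icc o₀ (o₀ + n), dl χ μ o ≤ Δ :=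
          sum_le_sum_of_subset_of_nonneg (Icc_subset_Icc le_rfl ho2) (fun _ _ _ => dl_nonneg _ _ _)
        have h4 := dl_nonneg χ μ (o₀ + n)
        linarith
      refine le_trans ?_ (add_le_add_right h1 _)
      unfold nq Dv
      rw [if_pos (by omega), if_pos (by omega), ← add_div, ← sum_add_distrib]
      apply div_le_div_of_nonneg_right _ (by positivity)
      apply sum_le_sum
      intro q _
      refine (ind_mono (fun h => h.2.2)).trans ?_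
      exact ind_tri _ _ _
    · have : nq (ef V χ o₀ o₁) μ o r = 0 := by
        unfold nq
        split_ifs
        · rw [sum_eq_zero, zero_div]
          intro q _
          exact ind_false (fun h => ho ⟨h.1, h.2.1⟩)
        · rfl
      rw [this]
      have := nq_nonneg (ee V χ 0) μ o r
      positivity
  have h1 : mm μ J (ef V χ o₀ o₁) ≤ mm μ J (ee V χ 0) + 2 ^ J * (2 * Δ) := by
    unfold mm
    refine (sum_le_sum fun v _ => hpt (ones v) _).trans ?_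
    rw [sum_add_distrib, sum_const, Pool.Agent.TH930.EBQ.card_words, nsmul_eq_mul]
    push_cast
    exact le_rfl
  have h2 : p * 2 ^ J * Δ ≤ mm μ J (ee V χ 0) + mm μ J (ee V χ 1) := by
    refine le_trans ?_ (sum_dl_le V χ μ J)
    rw [hΔ, mul_sum]
    have h3 : ∑ o ∈ Icc o₀ o₁, p * 2 ^ J * dl χ μ o ≤
        ∑ o ∈ Icc o₀ o₁, ∑ v ∈ (words J).filter (fun v => ones v = o), dl χ μ (ones v) := by
      apply sum_le_sum
      intro o ho
      have h4 : ∑ v ∈ (words J).filter (fun v => ones v = o), dl χ μ (ones v) =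
          ((words J).filter (fun v => ones v = o)).card * dl χ μ o := by
        rw [← nsmul_eq_mul, ← sum_const]
        apply sum_congr rfl
        intro v hv
        rw [(mem_filter.1 hv).2]
      rw [h4]
      exact mul_le_mul_of_nonneg_right (hp o ho) (dl_nonneg _ _ _)
    refine h3.trans ?_
    rw [← sum_biUnion]
    · apply sum_le_sum_of_subset_of_nonneg
      · intro v hv
        rw [mem_biUnion] at hv
        obtain ⟨o, _, hv⟩ := hv
        exact (mem_filter.1 hv).1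
      · intro _ _ _
        exact dl_nonneg _ _ _
    · intro a _ b _ hab
      rw [Function.onFun, disjoint_left]
      intro v hv1 hv2
      exact hab ((mem_filter.1 hv1).2.symm.trans (mem_filter.1 hv2).2)
  have h3 : 2 ^ J * (2 * Δ) ≤ 2 / p * (mm μ J (ee V χ 0) + mm μ J (ee V χ 1)) := by
    rw [div_mul_eq_mul_div, le_div_iff₀ hp0]
    calc 2 ^ J * (2 * Δ) * p = 2 * (p * 2 ^ J * Δ) := by ring
      _ ≤ _ := by linarith
  linarith

/-- a good class -/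
theorem exists_class {ι : Type*} (s : Finset ι) (e : ι → ℕ → ℕ → ℕ → Prop) {μ J o₀ : ℕ} {p M : ℝ} (hp0 : 0 < p)
    (hp : p * 2 ^ J ≤ (((words J).filter (fun v => ones v = o₀)).card : ℝ))
    (hM : ∑ U ∈ s, mm μ J (e U) ≤ M) : ∃ r < 3 ^ μ, ∑ U ∈ s, nq (e U) μ o₀ r ≤ M / (p * 2 ^ J) := by
  set W := (words J).filter (fun v => ones v = o₀) with hW
  have h2J : (0 : ℝ) < 2 ^ J := by positivity
  have hpJ : 0 < p * 2 ^ J := by positivity
  have hne : W.Nonempty := by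
    rw [← card_pos]
    have : (0 : ℝ) < W.card := lt_of_lt_of_le hpJ hp
    exact_mod_cast this
  have hM0 : 0 ≤ M := le_trans (sum_nonneg fun _ _ => mm_nonneg _ _ _) hM
  have h1 : ∑ v ∈ W, ∑ U ∈ s, nq (e U) μ o₀ (cl μ v).toNat ≤ M := by
    refine le_trans ?_ hM
    rw [sum_comm]
    apply sum_le_sum
    intro U _
    unfold mm
    calc ∑ v ∈ W, nq (e U) μ o₀ (cl μ v).toNat = ∑ v ∈ W, nq (e U) μ (ones v) (cl μ v).toNat := by
          apply sum_congr rfl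
          intro v hv
          rw [(mem_filter.1 hv).2]
      _ ≤ ∑ v ∈ words J, nq (e U) μ (ones v) (cl μ v).toNat :=
          sum_le_sum_of_subset_of_nonneg (filter_subset _ _) (fun _ _ _ => nq_nonneg _ _ _ _)
  have h2 : ∑ v ∈ W, ∑ U ∈ s, nq (e U) μ o₀ (cl μ v).toNat ≤ ∑ v ∈ W, M / (p * 2 ^ J) := by
    refine h1.trans ?_
    rw [sum_const, nsmul_eq_mul, mul_div_assoc', le_div_iff₀ hpJ, mul_comm]
    exact mul_le_mul_of_nonneg_right hp hM0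
  obtain ⟨v, _, hv⟩ := exists_le_of_sum_le hne h2
  refine ⟨(cl μ v).toNat, ?_, hv⟩
  obtain ⟨h3, _, _, _⟩ := Pool.Agent.Q208.BH.cls
  obtain ⟨h4, h5⟩ := h3 μ v
  have : (((cl μ v).toNat : ℕ) : ℤ) < 3 ^ μ := by rw [Int.toNat_of_nonneg h4]; exact h5
  exact_mod_cast this

end Pool.Agent.H620.Inf
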