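import Pool.Graph.R_seed8.TH163.AC3.Col

/-! The total sensitivity of circuits of constant depth. -/

set_option autoImplicit false
set_option linter.unusedSectionVars false

namespace Pool.Agent.H620.Inf

open Finset DomAC0 H568R2 Pool.Agent.TH163.AC3 Function

section
variable {I : Type} [Fintype I] [DecidableEq I]

/-- flip a bit -/
def fl (x : I → Bool) (i : I) : I → Bool := update x i (!(x i))

theorem fl_fl (x : I → Bool) (i : I) : fl (fl x i) i = x := by
  unfold fl
  funext j
  by_cases h : j = i
  · subst h; simp
  · simp [h]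

/-- indicator of sensitivity -/
noncomputable def se (f : (I → Bool) → Bool) (x : I → Bool) (i : I) : ℝ := if f (fl x i) ≠ f x then 1 else 0

theorem se_nonneg (f : (I → Bool) → Bool) (x : I → Bool) (i : I) : 0 ≤ se f x i := by
  unfold se; split_ifs <;> norm_num

theorem se_le_one (f : (I → Bool) → Bool) (x : I → Bool) (i : I) : se f x i ≤ 1 := by
  unfold se; split_ifs <;> norm_num

/-- total sensitivity -/
noncomputable def TS (f : (I → Bool) → Bool) : ℝ := ∑ x : I → Bool, ∑ i, se f x i

theorem card_cube : ((univ : Finset (I → Bool)).card : ℝ) = 2 ^ Fintype.card I := by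
  rw [card_univ, Fintype.card_fun, Fintype.card_bool]
  push_cast
  rfl

theorem TS_le (f : (I → Bool) → Bool) : TS f ≤ 2 ^ Fintype.card I * Fintype.card I := by
  unfold TS
  calc ∑ x : I → Bool, ∑ i, se f x i ≤ ∑ _x : I → Bool, ∑ _i : I, (1 : ℝ) :=
        sum_le_sum fun x _ => sum_le_sum fun i _ => se_le_one f x i
    _ = 2 ^ Fintype.card I * Fintype.card I := by
        simp only [sum_const, nsmul_eq_mul, mul_one, card_univ]
        rw [← card_univ (α := I → Bool), card_cube]

/-- functions with small certificates for one of the two values -/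
theorem TS_cert {f : (I → Bool) → Bool} {s : ℕ} {b : Bool} (hf : Cert s b f) :
    TS f ≤ 2 ^ Fintype.card I * (2 * s) := by
  set A : (I → Bool) → I → ℝ := fun x i => if f (fl x i) ≠ f x ∧ f x = b then 1 else 0 with hA
  have h1 : ∀ x i, se f x i = A x i + A (fl x i) i := by
    intro x i
    simp only [hA, se, fl_fl]
    cases hx : f x <;> cases hy : f (fl x i) <;> cases b <;> simp
  have h2 : ∀ i, ∑ x : I → Bool, A (fl x i) i = ∑ x : I → Bool, A x i := by
    intro i
    have hinv : Function.Involutive (fun x : I → Bool => fl x i) := fun x => fl_fl x i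
    exact Equiv.sum_comp hinv.toPerm (fun x => A x i)
  have h3 : TS f = 2 * ∑ x : I → Bool, ∑ i, A x i := by
    unfold TS
    simp_rw [h1, sum_add_distrib]
    rw [two_mul]
    congr 1
    rw [sum_comm, sum_comm (f := fun x i => A x i)]
    exact sum_congr rfl fun i _ => h2 i
  have h4 : ∀ x, ∑ i, A x i ≤ s := by
    intro x
    by_cases hx : f x = b
    · obtain ⟨B, hB, hy⟩ := hf x hx
      have h5 : ∀ i, A x i ≤ if i ∈ B then 1 else 0 := by
        intro i
        by_cases hi : i ∈ B
        · rw [if_pos hi]
          simp only [hA]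
          split_ifs <;> norm_num
        · rw [if_neg hi]
          have h6 : f (fl x i) = b := by
            apply hy
            intro j hj
            unfold fl
            rw [update_of_ne]
            intro h
            exact hi (h ▸ hj)
          simp only [hA]
          rw [if_neg]
          rintro ⟨h7, _⟩
          exact h7 (h6.trans hx.symm)
      refine (sum_le_sum fun i _ => h5 i).trans ?_
      rw [sum_ite_mem, univ_inter, sum_const, nsmul_eq_mul, mul_one]
      exact_mod_cast hB
    · have : ∑ i, A x i = 0 := by
        apply sum_eq_zero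
        intro i _
        simp only [hA]
        rw [if_neg]
        exact fun h => hx h.2
      rw [this]
      positivity
  rw [h3]
  calc 2 * ∑ x : I → Bool, ∑ i, A x i ≤ 2 * ∑ _x : I → Bool, (s : ℝ) := by
        gcongr with x _
        exact h4 x
    _ = 2 ^ Fintype.card I * (2 * s) := by
        rw [sum_const, nsmul_eq_mul, card_cube]; ring

/-- the mean over the cube -/
theorem Ex_half (F : (I → Bool) → ℝ) : Ex (fun _ : Bool => (1 / 2 : ℝ)) F = (∑ x, F x) / 2 ^ Fintype.card I := by
  unfold Ex
  simp only [prod_const, card_univ]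
  rw [← mul_sum, one_div, inv_pow, inv_mul_eq_div]

theorem half_sum : ∑ _a : Bool, (1 / 2 : ℝ) = 1 := by simp

theorem Ex_star (p : ℝ) (i : I) (s : (I → Bool) → ℝ) :
    Ex (wq p) (fun ρ : Restr I => Ex (fun _ : Bool => (1 / 2 : ℝ)) (fun x => if ρ i = none then s (ov ρ x) else 0)) =
      p * Ex (fun _ : Bool => (1 / 2 : ℝ)) s := by
  classical
  have h1 := Ex_prod (I := I) (wq p) (fun _ : Bool => (1 / 2 : ℝ))
    (fun ω => if (ω i).1 = none then s (fun j => (ω j).1.getD (ω j).2) else 0)
  have h2 := Ex_push (I := I) (fun c : Option Bool × Bool => ((decide (c.1 = none), c.1.getD c.2) : Bool × Bool))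
    (fun c => wq p c.1 * (1 / 2)) (fun c : Bool × Bool => (if c.1 = true then p else 1 - p) * (1 / 2)) (by
      intro b
      rw [sum_filter, Fintype.sum_prod_type]
      simp only [Fintype.sum_option, Fintype.sum_bool]
      rcases b with ⟨_ | _, _ | _⟩ <;> simp [wq] <;> ring)
    (fun ω => if (ω i).1 = true then s (fun j => (ω j).2) else 0)
  have h3 := Ex_prod (I := I) (fun a : Bool => if a = true then p else 1 - p) (fun _ : Bool => (1 / 2 : ℝ))
    (fun ω => if (ω i).1 = true then s (fun j => (ω j).2) else 0)
  have e1 : Ex (wq p) (fun ρ : Restr I => Ex (fun _ : Bool => (1 / 2 : ℝ))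
      (fun x => if ρ i = none then s (ov ρ x) else 0)) =
      Ex (fun c : Option Bool × Bool => wq p c.1 * (1 / 2))
      (fun ω => if (ω i).1 = none then s (fun j => (ω j).1.getD (ω j).2) else 0) := by
    rw [h1]; rfl
  have e2 : Ex (fun c : Option Bool × Bool => wq p c.1 * (1 / 2))
      (fun ω : I → Option Bool × Bool => if (ω i).1 = none then s (fun j => (ω j).1.getD (ω j).2) else 0) =
      Ex (fun c : Option Bool × Bool => wq p c.1 * (1 / 2)) (fun ω : I → Option Bool × Bool =>
        (fun ω : I → Bool × Bool => if (ω i).1 = true then s (fun j => (ω j).2) else 0)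
        (fun j => (decide ((ω j).1 = none), (ω j).1.getD (ω j).2))) := by
    congr 1
    funext ω
    simp
  rw [e1, e2, h2, h3]
  have h4 : (fun α : I → Bool => Ex (fun _ : Bool => (1 / 2 : ℝ)) (fun β => if (α i) = true then s β else 0)) =
      fun α => Ex (fun _ : Bool => (1 / 2 : ℝ)) s * (1 * (if ∀ j ∈ ({i} : Finset I), α j = true then 1 else 0)) := by
    funext α
    by_cases h : α i = true
    · simp [h]
    · have h0 : Ex (fun _ : Bool => (1 / 2 : ℝ)) (fun _ : I → Bool => (0 : ℝ)) = 0 := by
        unfold Ex; simp
      have hh : (fun β : I → Bool => if α i = true then s β else 0) = fun _ => 0 := by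
        funext β; rw [if_neg h]
      rw [hh, h0, if_neg (by simpa using h)]
      ring
  show Ex _ (fun α : I → Bool => Ex (fun _ : Bool => (1 / 2 : ℝ)) (fun β => if (α i) = true then s β else 0)) = _
  have hw : ∑ a : Bool, (if a = true then p else 1 - p) = 1 := by simp
  have h5 := Ex_indep (I := I) hw (fun a => a = true) {i} (fun _ => 1) (fun _ _ _ _ => rfl)
  rw [h4, Ex_smul, h5, Ex_const hw]
  simp [filter_eq']
  ring

/-- the total sensitivity under a random restriction -/
theorem TS_restr (p : ℝ) (f : (I → Bool) → Bool) :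
    Ex (wq p) (fun ρ : Restr I => TS (rs f ρ) / 2 ^ Fintype.card I) = p * (TS f / 2 ^ Fintype.card I) := by
  have h1 : ∀ ρ : Restr I, TS (rs f ρ) / 2 ^ Fintype.card I =
      ∑ i, Ex (fun _ : Bool => (1 / 2 : ℝ)) (fun x => if ρ i = none then se f (ov ρ x) i else 0) := by
    intro ρ
    unfold TS
    rw [sum_comm, sum_div]
    apply sum_congr rfl
    intro i _
    rw [Ex_half]
    congr 1
    apply sum_congr rfl
    intro x _
    by_cases hi : ρ i = none
    · rw [if_pos hi]
      have : ov ρ (fl x i) = fl (ov ρ x) i := by
        funext j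
        unfold ov fl
        by_cases hj : j = i
        · subst hj; simp [hi]
        · simp [hj]
      unfold se rs
      rw [this]
    · rw [if_neg hi]
      have : ov ρ (fl x i) = ov ρ x := by
        funext j
        unfold ov fl
        by_cases hj : j = i
        · subst hj
          obtain ⟨b, hb⟩ := Option.ne_none_iff_exists'.1 hi
          simp [hb]
        · simp [hj]
      unfold se rs
      rw [this]
      simp
  simp_rw [h1]
  rw [Ex_sum, sum_congr rfl fun i _ => Ex_star p i (fun y => se f y i), ← mul_sum]
  congr 1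
  unfold TS
  rw [sum_comm, sum_div]
  apply sum_congr rfl
  intro i _
  rw [Ex_half]

end

end Pool.Agent.H620.Inf
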