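import Pool.Agent.H620.Inf.Circ

/-! The total sensitivity of circuits of constant depth: collapse of the circuit. -/

set_option autoImplicit false

namespace Pool.Agent.H620.Inf

open Finset DomAC0 H568R2 Pool.Agent.TH163.AC3

variable {I : Type} [Fintype I] [DecidableEq I]

open Classical in
theorem gates_bound (C : Circuit I) {q ε : ℝ} (h0 : 0 ≤ q) (h1 : q ≤ 1) {s j : ℕ} (ρ : Restr I)
    (hg : ∀ g : Fin C.size, C.gateDepth g ≤ j → Ex (wq q) (fun τ : Restr I => (if ¬ HasDT s
      (rs (rs (fun x => C.gateVal x g) ρ) τ) then (1 : ℝ) else 0)) ≤ ε) (hε : 0 ≤ ε) :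
    Ex (wq q) (fun τ : Restr I => if ¬ Shallow C s j (cmp ρ τ) then (1 : ℝ) else 0) ≤ C.size * ε := by
  have hpt : ∀ τ : Restr I, (if ¬ Shallow C s j (cmp ρ τ) then (1 : ℝ) else 0) ≤
      ∑ g ∈ univ.filter (fun g : Fin C.size => C.gateDepth g ≤ j),
        (if ¬ HasDT s (rs (rs (fun x => C.gateVal x g) ρ) τ) then (1 : ℝ) else 0) := by
    intro τ
    have hnn : ∀ g ∈ univ.filter (fun g : Fin C.size => C.gateDepth g ≤ j),
        (0 : ℝ) ≤ (if ¬ HasDT s (rs (rs (fun x => C.gateVal x g) ρ) τ)
          then (1 : ℝ) else 0) := by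
      intro g _
      split_ifs <;> norm_num
    by_cases hGG : Shallow C s j (cmp ρ τ)
    · simp only [hGG, not_true, if_false]
      exact Finset.sum_nonneg hnn
    · simp only [hGG, not_false_iff, if_true]
      have hex : ∃ g : Fin C.size, C.gateDepth g ≤ j ∧
          ¬ HasDT s (rs (fun x => C.gateVal x g) (cmp ρ τ)) := by
        by_contra hcon
        apply hGG
        intro g hg
        by_contra hJ
        exact hcon ⟨g, hg, hJ⟩
      obtain ⟨g, hg, hJ⟩ := hex
      rw [rs_cmp] at hJ
      refine le_trans ?_ (Finset.single_le_sum hnn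
        (Finset.mem_filter.2 ⟨Finset.mem_univ g, hg⟩))
      rw [if_pos hJ]
  refine (Ex_mono (wq_nonneg h0 h1) hpt).trans ?_
  rw [Ex_sum]
  refine (Finset.sum_le_card_nsmul _ _ _ (fun g hgi => hg g (Finset.mem_filter.1 hgi).2)).trans ?_
  rw [nsmul_eq_mul]
  apply mul_le_mul_of_nonneg_right _ hε
  have : (univ.filter (fun g : Fin C.size => C.gateDepth g ≤ j)).card ≤ C.size := by
    refine (Finset.card_le_univ _).trans ?_
    simp
  exact_mod_cast this

/-- the empty restriction -/
def rnone : Restr I := fun _ => none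

theorem rs_none (f : (I → Bool) → Bool) : rs f rnone = f := by
  funext x; rfl

theorem cmp_none (τ : Restr I) : cmp rnone τ = τ := by
  funext i; rfl

open Classical in
theorem first_level (C : Circuit I) {q : ℝ} (h0 : 0 ≤ q) (h1 : q ≤ 1 / 3) {s : ℕ} :
    Ex (wq q) (fun τ : Restr I => if ¬ Shallow C s 1 τ then (1 : ℝ) else 0) ≤ C.size * (12 * q) ^ (s + 1) := by
  have h := gates_bound C (q := q) (ε := (12 * q) ^ (s + 1)) (s := s) (j := 1) h0 (by linarith) rnone (by
    intro g hgd
    obtain ⟨b, hb⟩ := gate_cert' C (K := 1) (ρ := rnone) g (C.preds g).toList (by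
      intro v hv
      apply node_dt C le_rfl (j := 0)
      · intro g hg
        have : 0 < C.gateDepth g := by rw [Circuit.gateDepth]; omega
        omega
      · have hvp : v ∈ C.preds g := by
          rwa [Finset.mem_toList] at hv
        have := depth_lt C g v hvp
        omega)
    have h2 : (fun x => C.gateVal x g) = fun x => gfun C g x (C.preds g).toList := by
      funext x
      exact gateVal_eq C x g
    rw [← h2] at hb
    have h3 := switching' (s := s) h0 h1 hb
    rw [Nat.cast_one, mul_one] at h3
    exact h3) (by positivity)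
  simp only [cmp_none] at h
  exact h

open Classical in
theorem collapse2 (C : Circuit I) {q₀ q : ℝ} (g0 : 0 ≤ q₀) (g1 : q₀ ≤ 1 / 3) (h0 : 0 ≤ q) (h1 : q ≤ 1 / 3) {s : ℕ}
    (hs : 1 ≤ s) : ∀ j : ℕ, Ex (wq (q₀ * q ^ j)) (fun ρ : Restr I => if ¬ Shallow C s (j + 1) ρ then (1 : ℝ) else 0) ≤
      C.size * (12 * q₀) ^ (s + 1) + j * C.size * (12 * s * q) ^ (s + 1) := by
  intro j
  induction j with
  | zero =>
    rw [pow_zero, mul_one]
    have := first_level C g0 g1 (s := s)
    simpa using this
  | succ j ih =>
    rw [pow_succ, ← mul_assoc, wq_cmp]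
    set ε : ℝ := (12 * s * q) ^ (s + 1) with hε
    have hε0 : 0 ≤ ε := by positivity
    have hp1 : q ^ j ≤ 1 := pow_le_one₀ h0 (by linarith)
    have hp0 : 0 ≤ q ^ j := pow_nonneg h0 j
    have hwj : ∀ a, 0 ≤ wq (q₀ * q ^ j) a := wq_nonneg (by positivity) (by nlinarith)
    have hw1 : ∀ a, 0 ≤ wq q a := wq_nonneg h0 (by linarith)
    have hin : ∀ ρ : Restr I, Ex (wq q) (fun τ : Restr I =>
        if ¬ Shallow C s (j + 1 + 1) (cmp ρ τ) then (1 : ℝ) else 0) ≤
        (if ¬ Shallow C s (j + 1) ρ then (1 : ℝ) else 0) + C.size * ε := by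
      intro ρ
      by_cases hG : Shallow C s (j + 1) ρ
      · simp only [hG, not_true, if_false, zero_add]
        apply gates_bound C h0 (by linarith) ρ _ hε0
        intro g hgd
        obtain ⟨b, hb⟩ := gate_cert' C (K := s) (ρ := ρ) g (C.preds g).toList (by
          intro v hv
          apply node_dt C hs hG
          have hvp : v ∈ C.preds g := by
            rwa [Finset.mem_toList] at hv
          have := depth_lt C g v hvp
          omega)
        have h2 : (fun x => C.gateVal x g) = fun x => gfun C g x (C.preds g).toList := by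
          funext x
          exact gateVal_eq C x g
        rw [← h2] at hb
        exact switching' h0 h1 hb
      · simp only [hG, not_false_iff, if_true]
        have h2 : Ex (wq q) (fun τ : Restr I =>
            if ¬ Shallow C s (j + 1 + 1) (cmp ρ τ) then (1 : ℝ) else 0) ≤
            Ex (wq q) (fun _ : Restr I => (1 : ℝ)) := by
          apply Ex_mono hw1
          intro τ
          split_ifs <;> norm_num
        rw [Ex_const (wq_sum q)] at h2
        have : 0 ≤ C.size * ε := by positivity
        linarith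
    refine (Ex_mono hwj hin).trans ?_
    rw [Ex_add, Ex_const (wq_sum (q₀ * q ^ j))]
    push_cast at ih ⊢
    linarith

open Classical in
/-- **The total sensitivity of circuits of constant depth.** -/
theorem circ_TS (C : Circuit I) {d s : ℕ} (hd : C.depth ≤ d + 2) (hs : 1 ≤ s)
    (hsz : Fintype.card I * ((d + 1) * C.size) ≤ 2 ^ (s + 1)) :
    TS C.eval / 2 ^ Fintype.card I ≤ 72 * 24 ^ d * (s : ℝ) ^ (d + 1) := by
  set n := Fintype.card I with hn
  have hsr : (1 : ℝ) ≤ s := by exact_mod_cast hs
  set q : ℝ := 1 / (24 * s) with hq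
  have hq0 : 0 < q := by positivity
  have hq1 : q ≤ 1 / 3 := by
    rw [hq]
    apply one_div_le_one_div_of_le (by norm_num)
    linarith
  set p : ℝ := 1 / 24 * q ^ d with hp
  have hp0 : 0 < p := by positivity
  have hp1 : p ≤ 1 := by
    have : q ^ d ≤ 1 := pow_le_one₀ hq0.le (by linarith)
    rw [hp]; linarith
  have h2n : (0 : ℝ) < 2 ^ n := by positivity
  have hcol := collapse2 C (q₀ := 1 / 24) (q := q) (by norm_num) (by norm_num) hq0.le hq1 hs d
  have e1 : (12 : ℝ) * (1 / 24) = 1 / 2 := by norm_num
  have e2 : (12 : ℝ) * s * q = 1 / 2 := by rw [hq]; field_simp; norm_num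
  rw [e1, e2, ← hp] at hcol
  -- under a restriction
  have hρ : ∀ ρ : Restr I, TS (rs C.eval ρ) / 2 ^ n ≤ 2 * s + n * (if ¬ Shallow C s (d + 1) ρ then (1 : ℝ) else 0) := by
    intro ρ
    by_cases hG : Shallow C s (d + 1) ρ
    · rw [if_neg (not_not.2 hG), mul_zero, add_zero, div_le_iff₀ h2n]
      have hc : ∃ b, Cert s b (rs C.eval ρ) := by
        cases hout : C.output with
        | inl i =>
          have h3 := node_dt C hs hG (Sum.inl i) (by simp [Circuit.nodeDepth])
          refine ⟨true, ?_⟩
          have h4 : (fun x => C.nodeVal x (Sum.inl i)) = C.eval := by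
            funext x
            unfold Circuit.eval
            rw [hout]
          rw [h4] at h3
          exact h3.cert true
        | inr g =>
          obtain ⟨b, hb⟩ := gate_cert' C (K := s) (ρ := ρ) g (C.preds g).toList (by
            intro v hv
            apply node_dt C hs hG
            have hvp : v ∈ C.preds g := by
              rwa [Finset.mem_toList] at hv
            have h5 := depth_lt C g v hvp
            have h6 : C.gateDepth g ≤ d + 2 := by
              have h7 := hd
              unfold Circuit.depth at h7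
              rw [hout] at h7
              exact h7
            omega)
          have h4 : (fun x => gfun C g x (C.preds g).toList) = C.eval := by
            funext x
            unfold Circuit.eval
            rw [hout]
            exact (gateVal_eq C x g).symm
          rw [h4] at hb
          exact ⟨b, hb⟩
      obtain ⟨b, hb⟩ := hc
      have := TS_cert hb
      rw [← hn] at this
      linarith
    · rw [if_pos hG, mul_one, div_le_iff₀ h2n]
      have h3 := TS_le (rs C.eval ρ)
      rw [← hn] at h3
      have : (0 : ℝ) ≤ 2 * s * 2 ^ n := by positivity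
      linarith
  have h1 := TS_restr p C.eval
  rw [← hn] at h1
  have h2 : p * (TS C.eval / 2 ^ n) ≤ 2 * s + n * (C.size * (1 / 2) ^ (s + 1) + d * C.size * (1 / 2) ^ (s + 1)) := by
    rw [← h1]
    refine (Ex_mono (wq_nonneg hp0.le hp1) hρ).trans ?_
    rw [Ex_add, Ex_const (wq_sum p), Ex_smul]
    have hn0 : (0 : ℝ) ≤ n := Nat.cast_nonneg n
    gcongr
  have h3 : (n : ℝ) * (C.size * (1 / 2) ^ (s + 1) + d * C.size * (1 / 2) ^ (s + 1)) ≤ 1 := by
    have h4 : (n : ℝ) * ((d + 1) * C.size) ≤ 2 ^ (s + 1) := by exact_mod_cast hsz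
    have e3 : (n : ℝ) * (C.size * (1 / 2) ^ (s + 1) + d * C.size * (1 / 2) ^ (s + 1)) =
        (n * ((d + 1) * C.size)) * (1 / 2) ^ (s + 1) := by ring
    rw [e3, one_div, inv_pow, ← div_eq_mul_inv, div_le_one (by positivity)]
    exact h4
  have h4 : p * (TS C.eval / 2 ^ n) ≤ 3 * s := by linarith
  have h5 : TS C.eval / 2 ^ n ≤ 3 * s / p := by
    rw [le_div_iff₀ hp0, mul_comm]; exact h4
  refine h5.trans (le_of_eq ?_)
  rw [hp, hq, one_div_pow, mul_pow]
  field_simp
  ring

end Pool.Agent.H620.Inf
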