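import Pool.Agent.H620.Inf.Circ2
import Pool.Agent.H620.Inf.Final

/-! Invariant sets and circuits of constant depth. -/

set_option autoImplicit false

namespace Pool.Agent.H620.Inf

open Finset Filter DomAC0 H568R2 Pool.Agent.TH163.AC3

/-- the lowest `k` bits -/
def bits (k M : ℕ) : Fin k → Bool := fun i => M.testBit i

theorem bits_flip {k j : ℕ} (hj : j < k) (M : ℕ) : bits k (M ^^^ 2 ^ j) = fl (bits k M) ⟨j, hj⟩ := by
  funext i
  unfold bits fl
  rw [Nat.testBit_xor, Nat.testBit_two_pow]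
  by_cases h : i = ⟨j, hj⟩
  · subst h
    simp
  · have h2 : ¬ (j = (i : ℕ)) := by
      intro h3
      apply h
      ext
      exact h3.symm
    rw [Function.update_of_ne h]
    simp [h2]

theorem bits_inj {k M M' : ℕ} (hM : M < 2 ^ k) (hM' : M' < 2 ^ k) (h : bits k M = bits k M') : M = M' := by
  apply Nat.eq_of_testBit_eq
  intro i
  by_cases hi : i < k
  · exact congrFun h ⟨i, hi⟩
  · rw [Nat.testBit_lt_two_pow (lt_of_lt_of_le hM (Nat.pow_le_pow_right (by norm_num) (by omega))),
      Nat.testBit_lt_two_pow (lt_of_lt_of_le hM' (Nat.pow_le_pow_right (by norm_num) (by omega)))]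

theorem sum_bits {k : ℕ} {F : (Fin k → Bool) → ℝ} (hF : ∀ x, 0 ≤ F x) :
    ∑ M ∈ range (2 ^ k), F (bits k M) ≤ ∑ x, F x := by
  classical
  have h : Set.InjOn (bits k) (range (2 ^ k) : Finset ℕ) := by
    intro M hM M' hM' h
    rw [mem_coe, mem_range] at hM hM'
    exact bits_inj hM hM' h
  rw [← sum_image h]
  exact sum_le_sum_of_subset_of_nonneg (subset_univ _) fun x _ _ => hF x

theorem TI_le_TS {k : ℕ} (f : (Fin k → Bool) → Bool) : TI (fun M => f (bits k M) = true) k ≤ TS f := by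
  unfold TI TS
  rw [Finset.sum_range, sum_comm (s := (univ : Finset (Fin k → Bool)))]
  apply sum_le_sum
  intro i _
  unfold In
  refine le_trans (le_of_eq ?_) (sum_bits (F := fun x => se f x i) fun x => se_nonneg f x i)
  apply sum_congr rfl
  intro M _
  show ne' (f (bits k M) = true) (f (bits k (M ^^^ 2 ^ (i : ℕ))) = true) = se f (bits k M) i
  rw [bits_flip i.2]
  unfold se ne'
  cases f (bits k M) <;> cases f (fl (bits k M) i) <;> simp

theorem TI_approx (P g : ℕ → Prop) (k : ℕ) :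
    TI P k ≤ TI g k + 2 * k * ∑ M ∈ range (2 ^ k), ne' (P M) (g M) := by
  unfold TI
  have h1 : ∀ j ∈ range k, In P k j ≤ In g k j + 2 * ∑ M ∈ range (2 ^ k), ne' (P M) (g M) := by
    intro j hj
    rw [mem_range] at hj
    have h2 : ∑ M ∈ range (2 ^ k), ne' (P (M ^^^ 2 ^ j)) (g (M ^^^ 2 ^ j)) = ∑ M ∈ range (2 ^ k), ne' (P M) (g M) := by
      apply sum_nbij' (fun M => M ^^^ 2 ^ j) (fun M => M ^^^ 2 ^ j)
      · intro M hM
        rw [mem_range] at hM ⊢
        exact xor_lt hM hj
      · intro M hM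
        rw [mem_range] at hM ⊢
        exact xor_lt hM hj
      · intro M _
        rw [Nat.xor_assoc, Nat.xor_self, Nat.xor_zero]
      · intro M _
        rw [Nat.xor_assoc, Nat.xor_self, Nat.xor_zero]
      · intro M _
        rfl
    unfold In
    calc ∑ M ∈ range (2 ^ k), ne' (P M) (P (M ^^^ 2 ^ j))
        ≤ ∑ M ∈ range (2 ^ k), (ne' (P M) (g M) + ne' (g M) (g (M ^^^ 2 ^ j)) + ne' (P (M ^^^ 2 ^ j)) (g (M ^^^ 2 ^ j))) := by
          apply sum_le_sum
          intro M _
          have a1 := ne'_tri (P M) (g M) (P (M ^^^ 2 ^ j))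
          have a2 := ne'_tri (g M) (g (M ^^^ 2 ^ j)) (P (M ^^^ 2 ^ j))
          rw [ne'_comm (g (M ^^^ 2 ^ j)) (P (M ^^^ 2 ^ j))] at a2
          linarith
      _ = _ := by
          rw [sum_add_distrib, sum_add_distrib, h2]
          ring
  refine (sum_le_sum h1).trans ?_
  rw [sum_add_distrib, sum_const, card_range, nsmul_eq_mul]
  apply le_of_eq
  ring

end Pool.Agent.H620.Inf
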