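import Pool.Agent.H620.Inf.Base

/-! The values of two low parts in the same part of the partition coalesce for half of the middle parts. -/

set_option autoImplicit false

namespace Pool.Agent.H620.Inf

open Finset
open Pool.Agent.TH930.EBQ (ones wd words cw T)
open Pool.Agent.H499R2.CO (Tz q step surv surv_periodic sum_affine count_surv q_rate rho odd3)
open Pool.Agent.Y967.CM (coal_T)

/-- the parts -/
def pt (μ par J L : ℕ) : ℕ × ℕ := ((aw J L + par) / 2, cv J L / 3 ^ (μ + (aw J L + par) % 2))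

theorem coal_one {Q : ℤ → Prop} (hQ : ∀ x, Q (Tz 1 x) ↔ Q x) {b i : ℕ} {r : ℤ} (hq : q step (0, 0) b (i, r) ≤ 1 / 2)
    {J L L' : ℕ} (ha : aw J L' = aw J L + i) (hc : (cv J L' : ℤ) = 3 ^ i * cv J L + r) :
    ∃ G ⊆ range (2 ^ b), (2 : ℝ) ^ b ≤ 2 * G.card ∧ ∀ M ∈ G, ∀ U : ℕ,
      (Q ((2 ^ J * (2 ^ b * U + M) + L : ℕ) : ℤ) ↔ Q ((2 ^ J * (2 ^ b * U + M) + L' : ℕ) : ℤ)) := by
  classical
  refine ⟨(range (2 ^ b)).filter (fun M : ℕ => ¬ surv 1 b (i, r) (3 ^ aw J L * (M : ℤ) + cv J L)), filter_subset _ _,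
    ?_, ?_⟩
  · have h1 := sum_affine b (fun x : ℤ => if surv 1 b (i, r) x then (1 : ℝ) else 0)
      (fun x m => by simp only [surv_periodic (d := 1) (by norm_num)]) (a := 3 ^ aw J L) (odd3 _) (cv J L)
    rw [count_surv (d := 1) (by norm_num)] at h1
    have h2 : ((((range (2 ^ b)).filter (fun M : ℕ => surv 1 b (i, r) (3 ^ aw J L * (M : ℤ) + cv J L))).card : ℕ) : ℝ) =
        2 ^ b * q step (0, 0) b (i, r) := by
      rw [← h1, card_filter]
      push_cast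
      rfl
    have h3 := card_filter_add_card_filter_not (s := range (2 ^ b))
      (fun M : ℕ => surv 1 b (i, r) (3 ^ aw J L * (M : ℤ) + cv J L))
    rw [card_range] at h3
    have h4 : ((((range (2 ^ b)).filter (fun M : ℕ => surv 1 b (i, r) (3 ^ aw J L * (M : ℤ) + cv J L))).card : ℕ) : ℝ) +
      (((range (2 ^ b)).filter (fun M : ℕ => ¬ surv 1 b (i, r) (3 ^ aw J L * (M : ℤ) + cv J L))).card : ℕ) = 2 ^ b := by
      exact_mod_cast h3
    have hp : (0 : ℝ) < 2 ^ b := by positivity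
    nlinarith
  · intro M hM U
    rw [mem_filter] at hM
    have hM2 := hM.2
    set x : ℤ := 3 ^ aw J L * ((2 ^ b * U + M : ℕ) : ℤ) + cv J L with hx
    have h1 : ¬ surv 1 b (i, r) x := by
      have e : x = (3 ^ aw J L * (M : ℤ) + cv J L) + (3 ^ aw J L * U) * 2 ^ b := by
        rw [hx]; push_cast; ring
      rw [e, surv_periodic (d := 1) (by norm_num)]
      exact hM2
    have h2 := coal_T h1
    have e1 : ((2 ^ J * (2 ^ b * U + M) + L : ℕ) : ℤ) = 2 ^ J * ((2 ^ b * U + M : ℕ) : ℤ) + L := by push_cast; ring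
    have e2 : ((2 ^ J * (2 ^ b * U + M) + L' : ℕ) : ℤ) = 2 ^ J * ((2 ^ b * U + M : ℕ) : ℤ) + L' := by push_cast; ring
    rw [e1, e2, inv_val hQ, inv_val hQ, ← hx, ha, hc]
    have e3 : (3 : ℤ) ^ (aw J L + i) * ((2 ^ b * U + M : ℕ) : ℤ) + (3 ^ i * cv J L + r) = 3 ^ i * x + r := by
      rw [hx, pow_add]; ring
    rw [e3, ← inv_iter hQ b x, ← inv_iter hQ b (3 ^ i * x + r), h2]

theorem coal_part {Q : ℤ → Prop} (hQ : ∀ x, Q (Tz 1 x) ↔ Q x) {μ b : ℕ}
    (hq : ∀ i ≤ 1, ∀ r : ℤ, |r| ≤ 3 ^ (μ + 1) → q step (0, 0) b (i, r) ≤ 1 / 2) {par J L L' : ℕ}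
    (h : pt μ par J L = pt μ par J L') :
    ∃ G ⊆ range (2 ^ b), (2 : ℝ) ^ b ≤ 2 * G.card ∧ ∀ M ∈ G, ∀ U : ℕ,
      (Q ((2 ^ J * (2 ^ b * U + M) + L : ℕ) : ℤ) ↔ Q ((2 ^ J * (2 ^ b * U + M) + L' : ℕ) : ℤ)) := by
  have key : ∀ {L L' : ℕ}, pt μ par J L = pt μ par J L' → aw J L ≤ aw J L' →
      ∃ G ⊆ range (2 ^ b), (2 : ℝ) ^ b ≤ 2 * G.card ∧ ∀ M ∈ G, ∀ U : ℕ,
      (Q ((2 ^ J * (2 ^ b * U + M) + L : ℕ) : ℤ) ↔ Q ((2 ^ J * (2 ^ b * U + M) + L' : ℕ) : ℤ)) := by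
    intro L L' h hle
    unfold pt at h
    rw [Prod.mk.injEq] at h
    obtain ⟨h1, h2⟩ := h
    rcases (show aw J L' = aw J L ∨ aw J L' = aw J L + 1 by omega) with ha | ha
    · refine coal_one hQ (i := 0) (r := (cv J L' : ℤ) - cv J L) (hq 0 (by norm_num) _ ?_) ha (by ring)
      rw [ha] at h2
      set e := (aw J L + par) % 2 with he
      have he2 : e ≤ 1 := by omega
      have hp : 0 < 3 ^ (μ + e) := by positivity
      have a1 := Nat.div_mul_le_self (cv J L) (3 ^ (μ + e))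
      have a2 := Nat.lt_div_mul_add (a := cv J L) hp
      have a3 := Nat.div_mul_le_self (cv J L') (3 ^ (μ + e))
      have a4 := Nat.lt_div_mul_add (a := cv J L') hp
      have a5 : 3 ^ (μ + e) ≤ 3 ^ (μ + 1) := Nat.pow_le_pow_right (by norm_num) (by omega)
      rw [h2] at a1 a2
      have a5' : ((3 ^ (μ + e) : ℕ) : ℤ) ≤ 3 ^ (μ + 1) := by exact_mod_cast a5
      set X := cv J L' / 3 ^ (μ + e) * 3 ^ (μ + e) with hX
      rw [abs_le]
      constructor <;> omega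
    · have hpar : (aw J L + par) % 2 = 0 := by omega
      have hpar' : (aw J L' + par) % 2 = 1 := by omega
      rw [hpar, hpar', add_zero] at h2
      refine coal_one hQ (i := 1) (r := (cv J L' : ℤ) - 3 * cv J L) (hq 1 le_rfl _ ?_) ha (by ring)
      have hp : 0 < 3 ^ μ := by positivity
      have hp' : 0 < 3 ^ (μ + 1) := by positivity
      have a1 := Nat.div_mul_le_self (cv J L) (3 ^ μ)
      have a2 := Nat.lt_div_mul_add (a := cv J L) hp
      have a3 := Nat.div_mul_le_self (cv J L') (3 ^ (μ + 1))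
      have a4 := Nat.lt_div_mul_add (a := cv J L') hp'
      rw [h2] at a1 a2
      have e1 : (3 : ℤ) ^ (μ + 1) = 3 * ((3 ^ μ : ℕ) : ℤ) := by push_cast; ring
      have e2 : (3 : ℕ) ^ (μ + 1) = 3 * 3 ^ μ := by ring
      rw [e1]
      rw [e2] at a1 a2 a3 a4
      set Y := cv J L' / (3 * 3 ^ μ) with hY
      have e3 : Y * (3 * 3 ^ μ) = 3 * (Y * 3 ^ μ) := by ring
      rw [e3] at a3 a4
      set X := Y * 3 ^ μ with hX
      rw [abs_le]
      constructor <;> omega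
  rcases le_total (aw J L) (aw J L') with hle | hle
  · exact key h hle
  · obtain ⟨G, h1, h2, h3⟩ := key h.symm hle
    exact ⟨G, h1, h2, fun M hM U => (h3 M hM U).symm⟩

/-- The coalescence rate for `b` large compared with `μ log μ`. -/
theorem coal_num : ∃ C : ℝ, 0 < C ∧ ∀ μ b : ℕ, 1 ≤ b → C * ((μ : ℝ) + 4) * Real.log (b + 1) ≤ b →
    ∀ i ≤ 1, ∀ r : ℤ, |r| ≤ 3 ^ (μ + 1) → q step (0, 0) b (i, r) ≤ 1 / 2 := by
  obtain ⟨C, hC, h⟩ := q_rate
  refine ⟨4 * C ^ 2, by positivity, fun μ b hb hb2 i hi r hr => ?_⟩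
  have hbr : (0 : ℝ) < b := by exact_mod_cast hb
  have h1 := h b hb i (μ + 1) r (by
    have : |(r : ℝ)| ≤ 3 ^ (μ + 1) := by exact_mod_cast hr
    refine this.trans ?_
    exact pow_le_pow_left₀ (by norm_num) (by norm_num) _)
  refine h1.trans ?_
  have hi2 : (i : ℝ) ≤ 1 := by exact_mod_cast hi
  have hi0 : (0 : ℝ) ≤ i := by positivity
  have h2 : √ (1 + (i : ℝ) ^ 2 + ((μ + 1 : ℕ) : ℝ)) ≤ √ ((μ : ℝ) + 4) := by
    apply Real.sqrt_le_sqrt
    push_cast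
    nlinarith
  have hl : 0 ≤ Real.log ((b : ℝ) + 1) := Real.log_nonneg (by linarith)
  have h3 : √ ((μ : ℝ) + 4) * rho b ≤ 1 / (2 * C) := by
    unfold rho
    rw [← Real.sqrt_mul (by positivity)]
    rw [Real.sqrt_le_left (by positivity)]
    rw [div_pow, one_pow, mul_div_assoc', div_le_div_iff₀ hbr (by positivity)]
    linarith
  calc C * √ (1 + (i : ℝ) ^ 2 + ((μ + 1 : ℕ) : ℝ)) * rho b ≤ C * √ ((μ : ℝ) + 4) * rho b := by
        have := Pool.Agent.H499R2.CO.rho_nonneg b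
        gcongr
    _ = C * (√ ((μ : ℝ) + 4) * rho b) := by ring
    _ ≤ C * (1 / (2 * C)) := by gcongr
    _ = 1 / 2 := by field_simp

end Pool.Agent.H620.Inf
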