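import Pool.Agent.H620.Inf.Scale
import Pool.Agent.H620.Bdry.Meas

/-! From the structure at two scales to the self-similarity of an invariant set. -/

set_option autoImplicit false

namespace Pool.Agent.H620.Inf

open Finset MeasureTheory
open Pool.Agent.H620.Bdry (Dset W vol_floor)

theorem zsum {Q : ℤ → Prop} {μ N₂ : ℕ} {Y : ℕ → Prop} {r : ℕ} (hr : r < 3 ^ μ) {ε₂ : ℝ}
    (S2 : ∑ q ∈ range N₂, ind (¬ (Q (3 ^ μ * (q : ℤ) + r) ↔ Y q)) ≤ N₂ * ε₂)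
    {N' J' k' : ℕ} {Y' : ℕ → Prop} {ε' : ℝ}
    (S1 : ∑ z ∈ range (2 ^ k'), ind (¬ (Q (z : ℤ) ↔ Y' (N' * z / 2 ^ J'))) ≤ 2 ^ k' * ε')
    (S1' : ∑ z ∈ range (2 ^ k'), ind ((3 : ℤ) ^ μ ∣ (z : ℤ) - r ∧ ¬ (Q (z : ℤ) ↔ Y' (N' * z / 2 ^ J'))) ≤
      2 ^ k' / 3 ^ μ * ε') (hk : 3 ^ μ * N₂ ≤ 2 ^ k') :
    ∑ z ∈ range (3 ^ μ * N₂), ind (¬ (Q (z : ℤ) ↔ Y (z / 3 ^ μ))) ≤
      2 * (2 ^ k' * ε') + 3 ^ μ * (N' * (3 ^ μ * N₂) / 2 ^ J') + 3 ^ μ * (N₂ * ε₂) := by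
  set a : ℕ → ℝ := fun z => ind (¬ (Q (z : ℤ) ↔ Y' (N' * z / 2 ^ J'))) with ha
  set φ : ℕ → ℕ := fun z => N' * z / 2 ^ J' with hφ
  have hmono : ∀ {x y : ℕ}, x ≤ y → φ x ≤ φ y := by
    intro x y hxy
    exact Nat.div_le_div_right (Nat.mul_le_mul_left _ hxy)
  have h3 : (0 : ℝ) < 3 ^ μ := by positivity
  rw [sum_split]
  have hpt : ∀ q ∈ range N₂, ∀ s ∈ range (3 ^ μ),
      ind (¬ (Q ((3 ^ μ * q + s : ℕ) : ℤ) ↔ Y ((3 ^ μ * q + s) / 3 ^ μ))) ≤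
      a (3 ^ μ * q + s) + ((φ (3 ^ μ * (q + 1)) : ℝ) - φ (3 ^ μ * q)) + a (3 ^ μ * q + r) +
        ind (¬ (Q (3 ^ μ * (q : ℤ) + r) ↔ Y q)) := by
    intro q _ s hs
    rw [mem_range] at hs
    have e1 : (3 ^ μ * q + s) / 3 ^ μ = q := by
      rw [Nat.mul_add_div (by positivity), Nat.div_eq_of_lt hs, add_zero]
    rw [e1]
    have h1 := ind_tri (Q ((3 ^ μ * q + s : ℕ) : ℤ)) (Y' (φ (3 ^ μ * q + s))) (Y q)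
    have h2 := ind_tri (Y' (φ (3 ^ μ * q + s))) (Y' (φ (3 ^ μ * q + r))) (Y q)
    have h3 := ind_tri (Y' (φ (3 ^ μ * q + r))) (Q ((3 ^ μ * q + r : ℕ) : ℤ)) (Y q)
    have h4 : ind (¬ (Y' (φ (3 ^ μ * q + s)) ↔ Y' (φ (3 ^ μ * q + r)))) ≤
        (φ (3 ^ μ * (q + 1)) : ℝ) - φ (3 ^ μ * q) := by
      have m1 : φ (3 ^ μ * q) ≤ φ (3 ^ μ * q + s) := hmono (by omega)
      have m2 : φ (3 ^ μ * q) ≤ φ (3 ^ μ * q + r) := hmono (by omega)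
      have m3 : φ (3 ^ μ * q + s) ≤ φ (3 ^ μ * (q + 1)) := hmono (by rw [mul_add, mul_one]; omega)
      have m4 : φ (3 ^ μ * q + r) ≤ φ (3 ^ μ * (q + 1)) := hmono (by rw [mul_add, mul_one]; omega)
      by_cases he : φ (3 ^ μ * q + s) = φ (3 ^ μ * q + r)
      · rw [he, ind_false (not_not.2 Iff.rfl)]
        have : (φ (3 ^ μ * q) : ℝ) ≤ φ (3 ^ μ * (q + 1)) := by exact_mod_cast m1.trans m3
        linarith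
      · have h5 : φ (3 ^ μ * q) + 1 ≤ φ (3 ^ μ * (q + 1)) := by omega
        have h6 : (φ (3 ^ μ * q) : ℝ) + 1 ≤ φ (3 ^ μ * (q + 1)) := by exact_mod_cast h5
        have := ind_le_one (¬ (Y' (φ (3 ^ μ * q + s)) ↔ Y' (φ (3 ^ μ * q + r))))
        linarith
    have e2 : ((3 ^ μ * q + r : ℕ) : ℤ) = 3 ^ μ * (q : ℤ) + r := by push_cast; ring
    have e3 : a (3 ^ μ * q + r) = ind (¬ (Y' (φ (3 ^ μ * q + r)) ↔ Q ((3 ^ μ * q + r : ℕ) : ℤ))) := by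
      simp only [ha]
      rw [ind_comm]
    rw [e3, ← e2]
    simp only [ha]
    linarith
  refine (sum_le_sum fun q hq => sum_le_sum fun s hs => hpt q hq s hs).trans ?_
  simp_rw [sum_add_distrib, sum_const, card_range, nsmul_eq_mul]
  rw [← mul_sum, ← mul_sum, ← mul_sum]
  push_cast
  have hsubr : range (3 ^ μ * N₂) ⊆ range (2 ^ k') := range_subset_range.2 hk
  -- first
  have t1 : ∑ q ∈ range N₂, ∑ s ∈ range (3 ^ μ), a (3 ^ μ * q + s) ≤ 2 ^ k' * ε' := by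
    rw [← sum_split]
    exact (sum_le_sum_of_subset_of_nonneg hsubr fun _ _ _ => ind_nonneg _).trans S1
  have t2 : ∑ q ∈ range N₂, ((φ (3 ^ μ * (q + 1)) : ℝ) - φ (3 ^ μ * q)) ≤ N' * (3 ^ μ * N₂) / 2 ^ J' := by
    have := sum_range_sub (fun q => (φ (3 ^ μ * q) : ℝ)) N₂
    rw [this]
    have h5 : (φ (3 ^ μ * N₂) : ℝ) ≤ N' * (3 ^ μ * N₂) / 2 ^ J' := by
      have := (Nat.cast_div_le : ((N' * (3 ^ μ * N₂) / 2 ^ J' : ℕ) : ℝ) ≤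
        ((N' * (3 ^ μ * N₂) : ℕ) : ℝ) / ((2 ^ J' : ℕ) : ℝ))
      push_cast at this
      exact this
    have h6 : (0 : ℝ) ≤ φ (3 ^ μ * 0) := Nat.cast_nonneg _
    linarith
  have t3 : 3 ^ μ * ∑ q ∈ range N₂, a (3 ^ μ * q + r) ≤ 2 ^ k' * ε' := by
    have h5 : ∑ q ∈ range N₂, a (3 ^ μ * q + r) ≤ 2 ^ k' / 3 ^ μ * ε' := by
      refine le_trans ?_ S1'
      refine le_trans ?_ (sum_le_sum_of_subset_of_nonneg hsubr fun _ _ _ => ind_nonneg _)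
      rw [sum_split]
      apply sum_le_sum
      intro q _
      refine le_trans ?_ (single_le_sum (f := fun s => ind ((3 : ℤ) ^ μ ∣ ((3 ^ μ * q + s : ℕ) : ℤ) - r ∧
        ¬ (Q ((3 ^ μ * q + s : ℕ) : ℤ) ↔ Y' (N' * (3 ^ μ * q + s) / 2 ^ J')))) (fun _ _ => ind_nonneg _)
        (mem_range.2 hr))
      apply ind_mono
      intro h
      refine ⟨⟨q, ?_⟩, h⟩
      push_cast
      ring
    calc 3 ^ μ * ∑ q ∈ range N₂, a (3 ^ μ * q + r) ≤ 3 ^ μ * (2 ^ k' / 3 ^ μ * ε') := by gcongr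
      _ = 2 ^ k' * ε' := by field_simp
  have t4 : 3 ^ μ * ∑ q ∈ range N₂, ind (¬ (Q (3 ^ μ * (q : ℤ) + r) ↔ Y q)) ≤ 3 ^ μ * (N₂ * ε₂) := by gcongr
  have t2' : 3 ^ μ * ∑ q ∈ range N₂, ((φ (3 ^ μ * (q + 1)) : ℝ) - φ (3 ^ μ * q)) ≤
      3 ^ μ * (N' * (3 ^ μ * N₂) / 2 ^ J') := by gcongr
  linarith

/-- The measure of the reals whose integral part is exceptional. -/
theorem vol_ind (B : ℕ → Prop) (N : ℕ) {S : Set ℝ} (hS : ∀ y ∈ S, 0 ≤ y ∧ ⌊y⌋₊ < N ∧ B ⌊y⌋₊) :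
    volume S ≤ ENNReal.ofReal (∑ n ∈ range N, ind (B n)) := by
  classical
  have h1 : S ⊆ {y : ℝ | 0 ≤ y ∧ ⌊y⌋₊ ∈ (range N).filter B} := by
    intro y hy
    obtain ⟨h1, h2, h3⟩ := hS y hy
    exact ⟨h1, mem_filter.2 ⟨mem_range.2 h2, h3⟩⟩
  refine (measure_mono h1).trans ((vol_floor _ 0).trans ?_)
  rw [card_eq_ind]

theorem vol_scaled (B : ℕ → Prop) (N : ℕ) {κ : ℝ} (hκ : 0 < κ) {S : Set ℝ}
    (hS : ∀ y ∈ S, 0 ≤ κ * y ∧ ⌊κ * y⌋₊ < N ∧ B ⌊κ * y⌋₊) :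
    volume S ≤ ENNReal.ofReal (κ⁻¹ * ∑ n ∈ range N, ind (B n)) := by
  have h1 : S ⊆ (fun y => κ * y) ⁻¹' {y : ℝ | 0 ≤ y ∧ ⌊y⌋₊ < N ∧ B ⌊y⌋₊} := fun y hy => hS y hy
  refine (measure_mono h1).trans ?_
  rw [Real.volume_preimage_mul_left hκ.ne', abs_of_pos (by positivity),
    ENNReal.ofReal_mul (by positivity)]
  gcongr
  exact vol_ind B N fun y hy => hy

theorem combine {Q : ℤ → Prop} {J w μ o₀ : ℕ} (hμ : μ ≤ o₀) {Y : ℕ → Prop} {r : ℕ} (hr : r < 3 ^ μ) {ε₁ ε₂ : ℝ}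
    (S1 : ∑ n ∈ range (2 ^ (J + w)), ind (¬ (Q (n : ℤ) ↔ Y (3 ^ (o₀ - μ) * n / 2 ^ J))) ≤ 2 ^ (J + w) * ε₁)
    (S2 : ∑ q ∈ range (3 ^ (o₀ - μ) * 2 ^ w), ind (¬ (Q (3 ^ μ * (q : ℤ) + r) ↔ Y q)) ≤
      3 ^ (o₀ - μ) * 2 ^ w * ε₂)
    {N' J' k' : ℕ} {Y' : ℕ → Prop} {ε' : ℝ} (hε' : 0 ≤ ε')
    (S1' : ∑ z ∈ range (2 ^ k'), ind (¬ (Q (z : ℤ) ↔ Y' (N' * z / 2 ^ J'))) ≤ 2 ^ k' * ε')
    (S1'' : ∑ z ∈ range (2 ^ k'), ind ((3 : ℤ) ^ μ ∣ (z : ℤ) - r ∧ ¬ (Q (z : ℤ) ↔ Y' (N' * z / 2 ^ J'))) ≤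
      2 ^ k' / 3 ^ μ * ε') (hk : 3 ^ o₀ * 2 ^ w ≤ 2 ^ k') (hk2 : 2 ^ k' ≤ 2 * (3 ^ o₀ * 2 ^ w))
    {x : ℝ} (hx : 0 < x) (hx2 : 2 * x < 2 ^ (J + w)) (hx4 : 2 ^ (J + w) ≤ 4 * x)
    (hpos : 0 ≤ ε₁ + 3 ^ (o₀ - μ) / 2 ^ J + 4 * ε' + 3 ^ μ * N' / 2 ^ J' + ε₂) :
    volume (Dset (fun n : ℕ => Q (n : ℤ)) x (3 ^ o₀ / 2 ^ J)) ≤
      ENNReal.ofReal (4 * (ε₁ + 3 ^ (o₀ - μ) / 2 ^ J + 4 * ε' + 3 ^ μ * N' / 2 ^ J' + ε₂) * x) := by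
  set N₁ := 3 ^ (o₀ - μ) with hN₁
  have hN₁r : ((N₁ : ℕ) : ℝ) = 3 ^ (o₀ - μ) := by rw [hN₁]; push_cast; rfl
  set κ : ℝ := 3 ^ o₀ / 2 ^ J with hκd
  have hκ : 0 < κ := by positivity
  have h3o : (3 : ℝ) ^ o₀ = 3 ^ μ * N₁ := by rw [hN₁r, ← pow_add]; congr 1; omega
  have hN₁0 : (N₁ : ℝ) ≠ 0 := by rw [hN₁r]; positivity
  have h3on : (3 : ℕ) ^ o₀ = 3 ^ μ * N₁ := by rw [hN₁, ← pow_add]; congr 1; omega
  have h2k : (2 : ℝ) ^ (J + w) = 2 ^ J * 2 ^ w := pow_add _ _ _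
  have e0 : 3 ^ μ * (N₁ * 2 ^ w) = 3 ^ o₀ * 2 ^ w := by rw [h3on]; ring
  have hz := zsum (Q := Q) (N₂ := N₁ * 2 ^ w) (Y := Y) hr (ε₂ := ε₂) (by push_cast; rw [hN₁r]; exact S2)
    S1' S1'' (by rw [e0]; exact hk)
  set A1 : Set ℝ := {y | x ≤ y ∧ y ≤ 2 * x ∧ ¬ (Q ((⌊y⌋₊ : ℕ) : ℤ) ↔ Y (N₁ * ⌊y⌋₊ / 2 ^ J))} with hA1
  set A2 : Set ℝ := {y | x ≤ y ∧ y ≤ 2 * x ∧ ¬ (N₁ * ⌊y⌋₊ / 2 ^ J = N₁ * (⌊y⌋₊ + 1) / 2 ^ J)} with hA2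
  set A3 : Set ℝ := {y | x ≤ y ∧ y ≤ 2 * x ∧ ¬ (Q ((⌊κ * y⌋₊ : ℕ) : ℤ) ↔ Y (⌊κ * y⌋₊ / 3 ^ μ))} with hA3
  have hsub : Dset (fun n : ℕ => Q (n : ℤ)) x κ ⊆ A1 ∪ A2 ∪ A3 := by
    rintro y ⟨h1, h2, h3⟩
    by_contra hcon
    rw [Set.mem_union, Set.mem_union, not_or, not_or] at hcon
    obtain ⟨⟨c1, c2⟩, c3⟩ := hcon
    have d1 : Q ((⌊y⌋₊ : ℕ) : ℤ) ↔ Y (N₁ * ⌊y⌋₊ / 2 ^ J) := by
      by_contra h; exact c1 ⟨h1, h2, h⟩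
    have d2 : N₁ * ⌊y⌋₊ / 2 ^ J = N₁ * (⌊y⌋₊ + 1) / 2 ^ J := by
      by_contra h; exact c2 ⟨h1, h2, h⟩
    have d3 : Q ((⌊κ * y⌋₊ : ℕ) : ℤ) ↔ Y (⌊κ * y⌋₊ / 3 ^ μ) := by
      by_contra h; exact c3 ⟨h1, h2, h⟩
    have hy0 : 0 ≤ y := by linarith
    have e1 : ⌊κ * y⌋₊ / 3 ^ μ = N₁ * ⌊y⌋₊ / 2 ^ J := by
      have e2 : ⌊κ * y⌋₊ / 3 ^ μ = ⌊κ * y / ((3 ^ μ : ℕ) : ℝ)⌋₊ := (Nat.floor_div_natCast _ _).symm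
      rw [e2]
      set m := N₁ * ⌊y⌋₊ / 2 ^ J with hm
      have h2J : (0 : ℝ) < 2 ^ J := by positivity
      have e3 : κ * y / ((3 ^ μ : ℕ) : ℝ) = N₁ * y / 2 ^ J := by
        rw [hκd, h3o]; push_cast; field_simp
      rw [e3]
      have f1 : (⌊y⌋₊ : ℝ) ≤ y := Nat.floor_le hy0
      have f2 : y < ⌊y⌋₊ + 1 := Nat.lt_floor_add_one y
      have f3 : m * 2 ^ J ≤ N₁ * ⌊y⌋₊ := Nat.div_mul_le_self _ _
      have f4 : N₁ * (⌊y⌋₊ + 1) < m * 2 ^ J + 2 ^ J := by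
        rw [d2]
        exact Nat.lt_div_mul_add (by positivity)
      have f3r : (m : ℝ) * 2 ^ J ≤ N₁ * ⌊y⌋₊ := by exact_mod_cast f3
      have f4r : (N₁ : ℝ) * (⌊y⌋₊ + 1) < m * 2 ^ J + 2 ^ J := by exact_mod_cast f4
      rw [Nat.floor_eq_iff (by positivity)]
      have hN0 : (0 : ℝ) ≤ N₁ := Nat.cast_nonneg _
      constructor
      · rw [le_div_iff₀ h2J]
        nlinarith
      · rw [div_lt_iff₀ h2J]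
        nlinarith
    apply h3
    show Q ((⌊y⌋₊ : ℕ) : ℤ) ↔ Q ((⌊κ * y⌋₊ : ℕ) : ℤ)
    rw [d1, d3, e1]
  have hlt : ∀ y : ℝ, x ≤ y → y ≤ 2 * x → ⌊y⌋₊ < 2 ^ (J + w) := by
    intro y h1 h2
    rw [Nat.floor_lt (by linarith)]
    push_cast
    linarith
  have v1 : volume A1 ≤ ENNReal.ofReal (2 ^ (J + w) * ε₁) := by
    refine (vol_ind (fun n => ¬ (Q (n : ℤ) ↔ Y (N₁ * n / 2 ^ J))) (2 ^ (J + w)) ?_).trans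
      (ENNReal.ofReal_le_ofReal S1)
    rintro y ⟨h1, h2, h3⟩
    exact ⟨by linarith, hlt y h1 h2, h3⟩
  have v2 : volume A2 ≤ ENNReal.ofReal (N₁ * 2 ^ w) := by
    refine (vol_ind (fun n => ¬ (N₁ * n / 2 ^ J = N₁ * (n + 1) / 2 ^ J)) (2 ^ (J + w)) ?_).trans
      (ENNReal.ofReal_le_ofReal ?_)
    · rintro y ⟨h1, h2, h3⟩
      exact ⟨by linarith, hlt y h1 h2, h3⟩
    · have h1 : ∀ n ∈ range (2 ^ (J + w)), ind (¬ (N₁ * n / 2 ^ J = N₁ * (n + 1) / 2 ^ J)) ≤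
          ((N₁ * (n + 1) / 2 ^ J : ℕ) : ℝ) - ((N₁ * n / 2 ^ J : ℕ) : ℝ) := by
        intro n _
        have h2 : N₁ * n / 2 ^ J ≤ N₁ * (n + 1) / 2 ^ J := Nat.div_le_div_right (Nat.mul_le_mul_left _ (by omega))
        by_cases h : N₁ * n / 2 ^ J = N₁ * (n + 1) / 2 ^ J
        · rw [ind_false (not_not.2 h), ← h, sub_self]
        · rw [ind_true h]
          have h3 : N₁ * n / 2 ^ J + 1 ≤ N₁ * (n + 1) / 2 ^ J := by omega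
          have h4 : ((N₁ * n / 2 ^ J : ℕ) : ℝ) + 1 ≤ ((N₁ * (n + 1) / 2 ^ J : ℕ) : ℝ) := by exact_mod_cast h3
          linarith
      refine (sum_le_sum h1).trans ?_
      have := sum_range_sub (fun n => ((N₁ * n / 2 ^ J : ℕ) : ℝ)) (2 ^ (J + w))
      rw [this]
      have h5 : ((N₁ * 2 ^ (J + w) / 2 ^ J : ℕ) : ℝ) ≤ N₁ * 2 ^ w := by
        have e5 : N₁ * 2 ^ (J + w) / 2 ^ J = N₁ * 2 ^ w := by
          rw [pow_add]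
          have : N₁ * (2 ^ J * 2 ^ w) = 2 ^ J * (N₁ * 2 ^ w) := by ring
          rw [this]
          exact Nat.mul_div_cancel_left _ (by positivity)
        rw [e5]
        push_cast
        exact le_rfl
      have h6 : (0 : ℝ) ≤ ((N₁ * 0 / 2 ^ J : ℕ) : ℝ) := Nat.cast_nonneg _
      linarith
  have v3 : volume A3 ≤ ENNReal.ofReal (κ⁻¹ * (2 * (2 ^ k' * ε') +
      3 ^ μ * (N' * (3 ^ μ * (N₁ * 2 ^ w : ℕ)) / 2 ^ J') + 3 ^ μ * ((N₁ * 2 ^ w : ℕ) * ε₂))) := by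
    refine (vol_scaled (fun z => ¬ (Q (z : ℤ) ↔ Y (z / 3 ^ μ))) (3 ^ μ * (N₁ * 2 ^ w)) hκ ?_).trans
      (ENNReal.ofReal_le_ofReal (mul_le_mul_of_nonneg_left hz (by positivity)))
    rintro y ⟨h1, h2, h3⟩
    have hy0 : 0 ≤ κ * y := by
      have : 0 ≤ y := by linarith
      positivity
    refine ⟨hy0, ?_, h3⟩
    rw [Nat.floor_lt hy0]
    have h4 : κ * y < κ * 2 ^ (J + w) := mul_lt_mul_of_pos_left (by linarith) hκ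
    refine h4.trans_le (le_of_eq ?_)
    rw [hκd, h3o, h2k]
    push_cast
    field_simp
  have hκi : κ⁻¹ * (3 ^ μ * (N₁ * 2 ^ w)) = 2 ^ (J + w) := by
    rw [hκd, h3o, h2k]
    field_simp
  have hk2r : (2 : ℝ) ^ k' ≤ 2 * (3 ^ μ * (N₁ * 2 ^ w)) := by
    have : ((2 ^ k' : ℕ) : ℝ) ≤ ((2 * (3 ^ o₀ * 2 ^ w) : ℕ) : ℝ) := by exact_mod_cast hk2
    push_cast at this
    rw [h3o] at this
    linarith
  have hb : κ⁻¹ * (2 * (2 ^ k' * ε') + 3 ^ μ * (N' * (3 ^ μ * (N₁ * 2 ^ w : ℕ)) / 2 ^ J') +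
      3 ^ μ * ((N₁ * 2 ^ w : ℕ) * ε₂)) ≤ 2 ^ (J + w) * (4 * ε' + 3 ^ μ * N' / 2 ^ J' + ε₂) := by
    have h1 : κ⁻¹ * 2 ^ k' ≤ 2 * 2 ^ (J + w) := by
      calc κ⁻¹ * 2 ^ k' ≤ κ⁻¹ * (2 * (3 ^ μ * (N₁ * 2 ^ w))) := by gcongr
        _ = 2 * (κ⁻¹ * (3 ^ μ * (N₁ * 2 ^ w))) := by ring
        _ = _ := by rw [hκi]
    have h2 : κ⁻¹ * (3 ^ μ * (N' * (3 ^ μ * (N₁ * 2 ^ w : ℕ)) / 2 ^ J')) = 2 ^ (J + w) * (3 ^ μ * N' / 2 ^ J') := by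
      rw [← hκi]; push_cast; ring
    have h3 : κ⁻¹ * (3 ^ μ * ((N₁ * 2 ^ w : ℕ) * ε₂)) = 2 ^ (J + w) * ε₂ := by
      rw [← hκi]; push_cast; ring
    have h4 : κ⁻¹ * (2 * (2 ^ k' * ε')) ≤ 2 ^ (J + w) * (4 * ε') := by
      calc κ⁻¹ * (2 * (2 ^ k' * ε')) = (κ⁻¹ * 2 ^ k') * (2 * ε') := by ring
        _ ≤ (2 * 2 ^ (J + w)) * (2 * ε') := by gcongr
        _ = _ := by ring
    rw [mul_add, mul_add, h2, h3]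
    linarith
  have e9 : (N₁ : ℝ) * 2 ^ w = 2 ^ (J + w) * (3 ^ (o₀ - μ) / 2 ^ J) := by
    rw [hN₁r, h2k]; field_simp
  calc volume (Dset (fun n : ℕ => Q (n : ℤ)) x κ) ≤ volume (A1 ∪ A2 ∪ A3) := measure_mono hsub
    _ ≤ volume A1 + volume A2 + volume A3 := (measure_union_le _ _).trans (add_le_add_left (measure_union_le _ _) _)
    _ ≤ ENNReal.ofReal (2 ^ (J + w) * ε₁) + ENNReal.ofReal (N₁ * 2 ^ w) +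
        ENNReal.ofReal (2 ^ (J + w) * (4 * ε' + 3 ^ μ * N' / 2 ^ J' + ε₂)) := by
        gcongr
        exact v3.trans (ENNReal.ofReal_le_ofReal hb)
    _ = ENNReal.ofReal (2 ^ (J + w) * (ε₁ + 3 ^ (o₀ - μ) / 2 ^ J + 4 * ε' + 3 ^ μ * N' / 2 ^ J' + ε₂)) := by
        have hs1 : 0 ≤ 2 ^ (J + w) * ε₁ := le_trans (sum_nonneg fun _ _ => ind_nonneg _) S1
        have hs2 : 0 ≤ (2 : ℝ) ^ (J + w) * (4 * ε' + 3 ^ μ * N' / 2 ^ J' + ε₂) := by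
          have : 0 ≤ 3 ^ (o₀ - μ) * 2 ^ w * ε₂ := le_trans (sum_nonneg fun _ _ => ind_nonneg _) S2
          have h5 : 0 ≤ ε₂ := by
            by_contra h
            rw [not_le] at h
            have := mul_neg_of_pos_of_neg (show (0 : ℝ) < 3 ^ (o₀ - μ) * 2 ^ w by positivity) h
            linarith
          positivity
        rw [← ENNReal.ofReal_add hs1 (by positivity), ← ENNReal.ofReal_add (by positivity) hs2]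
        congr 1
        rw [e9]
        ring
    _ ≤ _ := by
        apply ENNReal.ofReal_le_ofReal
        calc _ ≤ 4 * x * (ε₁ + 3 ^ (o₀ - μ) / 2 ^ J + 4 * ε' + 3 ^ μ * N' / 2 ^ J' + ε₂) :=
              mul_le_mul_of_nonneg_right hx4 hpos
          _ = _ := by ring

end Pool.Agent.H620.Inf
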