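import Mathlib

/-! Flipping bits: changing a whole block of bits costs at most the sum of the influences. -/

set_option autoImplicit false

namespace Pool.Agent.H620.Inf

open Finset

open Classical in
/-- `1` if the truth values are different -/
noncomputable def ne' (p q : Prop) : ℝ := if (p ↔ q) then 0 else 1

theorem ne'_nonneg (p q : Prop) : 0 ≤ ne' p q := by unfold ne'; split_ifs <;> norm_num

theorem ne'_le_one (p q : Prop) : ne' p q ≤ 1 := by unfold ne'; split_ifs <;> norm_num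

theorem ne'_comm (p q : Prop) : ne' p q = ne' q p := by
  unfold ne'
  by_cases h : p ↔ q
  · rw [if_pos h, if_pos h.symm]
  · rw [if_neg h, if_neg (fun h' => h h'.symm)]

theorem ne'_tri (p q r : Prop) : ne' p r ≤ ne' p q + ne' q r := by
  unfold ne'
  by_cases h1 : p ↔ q
  · by_cases h2 : q ↔ r
    · rw [if_pos h1, if_pos h2, if_pos (h1.trans h2)]; norm_num
    · rw [if_pos h1, if_neg h2]; split_ifs <;> norm_num
  · rw [if_neg h1]; split_ifs <;> norm_num

theorem ne'_congr {p q p' q' : Prop} (h : p ↔ p') (h' : q ↔ q') : ne' p q = ne' p' q' := by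
  rw [propext h, propext h']

theorem xor_high {J : ℕ} {L : ℕ} (hL : L < 2 ^ J) (a i : ℕ) :
    (2 ^ J * a + L) ^^^ 2 ^ (J + i) = 2 ^ J * (a ^^^ 2 ^ i) + L := by
  apply Nat.eq_of_testBit_eq
  intro j
  rw [Nat.testBit_xor, Nat.testBit_two_pow_mul_add _ hL, Nat.testBit_two_pow_mul_add _ hL, Nat.testBit_two_pow,
    Nat.testBit_xor, Nat.testBit_two_pow]
  by_cases h : j < J
  · rw [if_pos h, if_pos h]
    have : ¬ (J + i = j) := by omega
    simp [this]
  · rw [if_neg h, if_neg h]
    have : (J + i = j) ↔ (i = j - J) := by omega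
    simp [this]

theorem xor_low {J : ℕ} {L i : ℕ} (hL : L < 2 ^ J) (hi : i < J) (a : ℕ) :
    (2 ^ J * a + L) ^^^ 2 ^ i = 2 ^ J * a + (L ^^^ 2 ^ i) := by
  have h2 : L ^^^ 2 ^ i < 2 ^ J := Nat.xor_lt_two_pow hL (Nat.pow_lt_pow_right (by norm_num) hi)
  apply Nat.eq_of_testBit_eq
  intro j
  rw [Nat.testBit_xor, Nat.testBit_two_pow_mul_add _ hL, Nat.testBit_two_pow_mul_add _ h2, Nat.testBit_two_pow,
    Nat.testBit_xor, Nat.testBit_two_pow]
  by_cases h : j < J
  · rw [if_pos h, if_pos h]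
  · rw [if_neg h, if_neg h]
    have : ¬ (i = j) := by omega
    simp [this]

theorem xor_lt {b i M : ℕ} (hM : M < 2 ^ b) (hi : i < b) : M ^^^ 2 ^ i < 2 ^ b :=
  Nat.xor_lt_two_pow hM (Nat.pow_lt_pow_right (by norm_num) hi)

/-- the number of the `M < 2 ^ b` at which the bit `i` matters -/
noncomputable def In (g : ℕ → Prop) (b i : ℕ) : ℝ := ∑ M ∈ range (2 ^ b), ne' (g M) (g (M ^^^ 2 ^ i))

theorem In_nonneg (g : ℕ → Prop) (b i : ℕ) : 0 ≤ In g b i := sum_nonneg fun _ _ => ne'_nonneg _ _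

/-- the number of the pairs with different values -/
noncomputable def Dd (g : ℕ → Prop) (b : ℕ) : ℝ := ∑ M ∈ range (2 ^ b), ∑ M' ∈ range (2 ^ b), ne' (g M) (g M')

theorem In_low (g : ℕ → Prop) {b i : ℕ} (hi : i < b) :
    In g (b + 1) i = In g b i + In (fun M => g (2 ^ b + M)) b i := by
  unfold In
  have e : 2 ^ (b + 1) = 2 ^ b + 2 ^ b := by ring
  rw [e, sum_range_add]
  congr 1
  apply sum_congr rfl
  intro M hM
  rw [mem_range] at hM
  have h := xor_low hM hi 1
  rw [mul_one] at h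
  rw [h]

theorem In_top (g : ℕ → Prop) (b : ℕ) :
    In g (b + 1) b = 2 * ∑ M ∈ range (2 ^ b), ne' (g M) (g (2 ^ b + M)) := by
  unfold In
  have e : 2 ^ (b + 1) = 2 ^ b + 2 ^ b := by ring
  rw [e, sum_range_add, two_mul]
  congr 1
  · apply sum_congr rfl
    intro M hM
    rw [mem_range] at hM
    have h := xor_high hM 0 0
    rw [mul_zero, zero_add, add_zero, pow_zero] at h
    rw [h]
    norm_num
  · apply sum_congr rfl
    intro M hM
    rw [mem_range] at hM
    have h := xor_high hM 1 0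
    rw [mul_one, add_zero, pow_zero] at h
    rw [h]
    have e2 : 2 ^ b * (1 ^^^ 1) + M = M := by norm_num
    rw [e2, ne'_comm]

theorem Dd_le (b : ℕ) : ∀ g : ℕ → Prop, Dd g b ≤ 2 ^ b * ∑ i ∈ range b, In g b i := by
  induction b with
  | zero =>
    intro g
    unfold Dd
    simp [ne']
  | succ b ih =>
    intro g
    set g' : ℕ → Prop := fun M => g (2 ^ b + M) with hg'
    have h0 := ih g
    have h1 := ih g'
    have e : 2 ^ (b + 1) = 2 ^ b + 2 ^ b := by ring
    have hD : Dd g (b + 1) = Dd g b + ∑ M ∈ range (2 ^ b), ∑ M' ∈ range (2 ^ b), ne' (g M) (g' M') +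
        (∑ M ∈ range (2 ^ b), ∑ M' ∈ range (2 ^ b), ne' (g' M) (g M') + Dd g' b) := by
      unfold Dd
      rw [e, sum_range_add]
      simp_rw [sum_range_add]
      rw [sum_add_distrib, sum_add_distrib]
    set X := ∑ M ∈ range (2 ^ b), ne' (g M) (g' M) with hX
    have hX0 : 0 ≤ X := sum_nonneg fun _ _ => ne'_nonneg _ _
    have hc : ((2 ^ b : ℕ) : ℝ) = 2 ^ b := by push_cast; rfl
    have hA : ∑ M ∈ range (2 ^ b), ∑ M' ∈ range (2 ^ b), ne' (g M) (g' M') ≤ Dd g b + 2 ^ b * X := by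
      calc ∑ M ∈ range (2 ^ b), ∑ M' ∈ range (2 ^ b), ne' (g M) (g' M')
          ≤ ∑ M ∈ range (2 ^ b), ∑ M' ∈ range (2 ^ b), (ne' (g M) (g M') + ne' (g M') (g' M')) :=
            sum_le_sum fun M _ => sum_le_sum fun M' _ => ne'_tri _ _ _
        _ = Dd g b + 2 ^ b * X := by
            unfold Dd
            simp_rw [sum_add_distrib]
            rw [sum_const, card_range, nsmul_eq_mul, hc]
    have hB : ∑ M ∈ range (2 ^ b), ∑ M' ∈ range (2 ^ b), ne' (g' M) (g M') ≤ Dd g' b + 2 ^ b * X := by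
      calc ∑ M ∈ range (2 ^ b), ∑ M' ∈ range (2 ^ b), ne' (g' M) (g M')
          ≤ ∑ M ∈ range (2 ^ b), ∑ M' ∈ range (2 ^ b), (ne' (g' M) (g' M') + ne' (g M') (g' M')) :=
            sum_le_sum fun M _ => sum_le_sum fun M' _ => by
              rw [ne'_comm (g M') (g' M')]; exact ne'_tri _ _ _
        _ = Dd g' b + 2 ^ b * X := by
            unfold Dd
            simp_rw [sum_add_distrib]
            rw [sum_const, card_range, nsmul_eq_mul, hc]
    have hI : ∑ i ∈ range (b + 1), In g (b + 1) i =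
        ∑ i ∈ range b, In g b i + ∑ i ∈ range b, In g' b i + 2 * X := by
      rw [sum_range_succ, In_top, ← sum_add_distrib]
      congr 1
      apply sum_congr rfl
      intro i hi
      rw [mem_range] at hi
      exact In_low g hi
    rw [hD, hI, pow_succ]
    have hp : (0 : ℝ) < 2 ^ b := by positivity
    have hpX : 0 ≤ (2 : ℝ) ^ b * X := by positivity
    nlinarith

end Pool.Agent.H620.Inf
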