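import Pool.Agent.H620.Inf.Flip

/-! The minority in the parts of a partition, and the influences of a window of bits. -/

set_option autoImplicit false

namespace Pool.Agent.H620.Inf

open Finset

/-- the majority value of `P` on a finite set -/
noncomputable def maj (s : Finset ℕ) (P : ℕ → Prop) : Prop :=
  ∑ L ∈ s, ne' (P L) True ≤ ∑ L ∈ s, ne' (P L) False

theorem min_le (s : Finset ℕ) (P : ℕ → Prop) :
    ∑ L ∈ s, ne' (P L) (maj s P) ≤ (1 / (s.card : ℝ)) * ∑ L ∈ s, ∑ L' ∈ s, ne' (P L) (P L') := by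
  classical
  rcases s.eq_empty_or_nonempty with rfl | hne
  · simp
  set A := (s.filter (fun L => P L)).card with hA
  set B := (s.filter (fun L => ¬ P L)).card with hB
  have hAB : A + B = s.card := card_filter_add_card_filter_not _
  have hs : 0 < s.card := hne.card_pos
  have h1 : ∑ L ∈ s, ne' (P L) False = A := by
    rw [hA, card_filter]
    push_cast
    apply sum_congr rfl
    intro L _
    unfold ne'
    by_cases h : P L <;> simp [h]
  have h2 : ∑ L ∈ s, ne' (P L) True = B := by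
    rw [hB, card_filter]
    push_cast
    apply sum_congr rfl
    intro L _
    unfold ne'
    by_cases h : P L <;> simp [h]
  have h3 : ∑ L ∈ s, ∑ L' ∈ s, ne' (P L) (P L') = 2 * A * B := by
    have h4 : ∀ L ∈ s, ∑ L' ∈ s, ne' (P L) (P L') = if P L then (B : ℝ) else A := by
      intro L _
      by_cases h : P L
      · rw [if_pos h, ← h2]
        apply sum_congr rfl
        intro L' _
        rw [ne'_comm]
        exact ne'_congr Iff.rfl (by simp [h])
      · rw [if_neg h, ← h1]
        apply sum_congr rfl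
        intro L' _
        rw [ne'_comm]
        exact ne'_congr Iff.rfl (by simp [h])
    rw [sum_congr rfl h4, sum_ite, sum_const, sum_const, nsmul_eq_mul, nsmul_eq_mul, ← hA, ← hB]
    ring
  have hs' : (0 : ℝ) < s.card := by exact_mod_cast hs
  have hABr : (A : ℝ) + B = s.card := by exact_mod_cast hAB
  have hA0 : (0 : ℝ) ≤ A := Nat.cast_nonneg _
  have hB0 : (0 : ℝ) ≤ B := Nat.cast_nonneg _
  rw [h3, one_div, inv_mul_eq_div, le_div_iff₀ hs', ← hABr]
  by_cases hm : maj s P
  · have e : ∑ L ∈ s, ne' (P L) (maj s P) = B := by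
      rw [← h2]
      apply sum_congr rfl
      intro L _
      exact ne'_congr Iff.rfl (by simp [hm])
    have h5 : (B : ℝ) ≤ A := by
      unfold maj at hm
      rw [h1, h2] at hm
      exact hm
    rw [e]
    nlinarith
  · have e : ∑ L ∈ s, ne' (P L) (maj s P) = A := by
      rw [← h1]
      apply sum_congr rfl
      intro L _
      exact ne'_congr Iff.rfl (by simp [hm])
    have h5 : (A : ℝ) ≤ B := by
      unfold maj at hm
      rw [h1, h2, not_le] at hm
      exact hm.le
    rw [e]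
    nlinarith

/-- sums over parts -/
theorem sum_parts {β : Type*} [DecidableEq β] (s : Finset ℕ) (pt : ℕ → β) (F : ℕ → β → ℝ) :
    ∑ L ∈ s, F L (pt L) = ∑ π ∈ s.image pt, ∑ L ∈ s.filter (fun L => pt L = π), F L π := by
  rw [← sum_fiberwise_of_maps_to (g := pt) (t := s.image pt) (fun L hL => mem_image_of_mem pt hL)]
  apply sum_congr rfl
  intro π _
  apply sum_congr rfl
  intro L hL
  rw [mem_filter] at hL
  rw [hL.2]

/-- **The minority.** `F L M`: truth value at the low part `L` and the middle part `M`. -/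
theorem minority {β : Type*} [DecidableEq β] (s : Finset ℕ) (pt : ℕ → β) (b : ℕ) (F : ℕ → ℕ → Prop)
    (hco : ∀ L ∈ s, ∀ L' ∈ s, pt L = pt L' → ∃ G ⊆ range (2 ^ b), (2 : ℝ) ^ b ≤ 2 * G.card ∧
      ∀ M ∈ G, (F L M ↔ F L' M)) :
    ∑ M ∈ range (2 ^ b), ∑ L ∈ s, ne' (F L M) (maj (s.filter (fun L' => pt L' = pt L)) (fun L' => F L' M)) ≤
      4 * ∑ L ∈ s, ∑ i ∈ range b, In (F L) b i := by
  classical
  have hp : (0 : ℝ) < 2 ^ b := by positivity
  have hc : ((2 ^ b : ℕ) : ℝ) = 2 ^ b := by push_cast; rfl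
  -- one part
  have hpart : ∀ π ∈ s.image pt, ∑ M ∈ range (2 ^ b), ∑ L ∈ s.filter (fun L => pt L = π),
      ne' (F L M) (maj (s.filter (fun L' => pt L' = π)) (fun L' => F L' M)) ≤
      4 / 2 ^ b * ∑ L ∈ s.filter (fun L => pt L = π), Dd (F L) b := by
    intro π hπ
    set t := s.filter (fun L => pt L = π) with ht
    have htne : 0 < t.card := by
      rw [mem_image] at hπ
      obtain ⟨L, hL, rfl⟩ := hπ
      exact card_pos.2 ⟨L, mem_filter.2 ⟨hL, rfl⟩⟩
    have htr : (0 : ℝ) < t.card := by exact_mod_cast htne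
    have hpair : ∀ L ∈ t, ∀ L' ∈ t, ∑ M ∈ range (2 ^ b), ne' (F L M) (F L' M) ≤
        2 / 2 ^ b * (Dd (F L) b + Dd (F L') b) := by
      intro L hL L' hL'
      rw [ht, mem_filter] at hL hL'
      obtain ⟨G, hG1, hG2, hG3⟩ := hco L hL.1 L' hL'.1 (hL.2.trans hL'.2.symm)
      have h1 : (∑ M ∈ range (2 ^ b), ne' (F L M) (F L' M)) * G.card ≤ Dd (F L) b + Dd (F L') b := by
        calc (∑ M ∈ range (2 ^ b), ne' (F L M) (F L' M)) * G.card
            = ∑ M ∈ range (2 ^ b), ∑ M' ∈ G, ne' (F L M) (F L' M) := by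
              rw [sum_mul]
              apply sum_congr rfl
              intro M _
              rw [sum_const, nsmul_eq_mul, mul_comm]
          _ ≤ ∑ M ∈ range (2 ^ b), ∑ M' ∈ G, (ne' (F L M) (F L M') + ne' (F L' M) (F L' M')) := by
              apply sum_le_sum
              intro M _
              apply sum_le_sum
              intro M' hM'
              have h2 := hG3 M' hM'
              calc ne' (F L M) (F L' M) ≤ ne' (F L M) (F L M') + ne' (F L M') (F L' M) := ne'_tri _ _ _
                _ = ne' (F L M) (F L M') + ne' (F L' M) (F L' M') := by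
                    rw [ne'_congr h2 Iff.rfl, ne'_comm (F L' M')]
          _ ≤ ∑ M ∈ range (2 ^ b), ∑ M' ∈ range (2 ^ b), (ne' (F L M) (F L M') + ne' (F L' M) (F L' M')) := by
              apply sum_le_sum
              intro M _
              apply sum_le_sum_of_subset_of_nonneg hG1
              intro M' _ _
              exact add_nonneg (ne'_nonneg _ _) (ne'_nonneg _ _)
          _ = Dd (F L) b + Dd (F L') b := by
              unfold Dd
              simp_rw [sum_add_distrib]
      have h0 : 0 ≤ ∑ M ∈ range (2 ^ b), ne' (F L M) (F L' M) := sum_nonneg fun _ _ => ne'_nonneg _ _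
      rw [div_mul_eq_mul_div, le_div_iff₀ hp]
      calc (∑ M ∈ range (2 ^ b), ne' (F L M) (F L' M)) * 2 ^ b
          ≤ (∑ M ∈ range (2 ^ b), ne' (F L M) (F L' M)) * (2 * G.card) := by gcongr
        _ = 2 * ((∑ M ∈ range (2 ^ b), ne' (F L M) (F L' M)) * G.card) := by ring
        _ ≤ _ := by gcongr
    calc ∑ M ∈ range (2 ^ b), ∑ L ∈ t, ne' (F L M) (maj t (fun L' => F L' M))
        ≤ ∑ M ∈ range (2 ^ b), (1 / (t.card : ℝ)) * ∑ L ∈ t, ∑ L' ∈ t, ne' (F L M) (F L' M) :=
          sum_le_sum fun M _ => min_le t (fun L' => F L' M)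
      _ = (1 / (t.card : ℝ)) * ∑ L ∈ t, ∑ L' ∈ t, ∑ M ∈ range (2 ^ b), ne' (F L M) (F L' M) := by
          rw [← mul_sum, sum_comm]
          congr 1
          apply sum_congr rfl
          intro L _
          rw [sum_comm]
      _ ≤ (1 / (t.card : ℝ)) * ∑ L ∈ t, ∑ L' ∈ t, 2 / 2 ^ b * (Dd (F L) b + Dd (F L') b) := by
          gcongr with L hL L' hL'
          exact hpair L hL L' hL'
      _ = 4 / 2 ^ b * ∑ L ∈ t, Dd (F L) b := by
          simp_rw [← mul_sum, sum_add_distrib, sum_const, nsmul_eq_mul]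
          rw [← mul_sum]
          field_simp
          ring
  have e1 : ∀ M, ∑ L ∈ s, ne' (F L M) (maj (s.filter (fun L' => pt L' = pt L)) (fun L' => F L' M)) =
      ∑ π ∈ s.image pt, ∑ L ∈ s.filter (fun L => pt L = π),
        ne' (F L M) (maj (s.filter (fun L' => pt L' = π)) (fun L' => F L' M)) := fun M =>
    sum_parts s pt (fun L π => ne' (F L M) (maj (s.filter (fun L' => pt L' = π)) (fun L' => F L' M)))
  simp_rw [e1]
  rw [sum_comm]
  refine (sum_le_sum hpart).trans ?_
  rw [← mul_sum, ← sum_parts s pt (fun L _ => Dd (F L) b)]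
  calc 4 / 2 ^ b * ∑ L ∈ s, Dd (F L) b ≤ 4 / 2 ^ b * ∑ L ∈ s, 2 ^ b * ∑ i ∈ range b, In (F L) b i := by
        gcongr with L hL
        exact Dd_le b (F L)
    _ = 4 * ∑ L ∈ s, ∑ i ∈ range b, In (F L) b i := by
        rw [← mul_sum]
        field_simp

/-- splitting a range -/
theorem sum_split {α : Type*} [AddCommMonoid α] (A C : ℕ) (f : ℕ → α) :
    ∑ n ∈ range (A * C), f n = ∑ q ∈ range C, ∑ r ∈ range A, f (A * q + r) := by
  induction C with
  | zero => simp
  | succ C ih => rw [mul_add, mul_one, sum_range_add, ih, sum_range_succ]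

/-- The influences in terms of the three parts. -/
theorem In_split (P : ℕ → Prop) (J b u i : ℕ) (hi : i < b) :
    In P (J + b + u) (J + i) = ∑ U ∈ range (2 ^ u), ∑ L ∈ range (2 ^ J),
      In (fun M => P (2 ^ J * (2 ^ b * U + M) + L)) b i := by
  unfold In
  have e : 2 ^ (J + b + u) = 2 ^ J * (2 ^ b * 2 ^ u) := by ring
  rw [e, sum_split, sum_split]
  apply sum_congr rfl
  intro U _
  rw [sum_comm]
  apply sum_congr rfl
  intro L hL
  apply sum_congr rfl
  intro M hM
  rw [mem_range] at hL hM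
  rw [xor_high hL, xor_low hM hi]

/-- **The minority in windows.** -/
theorem minority' {β : Type*} [DecidableEq β] (P : ℕ → Prop) (J b u : ℕ) (pt : ℕ → β)
    (hco : ∀ L < 2 ^ J, ∀ L' < 2 ^ J, pt L = pt L' → ∃ G ⊆ range (2 ^ b), (2 : ℝ) ^ b ≤ 2 * G.card ∧
      ∀ M ∈ G, ∀ U, (P (2 ^ J * (2 ^ b * U + M) + L) ↔ P (2 ^ J * (2 ^ b * U + M) + L'))) :
    ∑ U' ∈ range (2 ^ (b + u)), ∑ L ∈ range (2 ^ J), ne' (P (2 ^ J * U' + L))
        (maj ((range (2 ^ J)).filter (fun L' => pt L' = pt L)) (fun L' => P (2 ^ J * U' + L'))) ≤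
      4 * ∑ j ∈ Ico J (J + b), In P (J + b + u) j := by
  have e : 2 ^ (b + u) = 2 ^ b * 2 ^ u := by ring
  rw [e, sum_split]
  have h1 : ∑ j ∈ Ico J (J + b), In P (J + b + u) j = ∑ U ∈ range (2 ^ u), ∑ L ∈ range (2 ^ J), ∑ i ∈ range b,
      In (fun M => P (2 ^ J * (2 ^ b * U + M) + L)) b i := by
    rw [sum_Ico_eq_sum_range, Nat.add_sub_cancel_left]
    have h2 : ∑ i ∈ range b, In P (J + b + u) (J + i) = ∑ i ∈ range b, ∑ U ∈ range (2 ^ u), ∑ L ∈ range (2 ^ J),
        In (fun M => P (2 ^ J * (2 ^ b * U + M) + L)) b i := by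
      apply sum_congr rfl
      intro i hi
      exact In_split P J b u i (mem_range.1 hi)
    rw [h2, sum_comm]
    apply sum_congr rfl
    intro U _
    rw [sum_comm]
  rw [h1, mul_sum]
  apply sum_le_sum
  intro U _
  exact minority (range (2 ^ J)) pt b (fun L M => P (2 ^ J * (2 ^ b * U + M) + L)) (fun L hL L' hL' h => by
    obtain ⟨G, h1, h2, h3⟩ := hco L (mem_range.1 hL) L' (mem_range.1 hL') h
    exact ⟨G, h1, h2, fun M hM => h3 M hM U⟩)

end Pool.Agent.H620.Inf
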