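import Pool.Agent.H620.Inf.UpC

/-! The model: every value of a class modulo `3 ^ μ` in the window has the same weight. -/

set_option autoImplicit false

namespace Pool.Agent.H620.Inf

open Finset
open Pool.Agent.Q74.BH (cl SE cn)
open Pool.Agent.TH930.EBQ (ones wd words cw T sum_wd)
open Pool.Agent.Q158.Col4 (cI cI_bounds)

open Classical in
/-- indicator -/
noncomputable def ind (p : Prop) : ℝ := if p then 1 else 0

theorem ind_nonneg (p : Prop) : 0 ≤ ind p := by unfold ind; split_ifs <;> norm_num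

theorem ind_le_one (p : Prop) : ind p ≤ 1 := by unfold ind; split_ifs <;> norm_num

theorem ind_true {p : Prop} (h : p) : ind p = 1 := by unfold ind; rw [if_pos h]

theorem ind_false {p : Prop} (h : ¬ p) : ind p = 0 := by unfold ind; rw [if_neg h]

theorem ind_mono {p q : Prop} (h : p → q) : ind p ≤ ind q := by
  by_cases hp : p
  · rw [ind_true hp, ind_true (h hp)]
  · rw [ind_false hp]; exact ind_nonneg q

theorem ind_or (p q : Prop) : ind (p ∨ q) ≤ ind p + ind q := by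
  by_cases hp : p
  · have := ind_le_one (p ∨ q)
    have := ind_nonneg q
    rw [ind_true hp]; linarith
  · by_cases hq : q
    · have := ind_le_one (p ∨ q)
      have := ind_nonneg p
      rw [ind_true hq]; linarith
    · rw [ind_false (fun h => h.elim hp hq)]
      have := ind_nonneg p
      have := ind_nonneg q
      linarith

theorem ind_split (p q : Prop) : ind (p ∧ q) + ind (p ∧ ¬ q) = ind p := by
  by_cases hp : p <;> by_cases hq : q <;> simp [ind, hp, hq]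

theorem ind_compl (q : Prop) : ind q + ind (¬ q) = 1 := by
  by_cases hq : q <;> simp [ind, hq]

theorem ne'_eq_ind (p q : Prop) : ne' p q = ind (¬ (p ↔ q)) := by
  unfold ne' ind
  by_cases h : p ↔ q
  · rw [if_pos h, if_neg (not_not.2 h)]
  · rw [if_neg h, if_pos h]

theorem card_eq_ind {α : Type*} (s : Finset α) (p : α → Prop) [DecidablePred p] :
    ((s.filter p).card : ℝ) = ∑ x ∈ s, ind (p x) := by
  rw [card_filter]
  push_cast
  apply sum_congr rfl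
  intro x _
  unfold ind
  by_cases h : p x <;> simp [h]

theorem cn_mem {S : Set ℤ} {α β : ℝ} {μ : ℕ} {r z : ℤ} (h : z ∈ cn S α β μ r) : z ∈ S ∧ z % 3 ^ μ = r := by
  classical
  unfold cn at h
  exact (mem_filter.1 h).2

/-- the share of the blocks with the property, for the class `r` -/
noncomputable def nq (e : ℕ → ℕ → ℕ → Prop) (μ o r : ℕ) : ℝ :=
  if μ ≤ o then (∑ q ∈ range (3 ^ (o - μ)), ind (e o q r)) / 3 ^ (o - μ) else 0

theorem nq_nonneg (e : ℕ → ℕ → ℕ → Prop) (μ o r : ℕ) : 0 ≤ nq e μ o r := by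
  unfold nq
  split_ifs
  · exact div_nonneg (sum_nonneg fun _ _ => ind_nonneg _) (by positivity)
  · exact le_rfl

theorem nq_le_one (e : ℕ → ℕ → ℕ → Prop) (μ o r : ℕ) : nq e μ o r ≤ 1 := by
  unfold nq
  split_ifs
  · rw [div_le_one (by positivity)]
    refine (sum_le_sum fun q _ => ind_le_one _).trans ?_
    rw [sum_const, card_range, nsmul_eq_mul, mul_one]
    push_cast
    exact le_rfl
  · norm_num

/-- the model -/
noncomputable def mm (μ J : ℕ) (e : ℕ → ℕ → ℕ → Prop) : ℝ := ∑ v ∈ words J, nq e μ (ones v) (cl μ v).toNat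

theorem mm_nonneg (μ J : ℕ) (e : ℕ → ℕ → ℕ → Prop) : 0 ≤ mm μ J e := sum_nonneg fun _ _ => nq_nonneg _ _ _ _

theorem transfer (B : ℕ) : ∃ κ C : ℝ, 0 < κ ∧ 0 < C ∧ ∀ J μ : ℕ, 1 ≤ J → 1 ≤ μ → (μ : ℝ) ^ 2 ≤ κ * J →
    ∀ (U : ℕ) (e : ℕ → ℕ → ℕ → Prop) (m : ℕ), (m : ℝ) ^ 2 ≤ κ * J → ∀ r₀ : ℤ,
    ∑ L ∈ range (2 ^ J), ind ((3 : ℤ) ^ m ∣ ((2 ^ J * U + L : ℕ) : ℤ) - r₀ ∧ μ ≤ aw J L ∧
      e (aw J L) (cv J L / 3 ^ μ) (cv J L % 3 ^ μ)) ≤
      2 ^ J / 3 ^ m * (mm μ J e / 2 ^ J + C * J ^ 2 / (μ : ℝ) ^ B) := by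
  classical
  have hc1 : 3 / 2 < cI := by
    obtain ⟨h1, h2⟩ := Pool.Agent.Q158.Col4.log43_bounds
    unfold cI
    rw [lt_div_iff₀ (by linarith)]
    linarith
  obtain ⟨κ, C, hκ, hκ1, hC, h⟩ := upC hc1 B
  have l2 := Real.log_two_gt_d9
  have l2' := Real.log_two_lt_d9
  refine ⟨κ * Real.log 2, C, by positivity, hC, fun J μ hJ hμ hμJ U e m hm r₀ => ?_⟩
  have hJr : (1 : ℝ) ≤ J := by exact_mod_cast hJ
  have hlog : Real.log ((2 ^ J : ℕ) : ℝ) = J * Real.log 2 := by push_cast; rw [Real.log_pow]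
  have hH : 2 ≤ 2 ^ J := by
    calc 2 = 2 ^ 1 := by norm_num
      _ ≤ 2 ^ J := Nat.pow_le_pow_right (by norm_num) hJ
  set E : ℕ → Set ℤ := fun o => {z : ℤ | μ ≤ o ∧ ∃ q r : ℕ, q < 3 ^ (o - μ) ∧ r < 3 ^ μ ∧
    z = 3 ^ o * U + (3 ^ μ * q + r) ∧ e o q r} with hE
  set g : ℕ → ℤ → ℝ := fun o r => nq e μ o r.toNat with hg
  set F : Finset ℤ := ((range (2 ^ J)).filter (fun L => (3 : ℤ) ^ m ∣ ((2 ^ J * U + L : ℕ) : ℤ) - r₀ ∧ μ ≤ aw J L ∧
      e (aw J L) (cv J L / 3 ^ μ) (cv J L % 3 ^ μ))).image (fun L : ℕ => ((2 ^ J * U + L : ℕ) : ℤ)) with hF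
  have h2J : (2 : ℝ) ^ J ≠ 0 := by positivity
  have hmain := h (2 ^ J) hH ((2 ^ J * U : ℕ) : ℤ) J (by rw [hlog]; nlinarith) (by rw [hlog]; nlinarith) μ hμ
    (by rw [hlog]; linarith) E g (fun o r => ⟨nq_nonneg _ _ _ _, (nq_le_one _ _ _ _).trans (by norm_num)⟩) ?_
    m (by rw [hlog]; linarith) r₀ F ?_
  · have hcard : (F.card : ℝ) = ∑ L ∈ range (2 ^ J), ind ((3 : ℤ) ^ m ∣ ((2 ^ J * U + L : ℕ) : ℤ) - r₀ ∧ μ ≤ aw J L ∧
        e (aw J L) (cv J L / 3 ^ μ) (cv J L % 3 ^ μ)) := by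
      rw [hF, card_image_of_injective, card_eq_ind]
      intro x y hxy
      simp only at hxy
      have : 2 ^ J * U + x = 2 ^ J * U + y := by exact_mod_cast hxy
      omega
    rw [← hcard]
    refine hmain.trans ?_
    have e1 : ((2 ^ J : ℕ) : ℝ) = 2 ^ J := by push_cast; rfl
    rw [hlog, e1]
    have e2 : ∑ v ∈ words J, g (ones v) (cl μ v) = mm μ J e := rfl
    rw [e2]
    apply mul_le_mul_of_nonneg_left _ (by positivity)
    have hμ0 : (0 : ℝ) < (μ : ℝ) ^ B := by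
      have : (0 : ℝ) < μ := by exact_mod_cast hμ
      positivity
    have : C * (J * Real.log 2) ^ 2 / (μ : ℝ) ^ B ≤ C * J ^ 2 / (μ : ℝ) ^ B := by
      apply div_le_div_of_nonneg_right _ hμ0.le
      apply mul_le_mul_of_nonneg_left _ hC.le
      rw [mul_pow]
      have : Real.log 2 ^ 2 ≤ 1 := by nlinarith
      nlinarith [sq_nonneg (J : ℝ)]
    linarith
  · intro o r ho hr0 hr1
    obtain ⟨r', rfl⟩ : ∃ r' : ℕ, r = r' := ⟨r.toNat, (Int.toNat_of_nonneg hr0).symm⟩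
    have hr' : r' < 3 ^ μ := by exact_mod_cast hr1
    by_cases hμo : μ ≤ o
    · have hg' : g o (r' : ℤ) = (∑ q ∈ range (3 ^ (o - μ)), ind (e o q r')) / 3 ^ (o - μ) := by
        rw [hg]
        simp only [Int.toNat_natCast]
        unfold nq
        rw [if_pos hμo]
      have e3 : ((2 ^ J : ℕ) : ℝ) * 3 ^ o / 2 ^ J / 3 ^ μ = 3 ^ (o - μ) := by
        have : (3 : ℝ) ^ o = 3 ^ μ * 3 ^ (o - μ) := by rw [← pow_add]; congr 1; omega
        rw [this]
        push_cast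
        field_simp
      rw [hg', e3, div_mul_cancel₀ _ (by positivity), ← card_eq_ind]
      have hsub : cn (E o) ((((2 ^ J * U : ℕ) : ℤ) : ℝ) * 3 ^ o / 2 ^ J)
          (((((2 ^ J * U : ℕ) : ℤ) : ℝ) + ((2 ^ J : ℕ) : ℝ)) * 3 ^ o / 2 ^ J) μ r' ⊆
          ((range (3 ^ (o - μ))).filter (fun q => e o q r')).image (fun q : ℕ => (3 : ℤ) ^ o * U + (3 ^ μ * q + r')) := by
        intro z hz
        obtain ⟨hzE, hzr⟩ := cn_mem hz
        rw [hE] at hzE
        simp only [Set.mem_ofPred_eq] at hzE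
        obtain ⟨_, q, r, hq, hr, hzz, he⟩ := hzE
        have e4 : z % 3 ^ μ = r := by
          rw [hzz]
          have e5 : (3 : ℤ) ^ o = 3 ^ μ * 3 ^ (o - μ) := by rw [← pow_add]; congr 1; omega
          have e6 : (3 : ℤ) ^ o * U + (3 ^ μ * q + r) = r + 3 ^ μ * (3 ^ (o - μ) * U + q) := by rw [e5]; ring
          rw [e6, Int.add_mul_emod_self_left]
          exact Int.emod_eq_of_lt (by positivity) (by exact_mod_cast hr)
        have e7 : r = r' := by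
          rw [e4] at hzr
          exact_mod_cast hzr
        subst e7
        rw [mem_image]
        exact ⟨q, mem_filter.2 ⟨mem_range.2 hq, he⟩, hzz.symm⟩
      exact_mod_cast (card_le_card hsub).trans card_image_le
    · have : cn (E o) ((((2 ^ J * U : ℕ) : ℤ) : ℝ) * 3 ^ o / 2 ^ J)
          (((((2 ^ J * U : ℕ) : ℤ) : ℝ) + ((2 ^ J : ℕ) : ℝ)) * 3 ^ o / 2 ^ J) μ r' = ∅ := by
        rw [eq_empty_iff_forall_notMem]
        intro z hz
        obtain ⟨hzE, _⟩ := cn_mem hz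
        rw [hE] at hzE
        simp only [Set.mem_ofPred_eq] at hzE
        exact hμo hzE.1
      rw [this, card_empty]
      have := nq_nonneg e μ o (r' : ℤ).toNat
      rw [hg]
      push_cast
      positivity
  · intro x hx
    rw [hF, mem_image] at hx
    obtain ⟨L, hL, rfl⟩ := hx
    rw [mem_filter, mem_range] at hL
    obtain ⟨hL, h1, h2, h3⟩ := hL
    refine ⟨by push_cast; omega, ?_, ?_, h1⟩
    · have : ((2 ^ J * U + L : ℕ) : ℤ) < ((2 ^ J * U + 2 ^ J : ℕ) : ℤ) := by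
        exact_mod_cast Nat.add_lt_add_left hL _
      push_cast at this ⊢
      linarith
    · unfold SE
      rw [Set.mem_ofPred_eq]
      have e8 : ((2 ^ J * U + L : ℕ) : ℤ) = 2 ^ J * (U : ℤ) + L := by push_cast; ring
      rw [e8, iter_add, wd_add, hE]
      simp only [Set.mem_ofPred_eq]
      have e9 : ones (wd 1 J (L : ℤ)) = aw J L := rfl
      rw [e9]
      refine ⟨h2, cv J L / 3 ^ μ, cv J L % 3 ^ μ, ?_, Nat.mod_lt _ (by positivity), ?_, h3⟩
      · rw [Nat.div_lt_iff_lt_mul (by positivity), ← pow_add]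
        have : aw J L - μ + μ = aw J L := by omega
        rw [this]
        exact cv_lt hL
      · congr 1
        exact_mod_cast (Nat.div_add_mod (cv J L) (3 ^ μ)).symm

/-- the words with few ones -/
theorem mm_add (μ J : ℕ) (e : ℕ → ℕ → ℕ → Prop) :
    mm μ J e + mm μ J (fun o q r => ¬ e o q r) = ∑ L ∈ range (2 ^ J), ind (μ ≤ aw J L) := by
  unfold mm
  rw [← sum_add_distrib]
  have h := sum_wd odd_one J (fun v => ind (μ ≤ ones v))
  have e1 : ∑ L ∈ range (2 ^ J), ind (μ ≤ aw J L) = ∑ v ∈ words J, ind (μ ≤ ones v) := h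
  rw [e1]
  apply sum_congr rfl
  intro v _
  unfold nq
  by_cases hv : μ ≤ ones v
  · rw [if_pos hv, if_pos hv, ind_true hv, ← add_div, ← sum_add_distrib]
    simp_rw [ind_compl]
    rw [sum_const, card_range, nsmul_eq_mul, mul_one]
    push_cast
    exact div_self (by positivity)
  · rw [if_neg hv, if_neg hv, ind_false hv, add_zero]

theorem lower (B : ℕ) : ∃ κ C : ℝ, 0 < κ ∧ 0 < C ∧ (∀ J μ : ℕ, 1 ≤ J → 1 ≤ μ → (μ : ℝ) ^ 2 ≤ κ * J →
    ∀ (U : ℕ) (e : ℕ → ℕ → ℕ → Prop) (m : ℕ), (m : ℝ) ^ 2 ≤ κ * J → ∀ r₀ : ℤ,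
    ∑ L ∈ range (2 ^ J), ind ((3 : ℤ) ^ m ∣ ((2 ^ J * U + L : ℕ) : ℤ) - r₀ ∧ μ ≤ aw J L ∧
      e (aw J L) (cv J L / 3 ^ μ) (cv J L % 3 ^ μ)) ≤
      2 ^ J / 3 ^ m * (mm μ J e / 2 ^ J + C * J ^ 2 / (μ : ℝ) ^ B)) ∧
    (∀ J μ : ℕ, 1 ≤ J → 1 ≤ μ → (μ : ℝ) ^ 2 ≤ κ * J → ∀ e : ℕ → ℕ → ℕ → Prop,
    mm μ J e ≤ ∑ L ∈ range (2 ^ J), ind (μ ≤ aw J L ∧ e (aw J L) (cv J L / 3 ^ μ) (cv J L % 3 ^ μ)) +
      2 ^ J * (C * J ^ 2 / (μ : ℝ) ^ B)) := by
  obtain ⟨κ, C, hκ, hC, h⟩ := transfer B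
  refine ⟨κ, C, hκ, hC, h, fun J μ hJ hμ hμJ e => ?_⟩
  have h1 := h J μ hJ hμ hμJ 0 (fun o q r => ¬ e o q r) 0 (by
    have : (0 : ℝ) ≤ κ * J := by positivity
    simpa using this) 0
  simp only [pow_zero, one_dvd, true_and, div_one] at h1
  have h2 := mm_add μ J e
  have h3 : ∑ L ∈ range (2 ^ J), ind (μ ≤ aw J L ∧ e (aw J L) (cv J L / 3 ^ μ) (cv J L % 3 ^ μ)) +
      ∑ L ∈ range (2 ^ J), ind (μ ≤ aw J L ∧ ¬ e (aw J L) (cv J L / 3 ^ μ) (cv J L % 3 ^ μ)) =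
      ∑ L ∈ range (2 ^ J), ind (μ ≤ aw J L) := by
    rw [← sum_add_distrib]
    apply sum_congr rfl
    intro L _
    exact ind_split _ _
  have h4 : (2 : ℝ) ^ J * (mm μ J (fun o q r => ¬ e o q r) / 2 ^ J + C * J ^ 2 / (μ : ℝ) ^ B) =
      mm μ J (fun o q r => ¬ e o q r) + 2 ^ J * (C * J ^ 2 / (μ : ℝ) ^ B) := by
    field_simp
  rw [h4] at h1
  linarith

end Pool.Agent.H620.Inf
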