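import Pool.Agent.H620.Inf.Flip

/-! The total influence, a window with small influences, and comparison of powers. -/

set_option autoImplicit false

namespace Pool.Agent.H620.Inf

open Finset Filter Topology

/-- the sum of the influences of the `k` bits on the numbers below `2 ^ k`, not normalised -/
noncomputable def TI (P : ℕ → Prop) (k : ℕ) : ℝ := ∑ j ∈ range k, In P k j

theorem sum_windows (f : ℕ → ℝ) (J₀ b : ℕ) (W : ℕ) :
    ∑ i ∈ range W, ∑ j ∈ Ico (J₀ + i * b) (J₀ + i * b + b), f j = ∑ j ∈ Ico J₀ (J₀ + W * b), f j := by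
  induction W with
  | zero => simp
  | succ W ih =>
    rw [sum_range_succ, ih, add_mul, one_mul, ← add_assoc]
    exact sum_Ico_consecutive f (by omega) (by omega)

theorem exists_window (P : ℕ → Prop) {k J₀ b W : ℕ} (hW : 0 < W) (h : J₀ + W * b ≤ k) :
    ∃ i < W, ∑ j ∈ Ico (J₀ + i * b) (J₀ + i * b + b), In P k j ≤ TI P k / W := by
  have hWr : (0 : ℝ) < W := by exact_mod_cast hW
  have h1 : ∑ i ∈ range W, ∑ j ∈ Ico (J₀ + i * b) (J₀ + i * b + b), In P k j ≤ ∑ i ∈ range W, TI P k / W := by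
    rw [sum_windows, sum_const, card_range, nsmul_eq_mul, mul_div_cancel₀ _ hWr.ne']
    unfold TI
    apply sum_le_sum_of_subset_of_nonneg
    · intro j hj
      rw [mem_Ico] at hj
      rw [mem_range]
      omega
    · intro _ _ _
      exact In_nonneg _ _ _
  obtain ⟨i, hi, h2⟩ := exists_le_of_sum_le (nonempty_range_iff.2 hW.ne') h1
  exact ⟨i, mem_range.1 hi, h2⟩

theorem ev_pow (C : ℝ) {a b : ℝ} (hab : a < b) : ∀ᶠ x : ℝ in atTop, C * x ^ a ≤ x ^ b := by
  have h1 := tendsto_rpow_atTop (show 0 < b - a by linarith)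
  filter_upwards [h1.eventually_ge_atTop C, eventually_gt_atTop 0] with x hx hx0
  have h2 : x ^ b = x ^ (b - a) * x ^ a := by rw [← Real.rpow_add hx0]; congr 1; ring
  rw [h2]
  exact mul_le_mul_of_nonneg_right hx (by positivity)

theorem log_le_pow {b : ℝ} (hb : 0 < b) {x : ℝ} (hx : 0 ≤ x) : Real.log x ≤ x ^ b / b :=
  Real.log_le_rpow_div hx hb

theorem ev_exp (a : ℝ) {b c : ℝ} (hb : 0 < b) (hc : 0 < c) : ∀ᶠ x : ℝ in atTop, x ^ a ≤ Real.exp (c * x ^ b) := by
  filter_upwards [ev_pow (|a| * (2 / b) / c) (show b / 2 < b by linarith), eventually_ge_atTop 1] with x h1 h2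
  have hx0 : 0 < x := by linarith
  rw [Real.rpow_def_of_pos hx0]
  apply Real.exp_le_exp.2
  have h3 := log_le_pow (show 0 < b / 2 by linarith) hx0.le
  have h4 : 0 ≤ Real.log x := Real.log_nonneg h2
  calc Real.log x * a ≤ Real.log x * |a| := mul_le_mul_of_nonneg_left (le_abs_self a) h4
    _ ≤ (x ^ (b / 2) / (b / 2)) * |a| := mul_le_mul_of_nonneg_right h3 (abs_nonneg a)
    _ = c * (|a| * (2 / b) / c * x ^ (b / 2)) := by field_simp
    _ ≤ c * x ^ b := mul_le_mul_of_nonneg_left h1 hc.le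

end Pool.Agent.H620.Inf
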