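import Pool.Agent.H620.Inf.Comb
import Pool.Agent.H620.Inf.Binom
import Pool.Agent.H620.Inf.Window

/-! The choice of the parameters. -/

set_option autoImplicit false

namespace Pool.Agent.H620.Inf

open Finset Filter Topology
open Pool.Agent.TH930.EBQ (ones wd words cw T)
open Pool.Agent.H499R2.CO (Tz q)

/-- the structure at the scale `2 ^ k` -/
def Str (Q : ℤ → Prop) (A δ : ℝ) (k : ℕ) : Prop := ∃ J μ o₀ r : ℕ, ∃ Y : ℕ → Prop,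
  k ≤ 8 * J ∧ 4 * J ≤ k ∧ (μ : ℝ) ≤ 2 * (k : ℝ) ^ δ ∧ μ ≤ o₀ ∧ r < 3 ^ μ ∧
  (3 : ℝ) ^ o₀ / 2 ^ J ≤ Real.exp (-((k : ℝ) / 80)) ∧
  (∀ m : ℕ, (m : ℝ) ≤ 4 * (k : ℝ) ^ δ → ∀ r₀ : ℤ,
    ∑ n ∈ range (2 ^ k), ind ((3 : ℤ) ^ m ∣ (n : ℤ) - r₀ ∧ ¬ (Q (n : ℤ) ↔ Y (3 ^ (o₀ - μ) * n / 2 ^ J))) ≤
      2 ^ k / 3 ^ m * (A * (k : ℝ) ^ (-δ))) ∧
  ∑ q ∈ range (3 ^ (o₀ - μ) * 2 ^ (k - J)), ind (¬ (Q (3 ^ μ * (q : ℤ) + r) ↔ Y q)) ≤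
    3 ^ (o₀ - μ) * 2 ^ (k - J) * (A * (k : ℝ) ^ (-δ))

theorem log2_bd : 1 / 7 < Real.log 2 - Real.log 3 / 2 := by
  obtain ⟨h1, h2⟩ := Pool.Agent.Q158.Col4.log43_bounds
  have h3 : Real.log (4 / 3) = 2 * Real.log 2 - Real.log 3 := by
    rw [Real.log_div (by norm_num) (by norm_num), show (4 : ℝ) = 2 ^ 2 by norm_num, Real.log_pow]
    norm_num
  linarith

/-- the inequalities for large `x` -/
theorem ev_all {δ κ₀ C₁ : ℝ} (hδ : 0 < δ) (hδ1 : δ ≤ 1 / 16) : ∀ᶠ x : ℝ in atTop,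
    1000 ≤ x ∧ 5 ≤ x ^ δ ∧ (C₁ * 36 / δ) * x ^ (3 * δ / 2) ≤ x ^ (2 * δ) ∧ (128 / κ₀) * x ^ (2 * δ) ≤ x ∧
    1000 * x ^ (1 / 2 + δ) ≤ x ∧ x ^ (3 : ℝ) ≤ Real.exp (1 * x ^ δ) := by
  have h1 := ev_pow (C₁ * 36 / δ) (show 3 * δ / 2 < 2 * δ by linarith)
  have h2 := ev_pow (128 / κ₀) (show 2 * δ < 1 by linarith)
  have h3 := ev_pow 1000 (show 1 / 2 + δ < 1 by linarith)
  have h4 := ev_exp 3 hδ (show (0 : ℝ) < 1 by norm_num)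
  have h5 := (tendsto_rpow_atTop hδ).eventually_ge_atTop 5
  filter_upwards [h1, h2, h3, h4, h5, eventually_ge_atTop (1000 : ℝ)] with x a1 a2 a3 a4 a5 a6
  rw [Real.rpow_one] at a2 a3
  exact ⟨a6, a5, a1, a2, a3, a4⟩

theorem ceil_bd {y : ℝ} (hy : 1 ≤ y) : y ≤ (⌈y⌉₊ : ℝ) ∧ (⌈y⌉₊ : ℝ) ≤ 2 * y :=
  ⟨Nat.le_ceil y, by have := Nat.ceil_lt_add_one (show 0 ≤ y by linarith); linarith⟩

/-- the typical levels -/
theorem typ_num {δ x : ℝ} (hδ : 0 < δ) (hx1 : 1000 ≤ x) (hx2 : 5 ≤ x ^ δ) {J : ℕ} (hJ : 4 * (J : ℝ) ≤ x) :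
    (((⌈x ^ (1 / 2 + δ)⌉₊ : ℕ) : ℝ) + 1) * x ^ (-(1 / 2) - 2 * δ) + J / ((⌈x ^ (1 / 2 + δ)⌉₊ : ℕ) : ℝ) ^ 2 ≤
      4 * x ^ (-δ) ∧ 4 * x ^ (-δ) < 1 := by
  have hx0 : 0 < x := by linarith
  have h1 : 1 ≤ x ^ (1 / 2 + δ) := Real.one_le_rpow (by linarith) (by linarith)
  obtain ⟨h2, h3⟩ := ceil_bd h1
  set D : ℝ := ((⌈x ^ (1 / 2 + δ)⌉₊ : ℕ) : ℝ) with hD
  have hp : 0 < x ^ (-(1 / 2) - 2 * δ) := Real.rpow_pos_of_pos hx0 _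
  have hy : 0 < x ^ (-δ) := Real.rpow_pos_of_pos hx0 _
  have e1 : x ^ (1 / 2 + δ) * x ^ (-(1 / 2) - 2 * δ) = x ^ (-δ) := by
    rw [← Real.rpow_add hx0]; congr 1; ring
  have e2 : x ^ δ * x ^ (-δ) = 1 := by rw [← Real.rpow_add hx0]; simp
  have h4 : (D + 1) * x ^ (-(1 / 2) - 2 * δ) ≤ 3 * x ^ (-δ) := by
    calc (D + 1) * x ^ (-(1 / 2) - 2 * δ) ≤ (3 * x ^ (1 / 2 + δ)) * x ^ (-(1 / 2) - 2 * δ) := by
          apply mul_le_mul_of_nonneg_right _ hp.le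
          linarith
      _ = 3 * x ^ (-δ) := by rw [mul_assoc, e1]
  have h5 : (J : ℝ) / D ^ 2 ≤ x ^ (-δ) := by
    have h6 : x ^ (1 + δ) ≤ D ^ 2 := by
      calc x ^ (1 + δ) ≤ x ^ (1 / 2 + δ + (1 / 2 + δ)) := Real.rpow_le_rpow_of_exponent_le (by linarith) (by linarith)
        _ = x ^ (1 / 2 + δ) * x ^ (1 / 2 + δ) := Real.rpow_add hx0 _ _
        _ ≤ D * D := mul_le_mul h2 h2 (by positivity) (by linarith)
        _ = D ^ 2 := by ring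
    have hD2 : 0 < D ^ 2 := lt_of_lt_of_le (Real.rpow_pos_of_pos hx0 _) h6
    rw [div_le_iff₀ hD2]
    calc (J : ℝ) ≤ x := by
          have : (0 : ℝ) ≤ J := Nat.cast_nonneg J
          linarith
      _ = x ^ (-δ) * x ^ (1 + δ) := by
          rw [← Real.rpow_add hx0]
          have : -δ + (1 + δ) = 1 := by ring
          rw [this, Real.rpow_one]
      _ ≤ x ^ (-δ) * D ^ 2 := mul_le_mul_of_nonneg_left h6 hy.le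
  refine ⟨by linarith, ?_⟩
  have h7 : 5 * x ^ (-δ) ≤ 1 := by
    rw [← e2]
    exact mul_le_mul_of_nonneg_right hx2 hy.le
  linarith

/-- the multiplier is small -/
theorem kappa_num {x : ℝ} {J o₀ D : ℕ} (hJ : x ≤ 8 * (J : ℝ)) (hD : 500 * (D : ℝ) ≤ x) (hx : 0 < x)
    (h : 2 * (o₀ : ℝ) ≤ J + D) : (3 : ℝ) ^ o₀ / 2 ^ J ≤ Real.exp (-(x / 80)) := by
  have h3 : (3 : ℝ) ^ o₀ = Real.exp (o₀ * Real.log 3) := by
    rw [mul_comm, Real.exp_mul, Real.exp_log (by norm_num), Real.rpow_natCast]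
  have h2 : (2 : ℝ) ^ J = Real.exp (J * Real.log 2) := by
    rw [mul_comm, Real.exp_mul, Real.exp_log (by norm_num), Real.rpow_natCast]
  rw [h3, h2, ← Real.exp_sub]
  apply Real.exp_le_exp.2
  have h4 := log2_bd
  obtain ⟨h5, h6⟩ := log3_bd
  have h7 : (o₀ : ℝ) * Real.log 3 ≤ (J + D) / 2 * Real.log 3 := by
    apply mul_le_mul_of_nonneg_right _ (by linarith)
    linarith
  have h8 : (J : ℝ) * (1 / 7) ≤ J * (Real.log 2 - Real.log 3 / 2) :=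
    mul_le_mul_of_nonneg_left h4.le (Nat.cast_nonneg J)
  have h9 : (D : ℝ) / 2 * Real.log 3 ≤ D / 2 * 1.101 :=
    mul_le_mul_of_nonneg_left h6.le (by positivity)
  have h10 : (J + D) / 2 * Real.log 3 - J * Real.log 2 = -(J * (Real.log 2 - Real.log 3 / 2)) + D / 2 * Real.log 3 := by
    ring
  linarith

end Pool.Agent.H620.Inf
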