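import Pool.Agent.H620.Inf.Bad

/-! The structure of an invariant set at one scale. -/

set_option autoImplicit false

namespace Pool.Agent.H620.Inf

open Finset
open Pool.Agent.TH930.EBQ (ones wd words cw T)
open Pool.Agent.H499R2.CO (Tz q)

/-- the majority of the part -/
noncomputable def chi (Q : ℤ → Prop) (μ J U : ℕ) : ℕ → ℕ → ℕ → Prop := fun par i q' =>
  maj ((range (2 ^ J)).filter (fun L' => pt μ par J L' = (i, q'))) (fun L' => Q ((2 ^ J * U + L' : ℕ) : ℤ))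

/-- the values -/
def VV (Q : ℤ → Prop) (μ U : ℕ) : ℕ → ℕ → ℕ → Prop := fun o q r => Q (3 ^ o * U + (3 ^ μ * q + r))

theorem VV_iff {Q : ℤ → Prop} (hQ : ∀ x, Q (Tz 1 x) ↔ Q x) (μ J U L : ℕ) :
    VV Q μ U (aw J L) (cv J L / 3 ^ μ) (cv J L % 3 ^ μ) ↔ Q ((2 ^ J * U + L : ℕ) : ℤ) := by
  unfold VV
  have e : ((3 : ℤ) ^ μ * ((cv J L / 3 ^ μ : ℕ) : ℤ) + ((cv J L % 3 ^ μ : ℕ) : ℤ)) = cv J L := by
    exact_mod_cast Nat.div_add_mod (cv J L) (3 ^ μ)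
  rw [e, ← inv_val hQ]
  push_cast
  exact Iff.rfl

theorem ee_iff {Q : ℤ → Prop} (hQ : ∀ x, Q (Tz 1 x) ↔ Q x) (μ J U L par : ℕ) :
    ee (VV Q μ U) (chi Q μ J U) par (aw J L) (cv J L / 3 ^ μ) (cv J L % 3 ^ μ) ↔
      ¬ (Q ((2 ^ J * U + L : ℕ) : ℤ) ↔ maj ((range (2 ^ J)).filter (fun L' => pt μ par J L' = pt μ par J L))
        (fun L' => Q ((2 ^ J * U + L' : ℕ) : ℤ))) := by
  unfold ee
  rw [VV_iff hQ]
  have e : X (chi Q μ J U) par (aw J L) (cv J L / 3 ^ μ) = maj ((range (2 ^ J)).filter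
      (fun L' => pt μ par J L' = pt μ par J L)) (fun L' => Q ((2 ^ J * U + L' : ℕ) : ℤ)) := by
    unfold X chi
    rw [Nat.div_div_eq_div_mul, ← pow_add]
    rfl
  rw [e]

theorem scale (B : ℕ) : ∃ κ C : ℝ, 0 < κ ∧ 0 < C ∧ ∀ Q : ℤ → Prop, (∀ x, Q (Tz 1 x) ↔ Q x) →
    ∀ J b u μ : ℕ, 1 ≤ J → 1 ≤ μ → (μ : ℝ) ^ 2 ≤ κ * J →
    (∀ i ≤ 1, ∀ r : ℤ, |r| ≤ 3 ^ (μ + 1) → q Pool.Agent.H499R2.CO.step (0, 0) b (i, r) ≤ 1 / 2) →
    ∀ o₀ o₁ : ℕ, μ ≤ o₀ → o₀ ≤ o₁ → ∀ p : ℝ, 0 < p →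
    (∀ o ∈ Icc o₀ o₁, p * 2 ^ J ≤ (((words J).filter (fun v => ones v = o)).card : ℝ)) →
    ∀ M : ℝ, 4 * ∑ j ∈ Ico J (J + b), In (fun n : ℕ => Q (n : ℤ)) (J + b + u) j +
      2 ^ (J + b + u) * (C * J ^ 2 / (μ : ℝ) ^ B) ≤ M →
    ∃ (Y : ℕ → Prop) (r : ℕ), r < 3 ^ μ ∧
      (∀ m : ℕ, (m : ℝ) ^ 2 ≤ κ * J → (3 : ℝ) ^ m ≤ 2 ^ (b + u) → ∀ (r₀ : ℤ) (G : ℕ), 1 ≤ G →
        ∑ n ∈ range (2 ^ (J + b + u)), ind ((3 : ℤ) ^ m ∣ (n : ℤ) - r₀ ∧ ¬ (Q (n : ℤ) ↔ Y (3 ^ (o₀ - μ) * n / 2 ^ J))) ≤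
          2 ^ (J + b + u) / 3 ^ m * ((1 + 4 / p) * (M / 2 ^ (J + b + u)) + C * J ^ 2 / (μ : ℝ) ^ B +
            2 * ((∑ L ∈ range (2 ^ J), ind (¬ (o₀ ≤ aw J L ∧ aw J L ≤ o₁))) / 2 ^ J + J / (4 * G) +
              G / 3 ^ μ + 1 / 2 ^ J))) ∧
      ∑ q ∈ range (3 ^ (o₀ - μ) * 2 ^ (b + u)), ind (¬ (Q (3 ^ μ * (q : ℤ) + r) ↔ Y q)) ≤
        3 ^ (o₀ - μ) * (M / (p * 2 ^ J)) := by
  obtain ⟨κ, C, hκ, hC, hup, hlow⟩ := lower B
  refine ⟨κ, C, hκ, hC, fun Q hQ J b u μ hJ hμ hμJ hq o₀ o₁ hμo ho p hp0 hp M hM => ?_⟩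
  set P : ℕ → Prop := fun n => Q (n : ℤ) with hP
  set w := b + u with hw
  set err := C * J ^ 2 / (μ : ℝ) ^ B with herr
  have hμr : (0 : ℝ) < μ := by exact_mod_cast hμ
  have herr0 : 0 ≤ err := by positivity
  have h2k : (2 : ℝ) ^ (J + b + u) = 2 ^ J * 2 ^ w := by rw [hw, ← pow_add]; congr 1; ring
  have h2kn : (2 : ℕ) ^ (J + b + u) = 2 ^ J * 2 ^ w := by rw [hw, ← pow_add]; congr 1; ring
  -- the model counts
  have key2 : ∀ par : ℕ, ∑ U ∈ range (2 ^ w), mm μ J (ee (VV Q μ U) (chi Q μ J U) par) ≤ M := by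
    intro par
    refine le_trans ?_ hM
    have h1 := minority' P J b u (pt μ par J) (fun L hL L' hL' h => coal_part hQ hq h)
    refine le_trans ?_ (add_le_add_left h1 _)
    have h2 : ∀ U ∈ range (2 ^ w), mm μ J (ee (VV Q μ U) (chi Q μ J U) par) ≤
        ∑ L ∈ range (2 ^ J), ne' (P (2 ^ J * U + L))
          (maj ((range (2 ^ J)).filter (fun L' => pt μ par J L' = pt μ par J L)) (fun L' => P (2 ^ J * U + L'))) +
        2 ^ J * err := by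
      intro U _
      refine (hlow J μ hJ hμ hμJ _).trans ?_
      gcongr with L hL
      rw [ne'_eq_ind]
      apply ind_mono
      rintro ⟨_, h3⟩
      exact (ee_iff hQ μ J U L par).1 h3
    refine (sum_le_sum h2).trans ?_
    rw [sum_add_distrib, sum_const, card_range, nsmul_eq_mul, h2k]
    push_cast
    apply le_of_eq
    rw [← hw]
    ring
  -- the function
  set Y : ℕ → Prop := fun n => X (chi Q μ J (n / 3 ^ (o₀ - μ))) 0 o₀ (n % 3 ^ (o₀ - μ)) with hY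
  have hYv : ∀ U q : ℕ, q < 3 ^ (o₀ - μ) → (Y (3 ^ (o₀ - μ) * U + q) ↔ X (chi Q μ J U) 0 o₀ q) := by
    intro U q hq
    simp only [hY]
    have e1 : (3 ^ (o₀ - μ) * U + q) / 3 ^ (o₀ - μ) = U := by
      rw [Nat.mul_add_div (by positivity), Nat.div_eq_of_lt hq, add_zero]
    have e2 : (3 ^ (o₀ - μ) * U + q) % 3 ^ (o₀ - μ) = q := by
      rw [Nat.mul_add_mod, Nat.mod_eq_of_lt hq]
    rw [e1, e2]
  obtain ⟨r, hr, hr2⟩ := exists_class (range (2 ^ w)) (fun U => ee (VV Q μ U) (chi Q μ J U) 0) hp0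
    (hp o₀ (mem_Icc.2 ⟨le_rfl, ho⟩)) (key2 0)
  refine ⟨Y, r, hr, ?_, ?_⟩
  · intro m hm h3m r₀ G hG
    set out := ∑ L ∈ range (2 ^ J), ind (¬ (o₀ ≤ aw J L ∧ aw J L ≤ o₁)) with hout
    have h3m0 : (0 : ℝ) < 3 ^ m := by positivity
    rw [h2kn, sum_split]
    have hpt : ∀ U ∈ range (2 ^ w), ∀ L ∈ range (2 ^ J),
        ind ((3 : ℤ) ^ m ∣ ((2 ^ J * U + L : ℕ) : ℤ) - r₀ ∧
          ¬ (Q ((2 ^ J * U + L : ℕ) : ℤ) ↔ Y (3 ^ (o₀ - μ) * (2 ^ J * U + L) / 2 ^ J))) ≤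
        ind ((3 : ℤ) ^ m ∣ ((2 ^ J * U + L : ℕ) : ℤ) - r₀ ∧ μ ≤ aw J L ∧
          ef (VV Q μ U) (chi Q μ J U) o₀ o₁ (aw J L) (cv J L / 3 ^ μ) (cv J L % 3 ^ μ)) +
        ind (bad J μ o₀ o₁ G L) * ind ((3 : ℤ) ^ m ∣ ((2 ^ J * U + L : ℕ) : ℤ) - r₀) := by
      intro U _ L hL
      rw [mem_range] at hL
      by_cases hc : (3 : ℤ) ^ m ∣ ((2 ^ J * U + L : ℕ) : ℤ) - r₀
      · by_cases hb : bad J μ o₀ o₁ G L
        · rw [ind_true hb, ind_true hc, one_mul]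
          have h1 := ind_nonneg ((3 : ℤ) ^ m ∣ ((2 ^ J * U + L : ℕ) : ℤ) - r₀ ∧ μ ≤ aw J L ∧
            ef (VV Q μ U) (chi Q μ J U) o₀ o₁ (aw J L) (cv J L / 3 ^ μ) (cv J L % 3 ^ μ))
          have h2 := ind_le_one ((3 : ℤ) ^ m ∣ ((2 ^ J * U + L : ℕ) : ℤ) - r₀ ∧
            ¬ (Q ((2 ^ J * U + L : ℕ) : ℤ) ↔ Y (3 ^ (o₀ - μ) * (2 ^ J * U + L) / 2 ^ J)))
          linarith
        · have hg := good_div hμo hb
          have hb' := hb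
          unfold bad at hb'
          push Not at hb'
          obtain ⟨⟨g1, g2⟩, _, _⟩ := hb'
          rw [ind_false hb, zero_mul, add_zero]
          apply ind_mono
          rintro ⟨h1, h2⟩
          refine ⟨h1, by omega, g1, g2, ?_⟩
          rw [VV_iff hQ, hg]
          have e1 : 3 ^ (o₀ - μ) * (2 ^ J * U + L) / 2 ^ J = 3 ^ (o₀ - μ) * U + 3 ^ (o₀ - μ) * L / 2 ^ J := by
            have : 3 ^ (o₀ - μ) * (2 ^ J * U + L) = 2 ^ J * (3 ^ (o₀ - μ) * U) + 3 ^ (o₀ - μ) * L := by ring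
            rw [this, Nat.mul_add_div (by positivity)]
          have e2 : 3 ^ (o₀ - μ) * L / 2 ^ J < 3 ^ (o₀ - μ) := by
            rw [Nat.div_lt_iff_lt_mul (by positivity)]
            exact Nat.mul_lt_mul_of_pos_left hL (by positivity)
          rw [e1, hYv U _ e2] at h2
          exact h2
      · have h1 : ind ((3 : ℤ) ^ m ∣ ((2 ^ J * U + L : ℕ) : ℤ) - r₀ ∧
            ¬ (Q ((2 ^ J * U + L : ℕ) : ℤ) ↔ Y (3 ^ (o₀ - μ) * (2 ^ J * U + L) / 2 ^ J))) = 0 :=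
          ind_false fun h => hc h.1
        rw [h1]
        have h2 := ind_nonneg ((3 : ℤ) ^ m ∣ ((2 ^ J * U + L : ℕ) : ℤ) - r₀ ∧ μ ≤ aw J L ∧
            ef (VV Q μ U) (chi Q μ J U) o₀ o₁ (aw J L) (cv J L / 3 ^ μ) (cv J L % 3 ^ μ))
        have h3 := ind_nonneg (bad J μ o₀ o₁ G L)
        have h4 := ind_nonneg ((3 : ℤ) ^ m ∣ ((2 ^ J * U + L : ℕ) : ℤ) - r₀)
        positivity
    refine (sum_le_sum fun U hU => sum_le_sum fun L hL => hpt U hU L hL).trans ?_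
    simp_rw [sum_add_distrib]
    -- the first sum
    have hA : ∑ U ∈ range (2 ^ w), ∑ L ∈ range (2 ^ J), ind ((3 : ℤ) ^ m ∣ ((2 ^ J * U + L : ℕ) : ℤ) - r₀ ∧
          μ ≤ aw J L ∧ ef (VV Q μ U) (chi Q μ J U) o₀ o₁ (aw J L) (cv J L / 3 ^ μ) (cv J L % 3 ^ μ)) ≤
        2 ^ J / 3 ^ m * ((1 + 4 / p) * M / 2 ^ J + 2 ^ w * err) := by
      have h1 : ∀ U ∈ range (2 ^ w), ∑ L ∈ range (2 ^ J), ind ((3 : ℤ) ^ m ∣ ((2 ^ J * U + L : ℕ) : ℤ) - r₀ ∧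
          μ ≤ aw J L ∧ ef (VV Q μ U) (chi Q μ J U) o₀ o₁ (aw J L) (cv J L / 3 ^ μ) (cv J L % 3 ^ μ)) ≤
          2 ^ J / 3 ^ m * ((mm μ J (ee (VV Q μ U) (chi Q μ J U) 0) +
            2 / p * (mm μ J (ee (VV Q μ U) (chi Q μ J U) 0) + mm μ J (ee (VV Q μ U) (chi Q μ J U) 1))) / 2 ^ J + err) := by
        intro U _
        refine (hup J μ hJ hμ hμJ U _ m hm r₀).trans ?_
        gcongr
        exact mm_ef _ _ hμo hp0 hp
      refine (sum_le_sum h1).trans ?_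
      rw [← mul_sum, sum_add_distrib, ← sum_div, sum_add_distrib, ← mul_sum, sum_add_distrib, sum_const, card_range,
        nsmul_eq_mul]
      have h3 := key2 0
      have h4 := key2 1
      push_cast
      gcongr
      have h5 : 2 / p * (∑ U ∈ range (2 ^ w), mm μ J (ee (VV Q μ U) (chi Q μ J U) 0) +
          ∑ U ∈ range (2 ^ w), mm μ J (ee (VV Q μ U) (chi Q μ J U) 1)) ≤ 2 / p * (M + M) := by gcongr
      have h6 : (1 + 4 / p) * M = M + 2 / p * (M + M) := by ring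
      rw [h6]
      linarith
    -- the second sum
    have hB : ∑ U ∈ range (2 ^ w), ∑ L ∈ range (2 ^ J), ind (bad J μ o₀ o₁ G L) *
        ind ((3 : ℤ) ^ m ∣ ((2 ^ J * U + L : ℕ) : ℤ) - r₀) ≤
        (out + 2 ^ J * (J / (4 * G) + G / 3 ^ μ) + 1) * (2 * (2 ^ w / 3 ^ m)) := by
      rw [sum_comm]
      have h1 : ∀ L ∈ range (2 ^ J), ∑ U ∈ range (2 ^ w), ind (bad J μ o₀ o₁ G L) *
          ind ((3 : ℤ) ^ m ∣ ((2 ^ J * U + L : ℕ) : ℤ) - r₀) ≤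
          ind (bad J μ o₀ o₁ G L) * (2 * (2 ^ w / 3 ^ m)) := by
        intro L _
        rw [← mul_sum]
        apply mul_le_mul_of_nonneg_left _ (ind_nonneg _)
        refine (count_class J m w L r₀).trans ?_
        have : (1 : ℝ) ≤ 2 ^ w / 3 ^ m := by rw [le_div_iff₀ h3m0, one_mul]; exact h3m
        linarith
      refine (sum_le_sum h1).trans ?_
      rw [← sum_mul]
      exact mul_le_mul_of_nonneg_right (count_bad J μ o₀ o₁ hG) (by positivity)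
    refine (add_le_add hA hB).trans (le_of_eq ?_)
    rw [h2k]
    field_simp
    ring
  · rw [sum_split]
    have h1 : ∀ U ∈ range (2 ^ w), ∑ q ∈ range (3 ^ (o₀ - μ)), ind (¬ (Q (3 ^ μ * ((3 ^ (o₀ - μ) * U + q : ℕ) : ℤ) + r) ↔
        Y (3 ^ (o₀ - μ) * U + q))) = 3 ^ (o₀ - μ) * nq (ee (VV Q μ U) (chi Q μ J U) 0) μ o₀ r := by
      intro U _
      unfold nq
      rw [if_pos hμo, mul_div_cancel₀]
      · apply sum_congr rfl
        intro q hq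
        rw [mem_range] at hq
        rw [hYv U q hq]
        unfold ee VV
        have e : (3 : ℤ) ^ μ * ((3 ^ (o₀ - μ) * U + q : ℕ) : ℤ) + r = 3 ^ o₀ * U + (3 ^ μ * q + r) := by
          have : (3 : ℤ) ^ o₀ = 3 ^ μ * 3 ^ (o₀ - μ) := by rw [← pow_add]; congr 1; omega
          rw [this]
          push_cast
          ring
        rw [e]
      · positivity
    rw [sum_congr rfl h1, ← mul_sum]
    exact mul_le_mul_of_nonneg_left hr2 (by positivity)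

end Pool.Agent.H620.Inf
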