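import Pool.Graph.R_pool_sql_team_seeded_3997aac3.Q14.BH.Step
import Pool.Graph.R_pool_sql_team_seeded_3997aac3.Q154.BH.Up
import Pool.Graph.R_pool_sql_team_seeded_3997aac3.Q150.BH.Stage
import Pool.Graph.R_pool_sql_team_seeded_3997aac3.Q176.BH.Base
import Pool.Graph.R_pool_sql_team_seeded_3997aac3.Q208.BH.ClsFew
import Pool.Graph.R_pool_sql_team_seeded_3997aac3.Q241.BH.Mix3
import Pool.Graph.R_pool_sql_team_seeded_3997aac3.Q285.BH.Bits
import Pool.Agent.H620.Inf.Coal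

/-! Values of the integers of an interval in a class modulo a power of `3` (copied from `Q154.BH.Up` with classes). -/

set_option autoImplicit false

namespace Pool.Agent.H620.Inf

open Finset
open Pool.Agent.Q74.BH
open Pool.Agent.TH930.EBQ (ones wd words cw T sum_words_succ ones_cons_true ones_cons_false)
open Pool.Agent.H499R2.ND (cls mem_cls)
open Pool.Agent.Q158.Col3 (PB)
open Pool.Agent.Q158.Col4 (cI kap cI_bounds cI_fix log43_bounds exp_decay two_part shift_pow card_dvd)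
open Pool.Agent.Q154.BH (QW_all OW_halves)

theorem base : S_Base := Pool.Agent.Q176.BH.base Pool.Agent.Q208.BH.cls Pool.Agent.Q241.BH.mix3
  Pool.Agent.Q285.BH.bits Pool.Agent.Q208.BH.few

theorem step : S_Step := Pool.Agent.Q14.BH.step Pool.Agent.Q208.BH.cls
  (Pool.Agent.Q150.BH.stage Pool.Agent.Q208.BH.cls) Pool.Agent.Q208.BH.few base

lemma card_dvd2 (J m L : ℕ) (a r : ℤ) (F : Finset ℤ)
    (hF : ∀ x ∈ F, a ≤ x ∧ x < a + L ∧ (2 : ℤ) ^ J ∣ x ∧ (3 : ℤ) ^ m ∣ x - r) :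
    (F.card : ℝ) ≤ L / 3 ^ m / 2 ^ J + 1 := by
  rcases F.eq_empty_or_nonempty with rfl | ⟨x0, hx0⟩
  · simp only [card_empty, Nat.cast_zero]; positivity
  obtain ⟨_, _, h3, h4⟩ := hF x0 hx0
  have hsub : F ⊆ Pool.Agent.H499R2.ND.ap (a : ℝ) (a + L) (2 ^ J * 3 ^ m) x0 := by
    intro x hx
    obtain ⟨g1, g2, g3, g4⟩ := hF x hx
    rw [Pool.Agent.H499R2.ND.mem_ap]
    refine ⟨⟨by exact_mod_cast g1, by exact_mod_cast g2⟩, ?_⟩
    have hc : IsCoprime ((2 : ℤ) ^ J) (3 ^ m) := by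
      apply IsCoprime.pow
      rw [Int.isCoprime_iff_gcd_eq_one]; norm_num
    apply hc.mul_dvd (dvd_sub g3 h3)
    have e : x - x0 = (x - r) - (x0 - r) := by ring
    rw [e]
    exact dvd_sub g4 h4
  have h1 : (F.card : ℝ) ≤ (Pool.Agent.H499R2.ND.ap (a : ℝ) (a + L) (2 ^ J * 3 ^ m) x0).card := by
    exact_mod_cast card_le_card hsub
  have h2 := Pool.Agent.H499R2.ND.ap_card_le (a := (a : ℝ)) (b := a + L) (by
    have : (0 : ℝ) ≤ L := Nat.cast_nonneg L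
    linarith) (q := 2 ^ J * 3 ^ m) (by positivity) x0
  push_cast at h2
  rw [show (a : ℝ) + L - a = L by ring] at h2
  have e : (L : ℝ) / 3 ^ m / 2 ^ J = L / (2 ^ J * 3 ^ m) := by rw [div_div, mul_comm ((3 : ℝ) ^ m)]
  rw [e]
  linarith

lemma log3_bd : 1.08 < Real.log 3 ∧ Real.log 3 < 1.101 := by
  obtain ⟨h1, h2⟩ := log43_bounds
  have h3 : Real.log (4 / 3) = 2 * Real.log 2 - Real.log 3 := by
    rw [Real.log_div (by norm_num) (by norm_num), show (4 : ℝ) = 2 ^ 2 by norm_num, Real.log_pow]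
    norm_num
  have h4 := Real.log_two_lt_d9
  have h5 := Real.log_two_gt_d9
  rw [h3] at h1 h2
  constructor <;> linarith

lemma pow3_le {m : ℕ} {s : ℝ} (h : (m : ℝ) ^ 2 ≤ s) (hs : 0 ≤ s) : (3 : ℝ) ^ m ≤ 3 * Real.exp s := by
  obtain ⟨hl0, hl⟩ := log3_bd
  have e : (3 : ℝ) ^ m = Real.exp (m * Real.log 3) := by
    rw [mul_comm, Real.exp_mul, Real.exp_log (by norm_num), Real.rpow_natCast]
  have e2 : 3 * Real.exp s = Real.exp (Real.log 3 + s) := by
    rw [Real.exp_add, Real.exp_log (by norm_num)]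
  rw [e, e2]
  apply Real.exp_le_exp.2
  have hm0 : (0 : ℝ) ≤ m := Nat.cast_nonneg m
  nlinarith [sq_nonneg ((m : ℝ) - 0.55)]

/-- JOB Up, with classes modulo `3 ^ m` -/
theorem upC {c : ℝ} (hc : c < cI) (B : ℕ) : ∃ κ C : ℝ, 0 < κ ∧ κ ≤ 1 ∧ 0 < C ∧ ∀ H : ℕ, 2 ≤ H →
  ∀ (a : ℤ) (t : ℕ), Real.log H ≤ t → (t : ℝ) ≤ c * Real.log H →
  ∀ μ : ℕ, 1 ≤ μ → (μ : ℝ) ^ 2 ≤ κ * Real.log H →
  ∀ (E : ℕ → Set ℤ) (g : ℕ → ℤ → ℝ), (∀ o r, 0 ≤ g o r ∧ g o r ≤ 2) →
  (∀ (o : ℕ) (r : ℤ), o ≤ t → 0 ≤ r → r < 3 ^ μ →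
    ((cn (E o) (a * 3 ^ o / 2 ^ t) (((a : ℝ) + H) * 3 ^ o / 2 ^ t) μ r).card : ℝ) ≤
      g o r * (H * 3 ^ o / 2 ^ t / 3 ^ μ)) →
  ∀ m : ℕ, (m : ℝ) ^ 2 ≤ κ * Real.log H → ∀ r₀ : ℤ,
  ∀ F : Finset ℤ, (∀ x ∈ F, a ≤ x ∧ x < a + H ∧ x ∈ SE t E ∧ (3 : ℤ) ^ m ∣ x - r₀) →
  (F.card : ℝ) ≤ H / 3 ^ m * ((∑ v ∈ words t, g (ones v) (cl μ v)) / 2 ^ t + C * Real.log H ^ 2 / (μ : ℝ) ^ B) := by
  classical
  obtain ⟨-, -, -, hcl⟩ := Pool.Agent.Q208.BH.cls
  have hB := base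
  have hS := step
  obtain ⟨hcI1, -⟩ := cI_bounds
  set c₀ : ℝ := max c 1 with hc0
  have hc0c : c ≤ c₀ := le_max_left _ _
  have hc01 : 1 ≤ c₀ := le_max_right _ _
  have hc0I : c₀ < cI := max_lt hc (by linarith)
  set c₁ : ℝ := (c₀ + cI) / 2 with hc1
  have hcc : c₀ < c₁ := by rw [hc1]; linarith
  have hc1I : c₁ < cI := by rw [hc1]; linarith
  have hc1p : 0 < c₁ := by linarith
  obtain ⟨κ₁, C₁, hκ₁, hκ₁1, hC₁, hQ⟩ := QW_all hB hS hc1I B
  set X : ℝ := max 1000 ((c₁ / (c₁ - c₀)) ^ 2) with hX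
  have hX1 : 1000 ≤ X := le_max_left _ _
  have hX2 : (c₁ / (c₁ - c₀)) ^ 2 ≤ X := le_max_right _ _
  have hl2 : 0 < Real.log 2 := Real.log_pos (by norm_num)
  have hl2' := Real.log_two_lt_d9
  obtain ⟨D₁, hD₁⟩ : ∃ D : ℝ, D = 2 ^ B * B.factorial := ⟨_, rfl⟩
  obtain ⟨D₂, hD₂⟩ : ∃ D : ℝ, D = 2 * (B.factorial / Real.log 2 ^ B) := ⟨_, rfl⟩
  have hD₁0 : 0 < D₁ := by rw [hD₁]; positivity
  have hD₂0 : 0 < D₂ := by rw [hD₂]; positivity
  refine ⟨κ₁ / 2, 4 * (X ^ B / Real.log 2 ^ 2) + D₁ + D₂ + C₁, by positivity, by linarith, by positivity, ?_⟩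
  intro H hH a t ht1 ht μ hμ1 hμ E g hg hE m₀ hm₀ r₀ F hF
  have hHr : (2 : ℝ) ≤ H := by exact_mod_cast hH
  have hH0 : (0 : ℝ) < H := by linarith
  set s := Real.log H with hsd
  have hs0 : 0 < s := Real.log_pos (by linarith)
  have hs2 : Real.log 2 ≤ s := Real.log_le_log (by norm_num) hHr
  have hexp : Real.exp s = H := Real.exp_log hH0
  have hμr : (1 : ℝ) ≤ μ := by exact_mod_cast hμ1
  have hμ0 : (0 : ℝ) < μ := by linarith
  have hμB : (0 : ℝ) < (μ : ℝ) ^ B := by positivity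
  have hμ2 : (μ : ℝ) ^ 2 ≤ s := by nlinarith
  have hμs : (μ : ℝ) ≤ √ s := Real.le_sqrt_of_sq_le hμ2
  set Φ : List Bool → ℝ := fun v => g (ones v) (cl μ v) with hΦ
  have hΦ0 : ∀ v, 0 ≤ Φ v := fun v => (hg _ _).1
  have hΦ1 : ∀ v, Φ (false :: v) = Φ v := by
    intro v
    simp only [hΦ, ones_cons_false, hcl]
  have hg0 : 0 ≤ (∑ v ∈ words t, Φ v) / 2 ^ t := div_nonneg (sum_nonneg fun v _ => hΦ0 v) (by positivity)
  have hXB : 0 < X ^ B := by positivity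
  have hm2 : (m₀ : ℝ) ^ 2 ≤ s / 2 := by nlinarith
  have h3m : (0 : ℝ) < 3 ^ m₀ := by positivity
  rcases le_or_gt s X with hcase | hcase
  · have h1 : (F.card : ℝ) ≤ H / 3 ^ m₀ * 4 := by
      have h2 := card_dvd2 0 m₀ H a r₀ F (fun x hx => by
        obtain ⟨g1, g2, _, g4⟩ := hF x hx
        exact ⟨g1, g2, by simp, g4⟩)
      rw [pow_zero, div_one] at h2
      have h3 := pow3_le (m := m₀) (s := s) (by linarith) hs0.le
      rw [hexp] at h3
      have h4 : (1 : ℝ) ≤ H / 3 ^ m₀ * 3 := by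
        rw [div_mul_eq_mul_div, le_div_iff₀ h3m]
        linarith
      linarith
    have h2 : (4 : ℝ) ≤ (4 * (X ^ B / Real.log 2 ^ 2) + D₁ + D₂ + C₁) * s ^ 2 / (μ : ℝ) ^ B := by
      rw [le_div_iff₀ hμB]
      have h3 : (μ : ℝ) ^ B ≤ X ^ B := by
        apply pow_le_pow_left₀ hμ0.le
        nlinarith
      have h4 : X ^ B ≤ X ^ B / Real.log 2 ^ 2 * s ^ 2 := by
        rw [div_mul_eq_mul_div, le_div_iff₀ (by positivity)]
        apply mul_le_mul_of_nonneg_left _ hXB.le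
        exact pow_le_pow_left₀ hl2.le hs2 2
      have h5 : 0 ≤ (D₁ + D₂ + C₁) * s ^ 2 := by positivity
      linarith
    calc (F.card : ℝ) ≤ H / 3 ^ m₀ * 4 := h1
      _ ≤ _ := by
          apply mul_le_mul_of_nonneg_left _ (by positivity)
          linarith
  · have hs1000 : 1000 ≤ s := by linarith
    set J := ⌊√ s⌋₊ with hJ
    have hsq0 : 0 < √ s := Real.sqrt_pos.2 hs0
    have hss : √ s * √ s = s := Real.mul_self_sqrt hs0.le
    have hs30 : 30 ≤ √ s := by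
      apply Real.le_sqrt_of_sq_le; linarith
    have hsq30 : √ s ≤ s / 30 := by
      have h1 : √ s * 30 ≤ √ s * √ s := mul_le_mul_of_nonneg_left hs30 hsq0.le
      rw [hss] at h1
      linarith
    have hJ1 : (J : ℝ) ≤ √ s := Nat.floor_le hsq0.le
    have hJ2 : √ s < J + 1 := Nat.lt_floor_add_one _
    have hJt : J ≤ t := by
      have : (J : ℝ) ≤ t := by linarith
      exact_mod_cast this
    -- the parts
    have hpart : ∀ j < J, ((F.filter (fun x => ∃ M : ℤ, Odd M ∧ x = 2 ^ j * M)).card : ℝ) ≤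
        H / 3 ^ m₀ * ((1 / 2 : ℝ) ^ (j + 1) * (OW (t - j) Φ + C₁ * s ^ 2 / (μ : ℝ) ^ B)) := by
      intro j hj
      have hjr : (j : ℝ) + 1 ≤ J := by exact_mod_cast hj
      have hjt : j ≤ t := by omega
      have h2j : (0 : ℝ) < 2 ^ j := by positivity
      have hab : (a : ℝ) / 2 ^ j < ((a : ℝ) + H) / 2 ^ j :=
        div_lt_div_of_pos_right (by linarith) h2j
      have e0 : ((a : ℝ) + H) / 2 ^ j - a / 2 ^ j = H / 2 ^ j := by ring
      have e1 : Real.log (H / 2 ^ j) = s - j * Real.log 2 := by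
        rw [Real.log_div hH0.ne' h2j.ne', Real.log_pow]
      have hj0 : (0 : ℝ) ≤ j := Nat.cast_nonneg j
      have hjl : (j : ℝ) * Real.log 2 ≤ √ s := by
        have h1 : (j : ℝ) * Real.log 2 ≤ j * 1 := mul_le_mul_of_nonneg_left (by linarith) hj0
        linarith
      have hjl0 : 0 ≤ (j : ℝ) * Real.log 2 := by positivity
      have hhalf : s / 2 ≤ Real.log (H / 2 ^ j) := by
        rw [e1]
        have h1 : 30 * √ s ≤ √ s * √ s := mul_le_mul_of_nonneg_right hs30 hsq0.le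
        linarith
      have htj : ((t - j : ℕ) : ℝ) = t - j := Nat.cast_sub hjt
      have e2t : (2 : ℝ) ^ t = 2 ^ j * 2 ^ (t - j) := by
        rw [← pow_add]; congr 1; omega
      have cA : 1 ≤ Real.log (((a : ℝ) + H) / 2 ^ j - a / 2 ^ j) := by rw [e0]; linarith
      have cB : Real.log (((a : ℝ) + H) / 2 ^ j - a / 2 ^ j) / 10 ≤ ((t - j : ℕ) : ℝ) := by
        rw [e0, e1, htj]
        linarith
      have cC : ((t - j : ℕ) : ℝ) ≤ c₁ * Real.log (((a : ℝ) + H) / 2 ^ j - a / 2 ^ j) := by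
        rw [e0, e1]
        have h5 : ((t - j : ℕ) : ℝ) ≤ t := by rw [htj]; linarith
        have h6 : c₁ * √ s ≤ (c₁ - c₀) * s := by
          have h7 : c₁ / (c₁ - c₀) ≤ √ s := by
            apply Real.le_sqrt_of_sq_le
            linarith
          rw [div_le_iff₀ (by linarith)] at h7
          calc c₁ * √ s ≤ (√ s * (c₁ - c₀)) * √ s := mul_le_mul_of_nonneg_right h7 hsq0.le
            _ = (c₁ - c₀) * (√ s * √ s) := by ring
            _ = _ := by rw [hss]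
        have h8 : c₁ * (j * Real.log 2) ≤ c₁ * √ s := mul_le_mul_of_nonneg_left hjl hc1p.le
        have h9 : c₁ * (s - j * Real.log 2) = c₁ * s - c₁ * (j * Real.log 2) := by ring
        have h10 : c * s ≤ c₀ * s := mul_le_mul_of_nonneg_right hc0c hs0.le
        rw [h9]
        linarith
      have cD : (μ : ℝ) ^ 2 ≤ κ₁ * Real.log (((a : ℝ) + H) / 2 ^ j - a / 2 ^ j) := by
        rw [e0]
        calc (μ : ℝ) ^ 2 ≤ κ₁ / 2 * s := hμ
          _ = κ₁ * (s / 2) := by ring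
          _ ≤ _ := mul_le_mul_of_nonneg_left hhalf hκ₁.le
      have cE : ∀ (o : ℕ) (r : ℤ), o ≤ t - j → 0 ≤ r → r < 3 ^ μ →
          ((cn (E o) ((a : ℝ) / 2 ^ j * 3 ^ o / 2 ^ (t - j)) (((a : ℝ) + H) / 2 ^ j * 3 ^ o / 2 ^ (t - j)) μ r).card : ℝ) ≤
            g o r * ((((a : ℝ) + H) / 2 ^ j - a / 2 ^ j) * 3 ^ o / 2 ^ (t - j) / 3 ^ μ) := by
        intro o r ho hr0 hr1
        have h5 := hE o r (by omega) hr0 hr1
        have w1 : (a : ℝ) / 2 ^ j * 3 ^ o / 2 ^ (t - j) = a * 3 ^ o / 2 ^ t := by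
          rw [e2t]; field_simp
        have w2 : ((a : ℝ) + H) / 2 ^ j * 3 ^ o / 2 ^ (t - j) = (a + H) * 3 ^ o / 2 ^ t := by
          rw [e2t]; field_simp
        have w3 : (H : ℝ) / 2 ^ j * 3 ^ o / 2 ^ (t - j) / 3 ^ μ = H * 3 ^ o / 2 ^ t / 3 ^ μ := by
          rw [e2t]; field_simp
        rw [w1, w2, e0, w3]
        exact h5
      have cF : (m₀ : ℝ) ^ 2 ≤ Real.log (((a : ℝ) + H) / 2 ^ j - a / 2 ^ j) := by
        rw [e0]
        linarith
      have cG : IsCoprime ((2 : ℤ) ^ j) 3 := by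
        apply IsCoprime.pow_left
        rw [Int.isCoprime_iff_gcd_eq_one]; norm_num
      have h1 := hQ ((a : ℝ) / 2 ^ j) (((a : ℝ) + H) / 2 ^ j) hab cA (t - j) cB cC μ hμ1 cD E g hg cE m₀ cF
      have h2 := h1 (2 ^ j) r₀ cG
      rw [e0] at h2
      have h5 : (F.filter (fun x => ∃ M : ℤ, Odd M ∧ x = 2 ^ j * M)).card ≤
          (cls (SE (t - j) E) (a / 2 ^ j) ((a + H) / 2 ^ j) m₀ (2 ^ j) r₀).card := by
        apply card_le_card_of_injOn (fun x => x / 2 ^ j)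
        · intro x hx
          rw [coe_filter, Set.mem_ofPred_eq] at hx
          obtain ⟨hxF, M, hM, hxM⟩ := hx
          obtain ⟨h6, h7, h8, h88⟩ := hF x hxF
          have h9 : x / 2 ^ j = M := by
            rw [hxM]; exact Int.mul_ediv_cancel_left _ (by positivity)
          rw [mem_coe, mem_cls]
          beta_reduce
          rw [h9]
          have hxr : (x : ℝ) = 2 ^ j * M := by rw [hxM]; push_cast; ring
          have h6r : (a : ℝ) ≤ x := by exact_mod_cast h6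
          have h7r : (x : ℝ) < a + H := by exact_mod_cast h7
          refine ⟨⟨?_, ?_⟩, hM, ?_, by rw [← hxM]; exact h88⟩
          · rw [div_le_iff₀ h2j]; linarith
          · rw [lt_div_iff₀ h2j]; linarith
          · unfold SE at h8 ⊢
            rw [Set.mem_ofPred_eq] at h8 ⊢
            have h10 := shift_pow (show j ≤ t by omega) M
            rw [← hxM] at h10
            rw [← h10.1, ← h10.2]
            exact h8
        · intro x hx y hy hxy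
          rw [coe_filter, Set.mem_ofPred_eq] at hx hy
          obtain ⟨-, M, -, hxM⟩ := hx
          obtain ⟨-, M', -, hyM⟩ := hy
          simp only at hxy
          rw [hxM, hyM, Int.mul_ediv_cancel_left _ (by positivity),
            Int.mul_ediv_cancel_left _ (by positivity)] at hxy
          rw [hxM, hyM, hxy]
      have h6 : ((F.filter (fun x => ∃ M : ℤ, Odd M ∧ x = 2 ^ j * M)).card : ℝ) ≤
          (cls (SE (t - j) E) (a / 2 ^ j) ((a + H) / 2 ^ j) m₀ (2 ^ j) r₀).card := by exact_mod_cast h5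
      refine h6.trans (h2.trans ?_)
      have h7 : C₁ * Real.log (H / 2 ^ j) ^ 2 / (μ : ℝ) ^ B ≤ C₁ * s ^ 2 / (μ : ℝ) ^ B := by
        apply div_le_div_of_nonneg_right _ hμB.le
        apply mul_le_mul_of_nonneg_left _ hC₁.le
        apply pow_le_pow_left₀ (by linarith)
        rw [e1]; linarith
      have e2 : (H : ℝ) / 2 ^ j / (2 * 3 ^ m₀) = H / 3 ^ m₀ * (1 / 2 : ℝ) ^ (j + 1) := by
        rw [one_div, inv_pow, pow_succ]
        field_simp
      rw [e2]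
      calc (OW (t - j) Φ + C₁ * Real.log (H / 2 ^ j) ^ 2 / (μ : ℝ) ^ B) * (H / 3 ^ m₀ * (1 / 2 : ℝ) ^ (j + 1)) ≤
          (OW (t - j) Φ + C₁ * s ^ 2 / (μ : ℝ) ^ B) * (H / 3 ^ m₀ * (1 / 2 : ℝ) ^ (j + 1)) := by gcongr
        _ = _ := by ring
    have hcover : F ⊆ (F.filter (fun x => (2 : ℤ) ^ J ∣ x)) ∪
        (range J).biUnion (fun j => F.filter (fun x => ∃ M : ℤ, Odd M ∧ x = 2 ^ j * M)) := by
      intro x hx
      rw [mem_union, mem_filter, mem_biUnion]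
      rcases two_part J x with h | ⟨j, hj, M, hM, hxM⟩
      · exact Or.inl ⟨hx, h⟩
      · exact Or.inr ⟨j, mem_range.2 hj, mem_filter.2 ⟨hx, M, hM, hxM⟩⟩
    have h1 : (F.card : ℝ) ≤ (F.filter (fun x => (2 : ℤ) ^ J ∣ x)).card +
        ∑ j ∈ range J, ((F.filter (fun x => ∃ M : ℤ, Odd M ∧ x = 2 ^ j * M)).card : ℝ) := by
      have h2 := (card_le_card hcover).trans (card_union_le _ _)
      have h3 := h2.trans (Nat.add_le_add_left card_biUnion_le _)
      exact_mod_cast h3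
    have h2 := card_dvd2 J m₀ H a r₀ (F.filter (fun x => (2 : ℤ) ^ J ∣ x)) (fun x hx => by
      rw [mem_filter] at hx
      exact ⟨(hF x hx.1).1, (hF x hx.1).2.1, hx.2, (hF x hx.1).2.2.2⟩)
    have h4 : ∑ j ∈ range J, ((F.filter (fun x => ∃ M : ℤ, Odd M ∧ x = 2 ^ j * M)).card : ℝ) ≤
        H / 3 ^ m₀ * ((∑ v ∈ words t, Φ v) / 2 ^ t + C₁ * s ^ 2 / (μ : ℝ) ^ B) := by
      refine (sum_le_sum (fun j hj => hpart j (mem_range.1 hj))).trans ?_
      rw [← mul_sum]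
      apply mul_le_mul_of_nonneg_left _ (by positivity)
      have h5 : ∑ j ∈ range J, (1 / 2 : ℝ) ^ (j + 1) * (OW (t - j) Φ + C₁ * s ^ 2 / (μ : ℝ) ^ B) =
          ∑ j ∈ range J, (1 / 2 : ℝ) ^ (j + 1) * OW (t - j) Φ +
            (∑ j ∈ range J, (1 / 2 : ℝ) ^ (j + 1)) * (C₁ * s ^ 2 / (μ : ℝ) ^ B) := by
        rw [sum_mul, ← sum_add_distrib]
        apply sum_congr rfl
        intro j _
        ring
      rw [h5]
      have h6 := OW_halves hJt hΦ0 hΦ1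
      have h7 : ∑ j ∈ range J, (1 / 2 : ℝ) ^ (j + 1) ≤ 1 := by
        have : ∀ n : ℕ, ∑ j ∈ range n, (1 / 2 : ℝ) ^ (j + 1) = 1 - (1 / 2) ^ n := by
          intro n
          induction n with
          | zero => simp
          | succ n ih => rw [sum_range_succ, ih, pow_succ]; ring
        rw [this]
        have : (0 : ℝ) ≤ (1 / 2) ^ J := by positivity
        linarith
      have h8 : (∑ j ∈ range J, (1 / 2 : ℝ) ^ (j + 1)) * (C₁ * s ^ 2 / (μ : ℝ) ^ B) ≤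
          1 * (C₁ * s ^ 2 / (μ : ℝ) ^ B) := mul_le_mul_of_nonneg_right h7 (by positivity)
      linarith
    have hsqB : (μ : ℝ) ^ B ≤ √ s ^ B := pow_le_pow_left₀ hμ0.le hμs B
    have hs2' : (1 : ℝ) ≤ s ^ 2 := one_le_pow₀ (by linarith)
    have hup : ∀ D : ℝ, 0 < D → D / √ s ^ B ≤ D * s ^ 2 / (μ : ℝ) ^ B := by
      intro D hD
      calc D / √ s ^ B ≤ D / (μ : ℝ) ^ B := div_le_div_of_nonneg_left hD.le hμB hsqB
        _ ≤ D * s ^ 2 / (μ : ℝ) ^ B := by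
            apply div_le_div_of_nonneg_right _ hμB.le
            exact le_mul_of_one_le_right hD.le hs2'
    have h5 : (H : ℝ) / 3 ^ m₀ / 2 ^ J ≤ H / 3 ^ m₀ * (D₂ * s ^ 2 / (μ : ℝ) ^ B) := by
      rw [div_eq_mul_inv (H / 3 ^ m₀ : ℝ)]
      apply mul_le_mul_of_nonneg_left _ (by positivity)
      have h6 : ((2 : ℝ) ^ J)⁻¹ ≤ 2 * Real.exp (-(Real.log 2 * √ s)) := by
        rw [Real.exp_neg, ← Real.rpow_def_of_pos (by norm_num)]
        have h7 : (2 : ℝ) ^ (√ s) ≤ 2 * 2 ^ J := by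
          have h8 : (2 : ℝ) ^ (√ s) ≤ (2 : ℝ) ^ ((J : ℝ) + 1) :=
            Real.rpow_le_rpow_of_exponent_le (by norm_num) hJ2.le
          rw [Real.rpow_add (by norm_num), Real.rpow_one, Real.rpow_natCast] at h8
          linarith
        rw [← div_eq_mul_inv, le_div_iff₀ (by positivity), inv_mul_le_iff₀ (by positivity)]
        linarith
      refine h6.trans (le_trans ?_ (hup D₂ hD₂0))
      have h7 := exp_decay B (show 0 < Real.log 2 * √ s by positivity)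
      rw [mul_pow] at h7
      rw [hD₂]
      calc 2 * Real.exp (-(Real.log 2 * √ s)) ≤
          2 * (B.factorial / (Real.log 2 ^ B * √ s ^ B)) := by linarith
        _ = _ := by field_simp
    have h6 : (1 : ℝ) ≤ H / 3 ^ m₀ * (D₁ * s ^ 2 / (μ : ℝ) ^ B) := by
      have h7 := exp_decay B (show 0 < s / 2 by linarith)
      have h8 : (B.factorial : ℝ) / (s / 2) ^ B ≤ D₁ * s ^ 2 / (μ : ℝ) ^ B := by
        refine le_trans ?_ (hup D₁ hD₁0)
        rw [hD₁]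
        have e : (B.factorial : ℝ) / (s / 2) ^ B = 2 ^ B * B.factorial / s ^ B := by
          rw [div_pow]; field_simp
        rw [e]
        apply div_le_div_of_nonneg_left (by positivity) (by positivity)
        apply pow_le_pow_left₀ hsq0.le
        linarith
      have h9 : Real.exp (s / 2) ≤ H / 3 ^ m₀ := by
        rw [le_div_iff₀ h3m]
        have h10 : (m₀ : ℝ) ^ 2 ≤ s := by linarith
        have h11 : (m₀ : ℝ) ≤ √ s := Real.le_sqrt_of_sq_le h10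
        have e : (3 : ℝ) ^ m₀ = Real.exp (m₀ * Real.log 3) := by
          rw [mul_comm, Real.exp_mul, Real.exp_log (by norm_num), Real.rpow_natCast]
        rw [e, ← Real.exp_add, ← hexp]
        apply Real.exp_le_exp.2
        obtain ⟨hl0, hl3⟩ := log3_bd
        have : (m₀ : ℝ) * Real.log 3 ≤ √ s * 1.101 := mul_le_mul h11 hl3.le (by linarith) hsq0.le
        linarith
      have h10 : Real.exp (s / 2) * Real.exp (-(s / 2)) = 1 := by rw [← Real.exp_add]; simp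
      calc (1 : ℝ) = Real.exp (s / 2) * Real.exp (-(s / 2)) := h10.symm
        _ ≤ H / 3 ^ m₀ * (D₁ * s ^ 2 / (μ : ℝ) ^ B) :=
            mul_le_mul h9 (h7.trans h8) (Real.exp_pos _).le (by positivity)
    have h7 : (H : ℝ) / 3 ^ m₀ * ((∑ v ∈ words t, Φ v) / 2 ^ t +
        (4 * (X ^ B / Real.log 2 ^ 2) + D₁ + D₂ + C₁) * s ^ 2 / (μ : ℝ) ^ B) =
        H / 3 ^ m₀ * ((∑ v ∈ words t, Φ v) / 2 ^ t + C₁ * s ^ 2 / (μ : ℝ) ^ B) +
          H / 3 ^ m₀ * (D₁ * s ^ 2 / (μ : ℝ) ^ B) +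
          H / 3 ^ m₀ * (D₂ * s ^ 2 / (μ : ℝ) ^ B) +
          H / 3 ^ m₀ * (4 * (X ^ B / Real.log 2 ^ 2) * s ^ 2 / (μ : ℝ) ^ B) := by ring
    have h8 : 0 ≤ (H : ℝ) / 3 ^ m₀ * (4 * (X ^ B / Real.log 2 ^ 2) * s ^ 2 / (μ : ℝ) ^ B) := by positivity
    show (F.card : ℝ) ≤ (H : ℝ) / 3 ^ m₀ * ((∑ v ∈ words t, Φ v) / 2 ^ t +
        (4 * (X ^ B / Real.log 2 ^ 2) + D₁ + D₂ + C₁) * s ^ 2 / (μ : ℝ) ^ B)
    rw [h7]
    linarith

end Pool.Agent.H620.Inf
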